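import Pool.Agent.KS6_19.DA.L.T6.H4.SG.Stm
import Pool.Agent.KS6_19.DA.L.Helper114.KPlane

/-! # Module CNV: all orbits have asymptotically equal displacement -/

set_option autoImplicit false

open Set Metric Filter Topology

noncomputable section

namespace Pool.Agent.T6.H4.SG

namespace CNVx

variable {F : ℂ → ℂ} {K : ℕ → Set ℂ} {N : ℕ}

theorem HH_open : IsOpen HH := isOpen_lt continuous_const Complex.continuous_re

theorem HH_convex : Convex ℝ HH := convex_halfSpace_re_gt 0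

theorem F_mem (hs : Sys F K N) {w : ℂ} (hw : w ∈ HH) : F w ∈ HH :=
  lt_of_lt_of_le hw (hs.mono w hw)

theorem iter_mem (hs : Sys F K N) (j : ℕ) {w : ℂ} (hw : w ∈ HH) : F^[j] w ∈ HH := by
  induction j with
  | zero => exact hw
  | succ j ih =>
    rw [Function.iterate_succ_apply']
    exact F_mem hs ih

theorem iter_diff (hs : Sys F K N) (j : ℕ) : DifferentiableOn ℂ (F^[j]) HH := by
  induction j with
  | zero => exact differentiableOn_id
  | succ j ih =>
    rw [Function.iterate_succ']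
    exact hs.hol.comp ih (fun w hw => iter_mem hs j hw)

theorem K_anti (hs : Sys F K N) : Antitone K := antitone_nat_of_succ_le hs.anti

theorem orb' (hs : Sys F K N) {n j : ℕ} (hj : N + n ≤ j) {w : ℂ} (hw : w ∈ HH) :
    F^[j] w ∈ K n := by
  have h1 := hs.orb (j - N) w hw
  have h2 : N + (j - N) = j := by omega
  rw [h2] at h1
  exact K_anti hs (by omega) h1

theorem K_iter (hs : Sys F K N) {n : ℕ} (j : ℕ) {w : ℂ} (hw : w ∈ K n) : F^[j] w ∈ K n := by
  induction j with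
  | zero => exact hw
  | succ j ih =>
    rw [Function.iterate_succ_apply']
    apply hs.anti n
    rw [← hs.img n]
    exact mem_image_of_mem F ih

theorem iter_inj (hs : Sys F K N) {n : ℕ} (hi : InjOn F (K n)) (j : ℕ) :
    InjOn (F^[j]) (K n) := by
  induction j with
  | zero => exact injOn_id _
  | succ j ih =>
    intro a ha b hb hab
    rw [Function.iterate_succ_apply', Function.iterate_succ_apply'] at hab
    exact ih ha hb (hi (K_iter hs j ha) (K_iter hs j hb) hab)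

theorem h_diff (hs : Sys F K N) : DifferentiableOn ℂ (fun w => F w - w) HH :=
  hs.hol.sub differentiableOn_id

theorem h_re (hs : Sys F K N) : ∀ w ∈ HH, 0 ≤ (F w - w).re := by
  intro w hw
  rw [Complex.sub_re]
  linarith [hs.mono w hw]

theorem ne_fix (hs : Sys F K N) {w : ℂ} (hw : w ∈ HH) : F w ≠ w := by
  intro h
  obtain ⟨n, hn⟩ := hs.far (‖w‖ + 1)
  have h1 := hs.orb n w hw
  rw [Function.iterate_fixed h] at h1
  have := hn w h1
  linarith

/-- the normalised iterates -/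
def g (F : ℂ → ℂ) (u : ℂ) (j : ℕ) (v : ℂ) : ℂ :=
  (F^[j] v - ((F^[j] u).im : ℂ) * Complex.I) / ((F^[j] u).re : ℂ)

theorem g_re (u : ℂ) (j : ℕ) (v : ℂ) : (g F u j v).re = (F^[j] v).re / (F^[j] u).re := by
  unfold g
  rw [Complex.div_ofReal_re]
  simp

theorem g_u (hs : Sys F K N) {u : ℂ} (hu : u ∈ HH) (j : ℕ) : g F u j u = 1 := by
  have h1 : 0 < (F^[j] u).re := iter_mem hs j hu
  have h2 : ((F^[j] u).re : ℂ) ≠ 0 := by exact_mod_cast h1.ne'
  unfold g
  rw [div_eq_one_iff_eq h2]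
  apply Complex.ext <;> simp

theorem g_diff (hs : Sys F K N) (u : ℂ) (j : ℕ) : DifferentiableOn ℂ (g F u j) HH := by
  unfold g
  exact ((iter_diff hs j).sub_const _).div_const _

theorem g_sub (u : ℂ) (j : ℕ) (v w : ℂ) :
    g F u j v - g F u j w = (F^[j] v - F^[j] w) / ((F^[j] u).re : ℂ) := by
  unfold g
  rw [← sub_div]
  congr 1
  ring

/-- the Harnack bound -/
def bd (u v : ℂ) : ℝ := 2 * ‖v + (starRingEnd ℂ) u‖ ^ 2 / (v.re * u.re)

theorem g_bound (hH : S_HAR) (hs : Sys F K N) {u : ℂ} (hu : u ∈ HH) (j : ℕ) {v : ℂ}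
    (hv : v ∈ HH) : ‖g F u j v‖ ≤ bd u v := by
  have h0 : 0 < (F^[j] u).re := iter_mem hs j hu
  have h1 := (hH (g F u j) (g_diff hs u j) (fun w hw => by
    rw [g_re]
    exact div_nonneg (le_of_lt (iter_mem hs j hw)) h0.le)).1 v hv u hu
  rw [g_u hs hu, norm_one, mul_one] at h1
  have hv' : 0 < v.re := hv
  have hu' : 0 < u.re := hu
  unfold bd
  rw [le_div_iff₀ (by positivity)]
  exact h1

theorem bd_cont {u : ℂ} (hu : u ∈ HH) : ContinuousOn (bd u) HH := by
  unfold bd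
  apply ContinuousOn.div
  · fun_prop
  · fun_prop
  · intro v hv
    have hv' : 0 < v.re := hv
    have hu' : 0 < u.re := hu
    positivity

theorem g_LB (hH : S_HAR) (hs : Sys F K N) {u : ℂ} (hu : u ∈ HH) :
    Pool.Agent.Helper114.Konig.LB HH (g F u) := by
  intro z hz
  have h1 : ContinuousAt (bd u) z := (bd_cont hu).continuousAt (HH_open.mem_nhds hz)
  refine ⟨{y | bd u y < bd u z + 1} ∩ HH, inter_mem (h1.eventually_lt_const (by linarith))
    (HH_open.mem_nhds hz), bd u z + 1, ?_⟩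
  intro n y hy
  exact (g_bound hH hs hu n hy.2).trans (le_of_lt hy.1)

/-- invariance of the limit -/
theorem lim_inv (hH : S_HAR) (hs : Sys F K N) (hsm : Small F K) {u : ℂ} (hu : u ∈ HH)
    (𝒰 : Ultrafilter ℕ) (h𝒰 : (𝒰 : Filter ℕ) ≤ atTop) {G : ℂ → ℂ}
    (hG : ∀ z ∈ HH, Tendsto (fun n => g F u n z) 𝒰 (𝓝 (G z))) {v : ℂ} (hv : v ∈ HH) :
    G (F v) = G v := by
  have h1 : Tendsto (fun n => g F u n (F v) - g F u n v) 𝒰 (𝓝 (G (F v) - G v)) :=
    (hG _ (F_mem hs hv)).sub (hG v hv)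
  have h2 : Tendsto (fun n => g F u n (F v) - g F u n v) atTop (𝓝 0) := by
    rw [Metric.tendsto_nhds]
    intro ε hε
    obtain ⟨B, hB⟩ : ∃ B, B = bd u v + 1 := ⟨_, rfl⟩
    have hB0 : 0 < B := by
      have := (norm_nonneg _).trans (g_bound hH hs hu 0 hv)
      rw [hB]; linarith
    obtain ⟨n, hn⟩ := hsm (ε / (2 * B)) (by positivity)
    filter_upwards [eventually_ge_atTop (N + n)] with j hj
    have h3 := hn _ (orb' hs hj hv)
    have hx : 0 < (F^[j] u).re := iter_mem hs j hu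
    rw [dist_eq_norm, sub_zero, g_sub, norm_div, Complex.norm_real, Real.norm_of_nonneg hx.le]
    have h4 : F^[j] (F v) = F (F^[j] v) := by
      rw [← Function.iterate_succ_apply, Function.iterate_succ_apply']
    rw [h4]
    have h5 : (F^[j] v).re / (F^[j] u).re ≤ B := by
      rw [← g_re]
      have h6 := (Complex.abs_re_le_norm (g F u j v)).trans (g_bound hH hs hu j hv)
      have h7 := le_abs_self (g F u j v).re
      rw [hB]; linarith
    calc ‖F (F^[j] v) - F^[j] v‖ / (F^[j] u).re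
        ≤ (ε / (2 * B) * (F^[j] v).re) / (F^[j] u).re := by gcongr
      _ = ε / (2 * B) * ((F^[j] v).re / (F^[j] u).re) := by ring
      _ ≤ ε / (2 * B) * B := by gcongr
      _ = ε / 2 := by field_simp
      _ < ε := by linarith
  have h3 := tendsto_nhds_unique h1 (h2.mono_left h𝒰)
  exact sub_eq_zero.1 h3

theorem g_tendsto (hL : S_LOC) (hH : S_HAR) (hs : Sys F K N) (hsm : Small F K) {u v : ℂ}
    (hu : u ∈ HH) (hv : v ∈ HH) : Tendsto (fun n => g F u n v) atTop (𝓝 1) := by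
  rw [tendsto_iff_ultrafilter]
  intro 𝒰 h𝒰
  obtain ⟨G, hGd, hG⟩ := Pool.Agent.Helper114.Konig.locmontel HH_open (g F u)
    (g_diff hs u) (g_LB hH hs hu) 𝒰
  have hG1 : G u = 1 := by
    refine tendsto_nhds_unique (hG u hu) ?_
    simp only [g_u hs hu]
    exact tendsto_const_nhds
  obtain ⟨⟨na, hna⟩, hball⟩ := hL F K N hs hsm
  obtain ⟨n1, hn1, hb1⟩ := hball na
  obtain ⟨n2, hn2⟩ := hsm (1 / 4) (by norm_num)
  have h1m : (1 : ℂ) ∈ HH := by
    show 0 < (1 : ℂ).re
    simp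
  obtain ⟨w, hw⟩ : ∃ w, w = F^[N + max n1 n2] 1 := ⟨_, rfl⟩
  have hwK : w ∈ K (max n1 n2) := by rw [hw]; exact hs.orb _ 1 h1m
  have hw1 : w ∈ K n1 := K_anti hs (le_max_left _ _) hwK
  have hw2 : w ∈ K n2 := K_anti hs (le_max_right _ _) hwK
  have hwH : 0 < w.re := hs.sub _ hwK
  have hcl := hb1 w hw1
  have hclH : closedBall w (w.re / 2) ⊆ HH := hcl.trans (hs.sub na)
  have hWH : ball w (w.re / 2) ⊆ HH := ball_subset_closedBall.trans hclH
  obtain ⟨M, hM⟩ := (isCompact_closedBall w (w.re / 2)).exists_bound_of_continuousOn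
    ((bd_cont hu).mono hclH)
  obtain ⟨Φ, hΦd, hΦ⟩ := Pool.Agent.Helper114.Montel.montel isOpen_ball (g F u)
    (fun n => (g_diff hs u n).mono hWH) M (fun n z hz => by
      refine (g_bound hH hs hu n (hWH hz)).trans ?_
      exact (le_abs_self _).trans (hM z (ball_subset_closedBall hz))) 𝒰
  have hΦG : ∀ z ∈ ball w (w.re / 2), Φ z = G z := fun z hz =>
    tendsto_nhds_unique (hΦ.tendsto_at hz) (hG z (hWH hz))
  have hinj : ∀ n, InjOn (g F u n) (ball w (w.re / 2)) := by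
    intro n a ha b hb hab
    have hx : 0 < (F^[n] u).re := iter_mem hs n hu
    have hx' : ((F^[n] u).re : ℂ) ≠ 0 := by exact_mod_cast hx.ne'
    have h3 : g F u n a - g F u n b = 0 := sub_eq_zero.2 hab
    rw [g_sub, div_eq_zero_iff, or_iff_left hx', sub_eq_zero] at h3
    exact iter_inj hs hna n (hcl (ball_subset_closedBall ha)) (hcl (ball_subset_closedBall hb)) h3
  have hwW : w ∈ ball w (w.re / 2) := mem_ball_self (by linarith)
  have hFw : F w ∈ ball w (w.re / 2) := by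
    rw [mem_ball, dist_eq_norm]
    have := hn2 w hw2
    linarith
  have hconst : ∃ c, ∀ z ∈ ball w (w.re / 2), Φ z = c := by
    rcases Pool.Agent.Helper114.Montel.hurwitz_inj isOpen_ball
      (convex_ball w (w.re / 2)).isPreconnected (g F u) Φ
      (fun n => (g_diff hs u n).mono hWH) hinj hΦ with h | h
    · exfalso
      have h2 : Φ (F w) = Φ w := by
        rw [hΦG _ hFw, hΦG _ hwW]
        exact lim_inv hH hs hsm hu 𝒰 h𝒰 hG hwH
      exact ne_fix hs hwH (h hFw hwW h2)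
    · exact h
  obtain ⟨c, hc⟩ := hconst
  have hGa : AnalyticOnNhd ℂ G HH := hGd.analyticOnNhd HH_open
  have heq := hGa.eqOn_of_preconnected_of_eventuallyEq (analyticOnNhd_const (v := c))
    HH_convex.isPreconnected (show w ∈ HH from hwH) (by
      filter_upwards [isOpen_ball.mem_nhds hwW] with z hz
      rw [← hΦG z hz, hc z hz])
  have hc1 : c = 1 := by
    rw [← hG1]
    exact (heq hu).symm
  have hGv : G v = 1 := by
    have := heq hv
    simp only at this
    rw [this, hc1]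
  rw [← hGv]
  exact hG v hv

end CNVx

open CNVx in
theorem t_CNV (hL : S_LOC) (hP : S_PICK) (hH : S_HAR) : S_CNV := by
  intro F K N hs hsm
  refine ⟨fun w hw => ne_fix hs hw, ?_⟩
  intro w hw u hu
  have h1 := g_tendsto hL hH hs hsm hu hw
  rw [Metric.tendsto_nhds]
  intro ε hε
  obtain ⟨e, he⟩ : ∃ e, e = min (1 / 2) (ε / 16) := ⟨_, rfl⟩
  have he0 : 0 < e := by rw [he]; positivity
  have he1 : e ≤ 1 / 2 := by rw [he]; exact min_le_left _ _
  have he2 : e ≤ ε / 16 := by rw [he]; exact min_le_right _ _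
  filter_upwards [(Metric.tendsto_nhds.1 h1) e he0] with j hj
  have hx : 0 < (F^[j] u).re := iter_mem hs j hu
  have hy : 0 < (F^[j] w).re := iter_mem hs j hw
  rw [← g_u hs hu j, dist_eq_norm, g_sub, norm_div, Complex.norm_real, Real.norm_of_nonneg hx.le,
    div_lt_iff₀ hx] at hj
  obtain ⟨p, hp⟩ : ∃ p, p = F^[j] w := ⟨_, rfl⟩
  obtain ⟨q, hq⟩ : ∃ q, q = F^[j] u := ⟨_, rfl⟩
  rw [← hp, ← hq] at hj
  rw [← hp] at hy
  rw [← hq] at hx
  rw [← hp, ← hq]
  have h2 := hP (fun w => F w - w) (h_diff hs) (h_re hs) p hy q hx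
  have h3 := ((hH (fun w => F w - w) (h_diff hs) (h_re hs)).2.1 q hx p (by nlinarith)).1
  obtain ⟨A, hA⟩ : ∃ A, A = F p - p := ⟨_, rfl⟩
  obtain ⟨B, hB⟩ : ∃ B, B = F q - q := ⟨_, rfl⟩
  rw [← hA, ← hB] at h2 h3
  rw [← hA, ← hB]
  have hB0 : B ≠ 0 := by
    rw [hB]
    exact sub_ne_zero.2 (ne_fix hs hx)
  have hBn : 0 < ‖B‖ := norm_pos_iff.2 hB0
  have h4 : q.re / 2 ≤ p.re := by
    have h5 := (Complex.abs_re_le_norm (p - q)).trans hj.le
    rw [Complex.sub_re, abs_le] at h5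
    nlinarith [h5.1]
  have h6 : A.re ≤ ‖A‖ := Complex.re_le_norm A
  have h7 : B.re ≤ ‖B‖ := Complex.re_le_norm B
  have h6' : 0 ≤ A.re := by rw [hA]; exact h_re hs p hy
  have h7' : 0 ≤ B.re := by rw [hB]; exact h_re hs q hx
  have h8 : ‖A - B‖ ^ 2 ≤ (8 * e * ‖B‖) ^ 2 := by
    have k1 : A.re * B.re ≤ 32 * ‖B‖ * ‖B‖ := by
      apply mul_le_mul (h6.trans h3) h7 h7' (by positivity)
    have k2 : ‖p - q‖ ^ 2 ≤ (e * q.re) ^ 2 :=
      pow_le_pow_left₀ (norm_nonneg _) hj.le 2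
    have k3 : A.re * B.re * ‖p - q‖ ^ 2 ≤ 32 * ‖B‖ * ‖B‖ * (e * q.re) ^ 2 := by
      apply mul_le_mul k1 k2 (by positivity) (by positivity)
    have k4 : ‖A - B‖ ^ 2 * (q.re / 2 * q.re) ≤ ‖A - B‖ ^ 2 * (p.re * q.re) := by
      gcongr
    have k5 : ‖A - B‖ ^ 2 * (q.re / 2 * q.re) ≤ (8 * e * ‖B‖) ^ 2 * (q.re / 2 * q.re) := by
      have : (8 * e * ‖B‖) ^ 2 * (q.re / 2 * q.re) = 32 * ‖B‖ * ‖B‖ * (e * q.re) ^ 2 := by ring
      rw [this]
      linarith
    exact le_of_mul_le_mul_right k5 (by positivity)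
  have h9 : ‖A - B‖ ≤ 8 * e * ‖B‖ := by
    exact le_of_sq_le_sq h8 (by positivity)
  rw [dist_eq_norm]
  have h10 : A / B - 1 = (A - B) / B := by
    field_simp
  rw [h10, norm_div, div_lt_iff₀ hBn]
  nlinarith

end Pool.Agent.T6.H4.SG
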