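import Pool.Agent.KS6_19.DA.L.T6.H4.SG.Stm

/-! # Coarse monotonicity (helper94, module COARSE) -/

set_option autoImplicit false

open Set Metric Filter Topology

noncomputable section

namespace Pool.Agent.T6.H4.SG

theorem t_COARSE : S_COARSE := by
  intro g ⟨B1, h1⟩ ⟨B2, h2⟩ h3 D
  obtain ⟨B, hB1, hB2, hB0⟩ : ∃ B : ℝ, B1 ≤ B ∧ B2 ≤ B ∧ 0 ≤ B :=
    ⟨max (max B1 B2) 0, (le_max_left _ _).trans (le_max_left _ _),
      (le_max_right _ _).trans (le_max_left _ _), le_max_right _ _⟩
  have hd : ∀ y1 y0 y2 : ℝ, y1 ≤ y0 → y0 ≤ y2 → min (g y1) (g y2) - B ≤ g y0 :=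
    fun y1 y0 y2 a b => by linarith [h1 y1 y0 y2 a b]
  have hb : ∀ y1 y0 y2 : ℝ, y1 ≤ y0 → y0 ≤ y2 → g y0 ≤ max (g y1) (g y2) + B :=
    fun y1 y0 y2 a b => by linarith [h2 y1 y0 y2 a b]
  obtain ⟨D', hD1, hD2⟩ : ∃ D' : ℝ, D ≤ D' ∧ 2 * B + 1 ≤ D' :=
    ⟨max D (2 * B + 1), le_max_left _ _, le_max_right _ _⟩
  have hD' : 0 < D' := by linarith
  obtain ⟨Q0, hQ0⟩ := h3 (D' + B)
  obtain ⟨Q, hQ1, hQ2⟩ : ∃ Q : ℝ, Q0 < Q ∧ 0 < Q :=
    ⟨max Q0 0 + 1, by linarith [le_max_left Q0 0], by linarith [le_max_right Q0 0]⟩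
  have hdich : ∀ y, g y + D' < g (y + Q) ∨ g (y + Q) < g y - D' := by
    intro y
    by_contra hcon
    push Not at hcon
    have := hQ0 y (y + Q) (by linarith) (fun y' hy' => by
      have e1 := hd y y' (y + Q) hy'.1 hy'.2
      have e2 := hb y y' (y + Q) hy'.1 hy'.2
      have e3 : g y - D' ≤ min (g y) (g (y + Q)) := le_min (by linarith) hcon.2
      have e4 : max (g y) (g (y + Q)) ≤ g y + D' := max_le (by linarith) hcon.1
      rw [abs_le]
      constructor <;> linarith)
    linarith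
  have hup : ∀ y, g y + D' < g (y + Q) → g (y + Q) + D' < g (y + Q + Q) := by
    intro y h
    rcases hdich (y + Q) with h' | h'
    · exact h'
    · have := hb y (y + Q) (y + Q + Q) (by linarith) (by linarith)
      have e : max (g y) (g (y + Q + Q)) ≤ g (y + Q) - D' := max_le (by linarith) h'.le
      linarith
  have hdn : ∀ y, g (y + Q) < g y - D' → g (y + Q + Q) < g (y + Q) - D' := by
    intro y h
    rcases hdich (y + Q) with h' | h'
    · have := hd y (y + Q) (y + Q + Q) (by linarith) (by linarith)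
      have e : g (y + Q) + D' ≤ min (g y) (g (y + Q + Q)) := le_min (by linarith) h'.le
      linarith
    · exact h'
  have hup' : ∀ (y : ℝ), g y + D' < g (y + Q) → ∀ k : ℕ,
      g y + k * D' ≤ g (y + k * Q) ∧ g (y + k * Q) + D' < g (y + k * Q + Q) := by
    intro y h k
    induction k with
    | zero => simpa using h
    | succ k ih =>
      have e : y + ((k + 1 : ℕ) : ℝ) * Q = y + k * Q + Q := by push_cast; ring
      rw [e]
      refine ⟨?_, hup _ ih.2⟩
      push_cast
      linarith [ih.1, ih.2]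
  have hdn' : ∀ (y : ℝ), g (y + Q) < g y - D' → ∀ k : ℕ,
      g (y + k * Q) ≤ g y - k * D' ∧ g (y + k * Q + Q) < g (y + k * Q) - D' := by
    intro y h k
    induction k with
    | zero => simpa using h
    | succ k ih =>
      have e : y + ((k + 1 : ℕ) : ℝ) * Q = y + k * Q + Q := by push_cast; ring
      rw [e]
      refine ⟨?_, hdn _ ih.2⟩
      push_cast
      linarith [ih.1, ih.2]
  have key : ∀ u v : ℝ, g u + D' < g (u + Q) → g (v + Q) < g v - D' → False := by
    intro u v hu hv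
    -- shift
    obtain ⟨a, b, hab1, hab2⟩ : ∃ a b : ℕ, u + a * Q ≤ v + b * Q ∧ v + b * Q ≤ u + a * Q + Q := by
      let j : ℤ := ⌈(u - v) / Q⌉
      have j1 : (u - v) / Q ≤ j := Int.le_ceil _
      have j2 : (j : ℝ) < (u - v) / Q + 1 := Int.ceil_lt_add_one _
      rw [div_le_iff₀ hQ2] at j1
      have j3 : (j : ℝ) * Q ≤ u - v + Q := by
        have := mul_lt_mul_of_pos_right j2 hQ2
        rw [add_mul, div_mul_cancel₀ _ hQ2.ne', one_mul] at this
        exact this.le
      have hj : (j : ℝ) = (j.toNat : ℝ) - ((-j).toNat : ℝ) := by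
        have : j = (j.toNat : ℤ) - ((-j).toNat : ℤ) := by omega
        exact_mod_cast this
      rw [hj] at j1 j3
      refine ⟨(-j).toNat, j.toNat, ?_, ?_⟩
      · linarith
      · linarith
    have hu' := hup' u hu
    have hv' := hdn' v hv
    set u' := u + a * Q with hu'def
    set v' := v + b * Q with hv'def
    have hu2 := hup' u' (hu' a).2
    have hv2 := hdn' v' (hv' b).2
    obtain ⟨k, hk⟩ := exists_nat_gt ((g v' - g u' + B) / (2 * D'))
    rw [div_lt_iff₀ (by linarith)] at hk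
    have e1 := (hu2 k).1
    have e2 := (hu2 k).2
    have e3 := (hv2 k).1
    have e4 := hd (u' + k * Q) (v' + k * Q) (u' + k * Q + Q) (by linarith) (by linarith)
    have e5 : g (u' + k * Q) ≤ min (g (u' + k * Q)) (g (u' + k * Q + Q)) :=
      le_min le_rfl (by linarith)
    have : g u' + k * D' - B ≤ g v' - k * D' := by linarith
    nlinarith
  refine ⟨Q, hQ2, ?_⟩
  by_cases h : ∀ y, g (y + Q) < g y - D'
  · left
    intro y
    linarith [h y]
  · right
    push Not at h
    obtain ⟨u, hu⟩ := h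
    have hu' : g u + D' < g (u + Q) := (hdich u).resolve_right (not_lt.2 hu)
    intro y
    rcases hdich y with h' | h'
    · linarith
    · exact absurd (key u y hu' h') id

end Pool.Agent.T6.H4.SG
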