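import Pool.Agent.KS6_19.DA.L.T6.H4.SG.FAT2

/-!
# Module FAT1: fatness and properness
-/

open Set Metric Filter Topology

noncomputable section

namespace Pool.Agent.T6.H4.SG

namespace FAT1x

open TRAx

variable {F Φ : ℂ → ℂ} {K : ℕ → Set ℂ} {N n : ℕ}

theorem anti_le (hS : Sys F K N) {i j : ℕ} (h : i ≤ j) : K j ⊆ K i :=
  antitone_nat_of_succ_le hS.anti h

theorem iter_K (hS : Sys F K N) {w : ℂ} (hw : w ∈ K n) (m : ℕ) : F^[m] w ∈ K (n + m) := by
  induction m with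
  | zero => exact hw
  | succ m ih =>
    rw [Function.iterate_succ_apply', ← add_assoc, ← hS.img (n + m)]
    exact mem_image_of_mem F ih

theorem inf_iter (hS : Sys F K N) (m : ℕ) :
    ∀ R : ℝ, ∃ R' : ℝ, ∀ w ∈ HH, R' ≤ ‖w‖ → R ≤ ‖F^[m] w‖ := by
  induction m with
  | zero => exact fun R => ⟨R, fun w _ h => h⟩
  | succ m ih =>
    intro R
    obtain ⟨R1, hR1⟩ := hS.inf R
    obtain ⟨R2, hR2⟩ := ih R1
    refine ⟨R2, fun w hw h => ?_⟩
    rw [Function.iterate_succ_apply']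
    exact hR1 _ (iter_mem hS hw m) (hR2 w hw h)

end FAT1x

open TRAx FAT2x FAT1x in
theorem t_FAT1 (hL : S_LOC) (hK : S_KG) : S_FAT1 := by
  intro F K N hS hsmall Φ n hΦ hab hinj
  obtain ⟨n1, hn1, hloc⟩ := (hL F K N hS hsmall).2 n
  obtain ⟨n2, hn2⟩ := hsmall (1 / 1000) (by norm_num)
  set m : ℕ := max 1 (max n1 n2) with hm
  have hm1 : 1 ≤ m := le_max_left _ _
  have hmn1 : n1 ≤ n + m := ((le_max_left n1 n2).trans (le_max_right 1 _)).trans (Nat.le_add_left _ _)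
  have hmn2 : n2 ≤ n + m := ((le_max_right n1 n2).trans (le_max_right 1 _)).trans (Nat.le_add_left _ _)
  -- the images contain discs of radius two
  have key : ∀ v ∈ K (n + m), ball (Φ v) 2 ⊆ Φ '' ball v (v.re / 2) ∧
      ball v (v.re / 2) ⊆ K n ∧ ball v (v.re / 2) ⊆ Nb K n := by
    intro v hv
    have hvn : v ∈ K n := anti_le hS (Nat.le_add_right n m) hv
    have hv0 : 0 < v.re := hS.sub n hvn
    have hsub : ball v (v.re / 2) ⊆ Nb K n := ball_sub_Nb hvn
    have hH : ball v (v.re / 2) ⊆ HH := hsub.trans (Nb_sub_HH hS)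
    obtain ⟨-, -, h3, h4⟩ := hK Φ v (v.re / 2) (by positivity) (hΦ.mono hH) (hinj.mono hsub)
    have hFv : ‖F v - v‖ ≤ 1 / 1000 * v.re := hn2 v (anti_le hS hmn2 hv)
    have h5 := h3 (F v) (by linarith)
    rw [hab v (hS.sub n hvn), add_sub_cancel_left, norm_one] at h5
    have h6 : 60 * ‖F v - v‖ * ‖deriv Φ v‖ ≤ 60 * (1 / 1000 * v.re) * ‖deriv Φ v‖ :=
      mul_le_mul_of_nonneg_right (by linarith) (norm_nonneg _)
    have h7 : 2 ≤ v.re / 2 * ‖deriv Φ v‖ / 4 := by nlinarith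
    refine ⟨(ball_subset_ball h7).trans h4, ?_, hsub⟩
    exact ball_subset_closedBall.trans (hloc v (anti_le hS hmn1 hv))
  refine ⟨⟨m, hm1, ?_⟩, ?_⟩
  · rintro _ ⟨w, hw, rfl⟩ s hs
    have hv := iter_K hS hw m
    obtain ⟨k1, k2, -⟩ := key _ hv
    have hΦv : Φ (F^[m] w) = Φ w + m := abel_iter hS hab (hS.sub n hw) m
    refine image_mono k2 (k1 ?_)
    rw [mem_ball, dist_eq_norm, hΦv]
    rw [mem_closedBall, dist_eq_norm] at hs
    have e1 : Φ w + s - (Φ w + m) = s - m := by ring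
    rw [e1]
    linarith
  · intro R
    by_contra hcon
    push Not at hcon
    choose w hwK hwn hwΦ using fun k : ℕ => hcon (k : ℝ)
    obtain ⟨ζ, -, φ, hφ, hlim⟩ := tendsto_subseq_of_bounded (x := fun k => Φ (w k))
      (isBounded_ball (x := (0 : ℂ)) (r := R)) (fun k => by
        rw [mem_ball_zero_iff]; exact hwΦ k)
    have hev : ∀ᶠ k in atTop, dist (Φ (w (φ k))) ζ < 1 / 2 :=
      (Metric.tendsto_nhds.1 hlim) _ (by norm_num)
    obtain ⟨k0, hk0⟩ := eventually_atTop.1 hev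
    have hv0 := iter_K hS (hwK (φ k0)) m
    obtain ⟨k1, -, k3⟩ := key _ hv0
    set v0 := F^[m] (w (φ k0)) with hv0d
    obtain ⟨R', hR'⟩ := inf_iter hS m (‖v0‖ + v0.re / 2)
    obtain ⟨j, hj⟩ := exists_nat_ge R'
    set k := max k0 j with hk
    have hvk := iter_K hS (hwK (φ k)) m
    set v := F^[m] (w (φ k)) with hvd
    have hkφ : (j : ℝ) ≤ φ k := by
      have : j ≤ φ k := (le_max_right k0 j).trans hφ.le_apply
      exact_mod_cast this
    have hvbig : ‖v0‖ + v0.re / 2 ≤ ‖v‖ := by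
      refine hR' _ (hS.sub n (hwK _)) ?_
      have := hwn (φ k)
      linarith
    have hΦv : Φ v = Φ (w (φ k)) + m := abel_iter hS hab (hS.sub n (hwK _)) m
    have hΦv0 : Φ v0 = Φ (w (φ k0)) + m := abel_iter hS hab (hS.sub n (hwK _)) m
    have hin : Φ v ∈ ball (Φ v0) 2 := by
      rw [mem_ball, dist_eq_norm, hΦv, hΦv0]
      have e1 : Φ (w (φ k)) + m - (Φ (w (φ k0)) + m) =
          (Φ (w (φ k)) - ζ) - (Φ (w (φ k0)) - ζ) := by ring
      rw [e1]
      have d1 := hk0 k (le_max_left _ _)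
      have d2 := hk0 k0 le_rfl
      rw [dist_eq_norm] at d1 d2
      have := norm_sub_le (Φ (w (φ k)) - ζ) (Φ (w (φ k0)) - ζ)
      linarith
    obtain ⟨u, hu, huv⟩ := k1 hin
    have hvn : v ∈ K n := anti_le hS (Nat.le_add_right n m) hvk
    have huv' : u = v := hinj (k3 hu) (K_sub_Nb hS hvn) huv
    rw [huv', mem_ball, dist_eq_norm] at hu
    have h1 : ‖v‖ ≤ ‖v - v0‖ + ‖v0‖ := by
      have := norm_add_le (v - v0) v0
      rwa [sub_add_cancel] at this
    linarith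

end Pool.Agent.T6.H4.SG
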