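import Pool.Agent.KS6_19.DA.L.T6.H4.SG.TRA
import Pool.Agent.KS6_19.DA.L.Helper202.Univ

/-!
# Module FAT2: the inverse of the linearizing coordinate
-/

open Set Metric Filter Topology

noncomputable section

namespace Pool.Agent.T6.H4.SG

namespace FAT2x

open TRAx

variable {F Φ Ψ : ℂ → ℂ} {K : ℕ → Set ℂ} {N n m : ℕ} {V : Set ℂ}

theorem isOpen_Nb (K : ℕ → Set ℂ) (n : ℕ) : IsOpen (Nb K n) := by
  have : Nb K n = ⋃ w ∈ K n, ball w (w.re / 2) := by
    ext v
    simp only [Nb, mem_ofPred_eq, mem_iUnion, mem_ball, dist_eq_norm, exists_prop]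
  rw [this]
  exact isOpen_biUnion fun _ _ => isOpen_ball

theorem ball_sub_Nb {w : ℂ} (hw : w ∈ K n) : ball w (w.re / 2) ⊆ Nb K n := fun v hv =>
  ⟨w, hw, by rwa [mem_ball, dist_eq_norm] at hv⟩

theorem K_sub_Nb (hS : Sys F K N) : K n ⊆ Nb K n := by
  intro w hw
  have h : 0 < w.re := hS.sub n hw
  exact ⟨w, hw, by rw [sub_self, norm_zero]; positivity⟩

theorem Nb_sub_HH (hS : Sys F K N) : Nb K n ⊆ HH := by
  rintro v ⟨w, hw, hv⟩
  have h : 0 < w.re := hS.sub n hw
  have h1 : |(v - w).re| ≤ ‖v - w‖ := Complex.abs_re_le_norm _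
  rw [Complex.sub_re] at h1
  have h2 := (abs_le.1 h1).1
  show 0 < v.re
  linarith

end FAT2x

open TRAx FAT2x Pool.Agent.Helper202 in
theorem t_FAT2 : S_FAT2 := by
  intro F K N hS Φ n m hΦ hab hinj hm hfat hprop
  have hUo := isOpen_Nb K n
  have hUH : Nb K n ⊆ HH := Nb_sub_HH hS
  have hKU : K n ⊆ Nb K n := K_sub_Nb hS
  have hΦU : DifferentiableOn ℂ Φ (Nb K n) := hΦ.mono hUH
  have hmem : ∀ z ∈ Φ '' Nb K n, Function.invFunOn Φ (Nb K n) z ∈ HH ∧
      Φ (Function.invFunOn Φ (Nb K n) z) = z := fun z hz =>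
    ⟨hUH (Univ.invFunOn_mem hz), Univ.invFunOn_right hz⟩
  have hholi : DifferentiableOn ℂ (Function.invFunOn Φ (Nb K n)) (Φ '' Nb K n) := fun z hz =>
    (Univ.differentiableAt_inv hUo hΦU hinj hz).differentiableWithinAt
  refine ⟨Function.invFunOn Φ (Nb K n), Φ '' Nb K n, ?_⟩
  constructor
  · exact hΦ
  · exact hab
  · exact Univ.isOpen_image hUo hΦU hinj hUo le_rfl
  · exact image_mono hKU
  · exact hholi
  · exact hmem
  · exact fun w hw => Univ.invFunOn_left hinj (hKU hw)
  · exact hprop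
  · constructor
    · refine isClosed_of_closure_subset fun x hx => ?_
      obtain ⟨R', hR'⟩ := hprop (‖x‖ + 1)
      have hcomp : IsCompact (Φ '' (K n ∩ closedBall 0 R')) := by
        refine ((isCompact_closedBall (0 : ℂ) R').inter_left (hS.closed n)).image_of_continuousOn
          (hΦ.continuousOn.mono fun w hw => hS.sub n hw.1)
      have h1 : ball (0 : ℂ) (‖x‖ + 1) ∩ Φ '' K n ⊆ Φ '' (K n ∩ closedBall 0 R') := by
        rintro y ⟨hy, w, hw, rfl⟩
        refine ⟨w, ⟨hw, ?_⟩, rfl⟩
        rw [mem_closedBall_zero_iff]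
        by_contra hcon
        push Not at hcon
        have := hR' w hw hcon.le
        rw [mem_ball_zero_iff] at hy
        linarith
      have h2 : x ∈ closure (ball (0 : ℂ) (‖x‖ + 1) ∩ Φ '' K n) :=
        isOpen_ball.inter_closure ⟨by rw [mem_ball_zero_iff]; linarith, hx⟩
      have h3 := closure_mono h1 h2
      rw [hcomp.isClosed.closure_eq] at h3
      exact image_mono inter_subset_left h3
    · exact ⟨Φ (F^[N + n] 1), mem_image_of_mem Φ (hS.orb n 1 (by simp [HH]))⟩
    · intro huniv
      have hV : Φ '' Nb K n = univ := by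
        rw [eq_univ_iff_forall]
        intro z
        have : z ∈ Φ '' K n := by rw [huniv]; trivial
        exact image_mono hKU this
      set Ψ := Function.invFunOn Φ (Nb K n) with hΨ
      have hΨd : Differentiable ℂ Ψ := by
        rw [hV] at hholi
        exact differentiableOn_univ.1 hholi
      have hΨm : ∀ z, Ψ z ∈ HH ∧ Φ (Ψ z) = z := fun z => hmem z (by rw [hV]; trivial)
      have he : Differentiable ℂ fun z => Complex.exp (-Ψ z) := hΨd.neg.cexp
      have hb : Bornology.IsBounded (range fun z => Complex.exp (-Ψ z)) := by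
        rw [isBounded_iff_forall_norm_le]
        refine ⟨1, ?_⟩
        rintro _ ⟨z, rfl⟩
        have : 0 < (Ψ z).re := (hΨm z).1
        simp only
        rw [Complex.norm_exp, Real.exp_le_one_iff, Complex.neg_re]
        linarith
      have hconst : ∀ z, Complex.exp (-Ψ z) = Complex.exp (-Ψ 0) := fun z =>
        he.apply_eq_apply_of_bounded hb z 0
      have hder : ∀ z, deriv Ψ z = 0 := by
        intro z
        have h1 : HasDerivAt (fun z => Complex.exp (-Ψ z))
            (Complex.exp (-Ψ z) * (-deriv Ψ z)) z := (hΨd z).hasDerivAt.neg.cexp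
        have h2 : HasDerivAt (fun z => Complex.exp (-Ψ z)) 0 z := by
          have h3 : (fun z => Complex.exp (-Ψ z)) = fun _ => Complex.exp (-Ψ 0) := funext hconst
          rw [h3]
          exact hasDerivAt_const z _
        have h3 := h1.unique h2
        have h4 := (mul_eq_zero.1 h3).resolve_left (Complex.exp_ne_zero _)
        exact neg_eq_zero.1 h4
      have h01 : Ψ 0 = Ψ 1 := is_const_of_deriv_eq_zero hΨd hder 0 1
      have h0 := (hΨm 0).2
      have h1 := (hΨm 1).2
      rw [h01, h1] at h0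
      exact one_ne_zero h0
    · exact hm
    · rintro _ ⟨w, hw, rfl⟩
      rw [← hab w (hS.sub n hw)]
      exact mem_image_of_mem Φ (F_memK hS hw)
    · exact hfat

end Pool.Agent.T6.H4.SG
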