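import Pool.Agent.KS6_19.DA.L.T6.H4.SG.Stm

/-! # Harnack type consequences of the Schwarz and Pick inequality (module HAR, helper49) -/

open Set Metric Filter Topology

noncomputable section

namespace Pool.Agent.T6.H4.SG

namespace HARx

lemma nsq_add (p q : ℂ) :
    ‖p + (starRingEnd ℂ) q‖ ^ 2 = ‖p - q‖ ^ 2 + 4 * (p.re * q.re) := by
  rw [← Complex.normSq_eq_norm_sq, ← Complex.normSq_eq_norm_sq, Complex.normSq_apply,
    Complex.normSq_apply]
  simp only [Complex.add_re, Complex.add_im, Complex.sub_re, Complex.sub_im, Complex.conj_re,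
    Complex.conj_im]
  ring

lemma re_add_le (p q : ℂ) : (p.re + q.re) ^ 2 ≤ ‖p + (starRingEnd ℂ) q‖ ^ 2 := by
  rw [← Complex.normSq_eq_norm_sq, Complex.normSq_apply]
  simp only [Complex.add_re, Complex.add_im, Complex.conj_re, Complex.conj_im]
  nlinarith [sq_nonneg (p.im + -q.im)]

/-- the basic comparison -/
lemma basic (hP : S_PICK) {h : ℂ → ℂ} (hh : DifferentiableOn ℂ h HH)
    (hre : ∀ w ∈ HH, 0 ≤ (h w).re) {w u : ℂ} (hw : w ∈ HH) (hu : u ∈ HH) :
    ‖h w‖ * (w.re * u.re) ≤ (‖w + (starRingEnd ℂ) u‖ ^ 2 + w.re * u.re) * ‖h u‖ := by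
  have hw0 : 0 < w.re := hw
  have hu0 : 0 < u.re := hu
  have hxx : 0 < w.re * u.re := mul_pos hw0 hu0
  have ha := hre w hw
  have hb := hre u hu
  have h1 := hP h hh hre w hw u hu
  have e1 := nsq_add (h w) (h u)
  have e2 := nsq_add w u
  have e3 := re_add_le (h w) (h u)
  set a := (h w).re with had
  set b := (h u).re with hbd
  set P := ‖h w + (starRingEnd ℂ) (h u)‖ with hPd
  set D := ‖w + (starRingEnd ℂ) u‖ ^ 2 with hD
  set X := w.re * u.re with hX
  have hD0 : 0 ≤ D := by positivity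
  have h2 : P ^ 2 * X ≤ a * b * D := by
    rw [e1, e2]
    nlinarith
  have h3 : (a + b) ^ 2 * X ≤ a * b * D :=
    (mul_le_mul_of_nonneg_right e3 hxx.le).trans h2
  have h4 : a * X ≤ b * D := by
    rcases ha.eq_or_lt with h0 | h0
    · rw [← h0, zero_mul]
      positivity
    · have h5 : a ^ 2 * X ≤ a * b * D := by
        refine le_trans ?_ h3
        apply mul_le_mul_of_nonneg_right _ hxx.le
        nlinarith
      have h6 : a * (a * X) ≤ a * (b * D) := by nlinarith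
      exact le_of_mul_le_mul_left h6 h0
  have h5 : (P * X) ^ 2 ≤ (b * D) ^ 2 := by
    calc (P * X) ^ 2 = P ^ 2 * X * X := by ring
      _ ≤ a * b * D * X := mul_le_mul_of_nonneg_right h2 hxx.le
      _ = (a * X) * (b * D) := by ring
      _ ≤ (b * D) * (b * D) := mul_le_mul_of_nonneg_right h4 (by positivity)
      _ = (b * D) ^ 2 := by ring
  have h6 : P * X ≤ b * D := by
    have h7 : 0 ≤ b * D := by positivity
    exact le_of_sq_le_sq h5 h7
  have h7 : ‖h w‖ ≤ P + ‖h u‖ := by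
    have h8 : h w = (h w + (starRingEnd ℂ) (h u)) - (starRingEnd ℂ) (h u) := by ring
    calc ‖h w‖ = ‖(h w + (starRingEnd ℂ) (h u)) - (starRingEnd ℂ) (h u)‖ := by rw [← h8]
      _ ≤ P + ‖(starRingEnd ℂ) (h u)‖ := norm_sub_le _ _
      _ = P + ‖h u‖ := by rw [RCLike.norm_conj]
  have h8 : b ≤ ‖h u‖ := (le_abs_self _).trans (Complex.abs_re_le_norm _)
  calc ‖h w‖ * X ≤ (P + ‖h u‖) * X := mul_le_mul_of_nonneg_right h7 hxx.le
    _ = P * X + X * ‖h u‖ := by ring
    _ ≤ b * D + X * ‖h u‖ := by linarith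
    _ ≤ ‖h u‖ * D + X * ‖h u‖ := by
        have := mul_le_mul_of_nonneg_right h8 hD0
        linarith
    _ = (D + X) * ‖h u‖ := by ring

lemma four_le {w u : ℂ} (hw : 0 < w.re) (hu : 0 < u.re) :
    w.re * u.re ≤ ‖w + (starRingEnd ℂ) u‖ ^ 2 := by
  have := re_add_le w u
  nlinarith

lemma re_ge {w u : ℂ} (h : ‖u - w‖ ≤ 3 / 4 * w.re) : w.re / 4 ≤ u.re := by
  have h1 := Complex.abs_re_le_norm (u - w)
  rw [Complex.sub_re] at h1
  have h2 := (abs_le.1 (h1.trans h)).1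
  linarith

lemma dist_le {w u : ℂ} (hw : 0 < w.re) (h : ‖u - w‖ ≤ 3 / 4 * w.re) :
    ‖u + (starRingEnd ℂ) w‖ ≤ 11 / 4 * w.re := by
  have h1 : u + (starRingEnd ℂ) w = (u - w) + ((2 * w.re : ℝ) : ℂ) := by
    have := Complex.add_conj w
    linear_combination this
  rw [h1]
  refine (norm_add_le _ _).trans ?_
  rw [Complex.norm_real, Real.norm_of_nonneg (by linarith)]
  linarith

/-- the comparison of values at near points -/
lemma near (hP : S_PICK) {h : ℂ → ℂ} (hh : DifferentiableOn ℂ h HH)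
    (hre : ∀ w ∈ HH, 0 ≤ (h w).re) {w u : ℂ} (hw : w ∈ HH) (hd : ‖u - w‖ ≤ 3 / 4 * w.re) :
    ‖h u‖ ≤ 125 / 4 * ‖h w‖ ∧ ‖h w‖ ≤ 125 / 4 * ‖h u‖ := by
  have hw0 : 0 < w.re := hw
  have hr := re_ge hd
  have hu0 : 0 < u.re := by linarith
  have hu : u ∈ HH := hu0
  have hD := dist_le hw0 hd
  have hD2 : ‖u + (starRingEnd ℂ) w‖ ^ 2 ≤ 121 / 4 * (u.re * w.re) := by
    have h1 : ‖u + (starRingEnd ℂ) w‖ ^ 2 ≤ (11 / 4 * w.re) ^ 2 :=
      pow_le_pow_left₀ (norm_nonneg _) hD 2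
    nlinarith
  have hsym : ‖w + (starRingEnd ℂ) u‖ = ‖u + (starRingEnd ℂ) w‖ := by
    rw [← RCLike.norm_conj (w + (starRingEnd ℂ) u), map_add, Complex.conj_conj, add_comm]
  have hxx : 0 < u.re * w.re := mul_pos hu0 hw0
  constructor
  · have h1 := basic hP hh hre hu hw
    have h2 : ‖h u‖ * (u.re * w.re) ≤ (125 / 4 * ‖h w‖) * (u.re * w.re) := by
      calc ‖h u‖ * (u.re * w.re) ≤ (‖u + (starRingEnd ℂ) w‖ ^ 2 + u.re * w.re) * ‖h w‖ := h1
        _ ≤ (121 / 4 * (u.re * w.re) + u.re * w.re) * ‖h w‖ := by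
            apply mul_le_mul_of_nonneg_right _ (norm_nonneg _)
            linarith
        _ = (125 / 4 * ‖h w‖) * (u.re * w.re) := by ring
    exact le_of_mul_le_mul_right h2 hxx
  · have h1 := basic hP hh hre hw hu
    rw [hsym] at h1
    have h2 : ‖h w‖ * (u.re * w.re) ≤ (125 / 4 * ‖h u‖) * (u.re * w.re) := by
      calc ‖h w‖ * (u.re * w.re) = ‖h w‖ * (w.re * u.re) := by ring
        _ ≤ (‖u + (starRingEnd ℂ) w‖ ^ 2 + w.re * u.re) * ‖h u‖ := h1
        _ ≤ (121 / 4 * (u.re * w.re) + u.re * w.re) * ‖h u‖ := by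
            apply mul_le_mul_of_nonneg_right _ (norm_nonneg _)
            linarith
        _ = (125 / 4 * ‖h u‖) * (u.re * w.re) := by ring
    exact le_of_mul_le_mul_right h2 hxx

end HARx

open HARx in
/-- Harnack type consequences. -/
theorem t_HAR (hP : S_PICK) : S_HAR := by
  intro h hh hre
  refine ⟨fun w hw u hu => ?_, fun w hw u hd => ?_, fun w hw u v hdu hdv => ?_⟩
  · have h1 := basic hP hh hre hw hu
    have h2 := four_le (show 0 < w.re from hw) (show 0 < u.re from hu)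
    refine h1.trans ?_
    apply mul_le_mul_of_nonneg_right _ (norm_nonneg _)
    linarith
  · obtain ⟨h1, h2⟩ := near hP hh hre hw hd
    have h3 := norm_nonneg (h u)
    have h4 := norm_nonneg (h w)
    constructor <;> linarith
  · have hw0 : 0 < w.re := hw
    have hru := re_ge hdu
    have hrv := re_ge hdv
    have hu : u ∈ HH := by
      change 0 < u.re
      linarith
    have hv : v ∈ HH := by
      change 0 < v.re
      linarith
    obtain ⟨h1, -⟩ := near hP hh hre hw hdu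
    obtain ⟨h2, -⟩ := near hP hh hre hw hdv
    have h3 := hP h hh hre u hu v hv
    have hu1 : (h u).re ≤ 125 / 4 * ‖h w‖ :=
      ((le_abs_self _).trans (Complex.abs_re_le_norm _)).trans h1
    have hv1 : (h v).re ≤ 125 / 4 * ‖h w‖ :=
      ((le_abs_self _).trans (Complex.abs_re_le_norm _)).trans h2
    have h4 : (h u).re * (h v).re ≤ (125 / 4 * ‖h w‖) * (125 / 4 * ‖h w‖) :=
      mul_le_mul hu1 hv1 (hre v hv) (by positivity)
    have h5 : w.re / 4 * (w.re / 4) ≤ u.re * v.re :=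
      mul_le_mul hru hrv (by positivity) (by linarith)
    have h6 : (‖h u - h v‖ * w.re) ^ 2 ≤ (125 * ‖h w‖ * ‖u - v‖) ^ 2 := by
      calc (‖h u - h v‖ * w.re) ^ 2 = 16 * (‖h u - h v‖ ^ 2 * (w.re / 4 * (w.re / 4))) := by ring
        _ ≤ 16 * (‖h u - h v‖ ^ 2 * (u.re * v.re)) := by
            have := mul_le_mul_of_nonneg_left h5 (sq_nonneg ‖h u - h v‖)
            linarith
        _ ≤ 16 * ((h u).re * (h v).re * ‖u - v‖ ^ 2) := by linarith
        _ ≤ 16 * ((125 / 4 * ‖h w‖) * (125 / 4 * ‖h w‖) * ‖u - v‖ ^ 2) := by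
            have := mul_le_mul_of_nonneg_right h4 (sq_nonneg ‖u - v‖)
            linarith
        _ = (125 * ‖h w‖ * ‖u - v‖) ^ 2 := by ring
    have h7 : ‖h u - h v‖ * w.re ≤ 125 * ‖h w‖ * ‖u - v‖ :=
      le_of_sq_le_sq h6 (by positivity)
    have h8 : 0 ≤ ‖h w‖ * ‖u - v‖ := by positivity
    nlinarith

end Pool.Agent.T6.H4.SG
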