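import Pool.Agent.KS6_19.DA.L.T6.H4.SG.Stm
import Pool.Agent.KS6_19.DA.L.H792R2.SS.KB
import Pool.Agent.KS6_19.DA.L.H637R4.PO.QT

/-! # Module KG: Koebe and growth theorems -/

set_option autoImplicit false

open Set Metric Filter Topology

noncomputable section

namespace Pool.Agent.T6.H4.SG

namespace KGx

theorem bound {f : ℂ → ℂ} {t : ℂ} {r : ℝ} (hr : 0 < r) (hd : DifferentiableOn ℂ f (ball t r))
    (hi : InjOn f (ball t r)) {u : ℂ} (hu : ‖u - t‖ ≤ r / 2) :
    r * ‖deriv (deriv f) u‖ ≤ 8 * ‖deriv f u‖ := by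
  have hsub : ball u (r / 2) ⊆ ball t r := by
    intro x hx
    rw [mem_ball, dist_eq_norm] at hx ⊢
    have h1 : x - t = (x - u) + (u - t) := by ring
    rw [h1]
    have := norm_add_le (x - u) (u - t)
    linarith
  have h := (Pool.Agent.H792R2.SS.t_KB f u (r / 2) (by linarith) (hd.mono hsub)
    (hi.mono hsub)).2
  linarith

theorem exp4 : Real.exp 4 ≤ 55 := by
  have h1 : Real.exp 4 = Real.exp 1 ^ 4 := by
    rw [← Real.exp_nat_mul]
    norm_num
  rw [h1]
  have h2 := Real.exp_one_lt_d9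
  have h3 : Real.exp 1 ^ 4 ≤ 2.7182818286 ^ 4 :=
    pow_le_pow_left₀ (Real.exp_pos 1).le h2.le 4
  refine h3.trans ?_
  norm_num

theorem growth {f : ℂ → ℂ} {t : ℂ} {r : ℝ} (hr : 0 < r) (hd : DifferentiableOn ℂ f (ball t r))
    (hi : InjOn f (ball t r)) {z : ℂ} (hz : ‖z - t‖ ≤ r / 2) :
    ‖f z - f t‖ ≤ 60 * ‖z - t‖ * ‖deriv f t‖ := by
  have hmem : ∀ s ∈ Icc (0 : ℝ) 1, ‖(t + (s : ℂ) * (z - t)) - t‖ ≤ r / 2 := by
    intro s hs
    rw [add_sub_cancel_left, norm_mul, Complex.norm_real, Real.norm_of_nonneg hs.1]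
    have := norm_nonneg (z - t)
    nlinarith [hs.2]
  have hball : ∀ u : ℂ, ‖u - t‖ ≤ r / 2 → u ∈ ball t r := by
    intro u hu
    rw [mem_ball, dist_eq_norm]
    linarith
  have hder : ∀ s ∈ Icc (0 : ℝ) 1, HasDerivAt (fun s : ℝ => deriv f (t + (s : ℂ) * (z - t)))
      (deriv (deriv f) (t + (s : ℂ) * (z - t)) * (z - t)) s := by
    intro s hs
    have h1 : HasDerivAt (deriv f) (deriv (deriv f) (t + (s : ℂ) * (z - t)))
        (t + (s : ℂ) * (z - t)) :=
      ((hd.deriv isOpen_ball).differentiableAt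
        (isOpen_ball.mem_nhds (hball _ (hmem s hs)))).hasDerivAt
    have h2 : HasDerivAt (fun w : ℂ => t + w * (z - t)) (z - t) (s : ℂ) := by
      simpa using ((hasDerivAt_id (s : ℂ)).mul_const (z - t)).const_add t
    exact (HasDerivAt.comp (s : ℂ) (h₂ := deriv f) (h := fun w : ℂ => t + w * (z - t))
      h1 h2).comp_ofReal
  have hg := norm_le_gronwallBound_of_norm_deriv_right_le (a := 0) (b := 1)
    (f := fun s : ℝ => deriv f (t + (s : ℂ) * (z - t)))
    (f' := fun s : ℝ => deriv (deriv f) (t + (s : ℂ) * (z - t)) * (z - t))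
    (δ := ‖deriv f t‖) (K := 4) (ε := 0)
    (fun s hs => (hder s hs).continuousAt.continuousWithinAt)
    (fun s hs => (hder s ⟨hs.1, hs.2.le⟩).hasDerivWithinAt)
    (by simp)
    (by
      intro s hs
      have hs' : s ∈ Icc (0 : ℝ) 1 := ⟨hs.1, hs.2.le⟩
      have h1 := bound hr hd hi (hmem s hs')
      rw [norm_mul, add_zero]
      have h2 : r * (‖deriv (deriv f) (t + (s : ℂ) * (z - t))‖ * ‖z - t‖) ≤
          r * (4 * ‖deriv f (t + (s : ℂ) * (z - t))‖) := by
        have h3 := mul_le_mul h1 hz (norm_nonneg _) (by positivity)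
        nlinarith [h3]
      exact le_of_mul_le_mul_left h2 hr)
  have hb : ∀ s ∈ Icc (0 : ℝ) 1, ‖deriv f (t + (s : ℂ) * (z - t))‖ ≤ 60 * ‖deriv f t‖ := by
    intro s hs
    have h1 := hg s hs
    rw [gronwallBound_ε0, sub_zero] at h1
    have h2 : Real.exp (4 * s) ≤ 60 := by
      have : Real.exp (4 * s) ≤ Real.exp 4 := Real.exp_le_exp.2 (by linarith [hs.2])
      linarith [exp4]
    have h3 := mul_le_mul_of_nonneg_left h2 (norm_nonneg (deriv f t))
    linarith
  have hseg : ∀ u ∈ segment ℝ t z, ∃ s ∈ Icc (0 : ℝ) 1, t + (s : ℂ) * (z - t) = u := by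
    intro u hu
    rw [segment_eq_image'] at hu
    obtain ⟨s, hs, rfl⟩ := hu
    exact ⟨s, hs, by simp⟩
  have hfin := Convex.norm_image_sub_le_of_norm_deriv_le (f := f) (C := 60 * ‖deriv f t‖)
    (s := segment ℝ t z) (x := t) (y := z)
    (fun u hu => by
      obtain ⟨s, hs, rfl⟩ := hseg u hu
      exact hd.differentiableAt (isOpen_ball.mem_nhds (hball _ (hmem s hs))))
    (fun u hu => by
      obtain ⟨s, hs, rfl⟩ := hseg u hu
      exact hb s hs)
    (convex_segment t z) (left_mem_segment ℝ t z) (right_mem_segment ℝ t z)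
  linarith

end KGx

theorem t_KG : S_KG := by
  intro f t r hr hd hi
  have hQT := Pool.Agent.H637R4.PO.t_QT Pool.Agent.H792R2.SS.t_KB
  refine ⟨(Pool.Agent.H792R2.SS.t_KB f t r hr hd hi).1, ?_, ?_, ?_⟩
  · intro z hz
    rcases eq_or_ne z t with h | h
    · rw [h]; simp
    · have hp : 0 < ‖z - t‖ := norm_pos_iff.2 (sub_ne_zero.2 h)
      have hsub : ball t ‖z - t‖ ⊆ ball t r := by
        apply ball_subset_ball
        rw [mem_ball, dist_eq_norm] at hz
        exact hz.le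
      refine hQT f t (f z) ‖z - t‖ hp (hd.mono hsub) (hi.mono hsub) ?_
      rintro ⟨u, hu, hfu⟩
      have := hi (hsub hu) hz hfu
      rw [this, mem_ball, dist_eq_norm] at hu
      exact lt_irrefl _ hu
  · intro z hz
    exact KGx.growth hr hd hi hz
  · intro v hv
    by_contra hcon
    have h1 := hQT f t v r hr hd hi hcon
    rw [mem_ball, dist_eq_norm] at hv
    linarith

end Pool.Agent.T6.H4.SG
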