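import Pool.Agent.KS6_19.DA.L.T6.H4.SG.Stm

/-! # The geometric conclusion (helper94, module LP) -/

set_option autoImplicit false

open Set Metric Filter Topology

noncomputable section

namespace Pool.Agent.T6.H4.SG

namespace LPx

theorem shift {E : Set ℂ} {b : ℝ → ℝ} {A : ℝ} (hL : Lft E b A) {ζ : ℂ} (hζ : 0 < ζ.re) {q : ℝ}
    (h : ∀ y, el b ζ (y + q) ≤ el b ζ y - (ζ.re * A + 1)) :
    ∃ s : ℂ, (∀ z ∈ E, z + s ∈ E) ∧ (ζ * s).re < 0 := by
  let σ : ℝ := (-(ζ.re * A + 1) + ζ.im * q) / ζ.re + A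
  have hσ : ζ.re * (σ - A) = -(ζ.re * A + 1) + ζ.im * q := by
    change ζ.re * ((-(ζ.re * A + 1) + ζ.im * q) / ζ.re + A - A) = _
    field_simp
    ring
  refine ⟨⟨σ, q⟩, fun z hz => ?_, ?_⟩
  · apply hL.mem
    have h1 := h z.im
    have h2 := hL.low z hz
    unfold el at h1
    have h3 : ζ.re * b (z.im + q) ≤ ζ.re * (b z.im + (σ - A)) := by
      rw [mul_add, hσ]
      linarith
    have h4 := le_of_mul_le_mul_left h3 hζ
    change b (z.im + q) + A ≤ z.re + σ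
    linarith
  · rw [Complex.mul_re]
    change ζ.re * σ - ζ.im * q < 0
    nlinarith

end LPx

open LPx in
theorem t_LP (hG : S_GEO) (h1 : S_TY1) (h2 : S_TY2) (hC : S_COARSE) : S_LP := by
  intro E m ζ C0 N hE hζ hU1 hU2
  obtain ⟨b, A, hL⟩ := hG E m hE
  obtain ⟨hdip, hflat⟩ := h1 E b A ζ C0 hL hE.one hζ hU1
  have hbump := h2 E b A ζ C0 N hL hE.one hζ hU2
  obtain ⟨Q, hQ, h | h⟩ := hC (el b ζ) hdip hbump hflat (ζ.re * A + 1)
  · exact shift hL hζ h
  · refine shift hL hζ (q := -Q) fun y => ?_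
    have := h (y + -Q)
    rw [add_assoc, neg_add_cancel, add_zero] at this
    linarith

end Pool.Agent.T6.H4.SG
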