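import Pool.Agent.KS6_19.DA.L.T6.H4.SG.Stm

/-! # Schwarz and Pick in the half plane (module PICK, helper49) -/

open Set Metric Filter Topology

noncomputable section

namespace Pool.Agent.T6.H4.SG

namespace PICKx

lemma nsq_add (p q : ℂ) :
    ‖p + (starRingEnd ℂ) q‖ ^ 2 = ‖p - q‖ ^ 2 + 4 * (p.re * q.re) := by
  rw [← Complex.normSq_eq_norm_sq, ← Complex.normSq_eq_norm_sq, Complex.normSq_apply,
    Complex.normSq_apply]
  simp only [Complex.add_re, Complex.add_im, Complex.sub_re, Complex.sub_im, Complex.conj_re,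
    Complex.conj_im]
  ring

lemma norm_lt_of {p q : ℂ} (hp : 0 < p.re) (hq : 0 < q.re) :
    ‖p - q‖ < ‖p + (starRingEnd ℂ) q‖ := by
  have h1 := nsq_add p q
  have h2 : 0 < p.re * q.re := mul_pos hp hq
  have h3 : ‖p - q‖ ^ 2 < ‖p + (starRingEnd ℂ) q‖ ^ 2 := by linarith
  exact lt_of_pow_lt_pow_left₀ 2 (norm_nonneg _) h3

lemma pos_of {p q : ℂ} (hp : 0 < p.re) (hq : 0 < q.re) : 0 < ‖p + (starRingEnd ℂ) q‖ :=
  (norm_nonneg _).trans_lt (norm_lt_of hp hq)

/-- the parametrization of the half plane by the disc -/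
def par (u z : ℂ) : ℂ := (u.re : ℂ) * ((1 + z) / (1 - z)) + (u.im : ℂ) * Complex.I

lemma par_zero (u : ℂ) : par u 0 = u := by
  unfold par
  rw [add_zero, sub_zero, div_one, mul_one]
  exact Complex.re_add_im u

lemma ne_of_ball {z : ℂ} (hz : ‖z‖ < 1) : (1 : ℂ) - z ≠ 0 := by
  intro h
  have : z = 1 := (sub_eq_zero.1 h).symm
  rw [this, norm_one] at hz
  exact lt_irrefl _ hz

lemma par_re {u z : ℂ} (hu : 0 < u.re) (hz : ‖z‖ < 1) : 0 < (par u z).re := by
  have h1 := ne_of_ball hz
  have h2 : 0 < Complex.normSq (1 - z) := Complex.normSq_pos.2 h1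
  have h3 : ((1 + z) / (1 - z)).re = (1 - ‖z‖ ^ 2) / Complex.normSq (1 - z) := by
    rw [Complex.div_re, ← add_div, ← Complex.normSq_eq_norm_sq, Complex.normSq_apply z]
    congr 1
    simp only [Complex.add_re, Complex.add_im, Complex.sub_re, Complex.sub_im, Complex.one_re,
      Complex.one_im]
    ring
  have h4 : (par u z).re = u.re * ((1 + z) / (1 - z)).re := by
    unfold par
    rw [Complex.add_re, Complex.re_ofReal_mul]
    simp
  rw [h4, h3]
  have h5 : ‖z‖ ^ 2 < 1 := by
    have := norm_nonneg z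
    nlinarith
  apply mul_pos hu
  apply div_pos _ h2
  linarith

/-- the inequality for strictly positive real parts -/
lemma strict (g : ℂ → ℂ) (hg : DifferentiableOn ℂ g HH) (hp : ∀ w ∈ HH, 0 < (g w).re)
    {w u : ℂ} (hw : w ∈ HH) (hu : u ∈ HH) :
    ‖g w - g u‖ ^ 2 * (w.re * u.re) ≤ (g w).re * (g u).re * ‖w - u‖ ^ 2 := by
  have hw0 : 0 < w.re := hw
  have hu0 : 0 < u.re := hu
  set G : ℂ → ℂ := fun z => (g (par u z) - g u) / (g (par u z) + (starRingEnd ℂ) (g u)) with hG
  have hpar : MapsTo (par u) (ball 0 1) HH := fun z hz =>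
    par_re hu0 (by simpa using hz)
  have hdpar : DifferentiableOn ℂ (par u) (ball 0 1) := by
    unfold par
    refine DifferentiableOn.add_const _ (DifferentiableOn.const_mul ?_ _)
    refine DifferentiableOn.div ?_ ?_ ?_
    · exact (differentiable_const _).add differentiable_id |>.differentiableOn
    · exact (differentiable_const _).sub differentiable_id |>.differentiableOn
    · intro z hz
      exact ne_of_ball (by simpa using hz)
  have hgp : DifferentiableOn ℂ (fun z => g (par u z)) (ball 0 1) := hg.comp hdpar hpar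
  have hGd : DifferentiableOn ℂ G (ball 0 1) := by
    refine DifferentiableOn.div (hgp.sub_const _) (hgp.add_const _) ?_
    intro z hz h0
    have h1 := pos_of (hp _ (hpar hz)) (hp _ hu)
    rw [h0, norm_zero] at h1
    exact lt_irrefl _ h1
  have hGm : MapsTo G (ball 0 1) (ball 0 1) := by
    intro z hz
    rw [mem_ball_zero_iff]
    have h1 := norm_lt_of (hp _ (hpar hz)) (hp _ hu)
    have h2 := pos_of (hp _ (hpar hz)) (hp _ hu)
    simp only [hG]
    rw [norm_div, div_lt_one h2]
    exact h1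
  have hG0 : G 0 = 0 := by
    simp only [hG]
    rw [par_zero, sub_self, zero_div]
  -- the point `w`
  have hwu := norm_lt_of hw0 hu0
  have hwu0 := pos_of hw0 hu0
  have hne : w + (starRingEnd ℂ) u ≠ 0 := norm_pos_iff.1 hwu0
  set z : ℂ := (w - u) / (w + (starRingEnd ℂ) u) with hz
  have hz1 : ‖z‖ < 1 := by
    rw [hz, norm_div, div_lt_one hwu0]
    exact hwu
  have hzw : par u z = w := by
    have e1 : (u.re : ℂ) ≠ 0 := by exact_mod_cast hu0.ne'
    have e2 : (1 : ℂ) - z = 2 * (u.re : ℂ) / (w + (starRingEnd ℂ) u) := by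
      rw [hz, eq_div_iff hne, sub_mul, div_mul_cancel₀ _ hne]
      have := Complex.add_conj u
      push_cast at this
      linear_combination this
    have e3 : (1 : ℂ) + z = 2 * (w - (u.im : ℂ) * Complex.I) / (w + (starRingEnd ℂ) u) := by
      rw [hz, eq_div_iff hne, add_mul, div_mul_cancel₀ _ hne]
      have := Complex.sub_conj u
      push_cast at this
      linear_combination -this
    unfold par
    rw [e2, e3, div_div_div_cancel_right₀ hne]
    field_simp
    ring
  have hS := Complex.norm_le_norm_of_mapsTo_ball hGd (hGm.mono_right ball_subset_closedBall) hG0 hz1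
  have h1 : ‖g w - g u‖ * ‖w + (starRingEnd ℂ) u‖ ≤
      ‖w - u‖ * ‖g w + (starRingEnd ℂ) (g u)‖ := by
    have h2 := pos_of (hp _ hw) (hp _ hu)
    simp only [hG] at hS
    rw [hzw, hz, norm_div, norm_div, div_le_div_iff₀ h2 hwu0] at hS
    exact hS
  have h3 : ‖g w - g u‖ ^ 2 * ‖w + (starRingEnd ℂ) u‖ ^ 2 ≤
      ‖w - u‖ ^ 2 * ‖g w + (starRingEnd ℂ) (g u)‖ ^ 2 := by
    rw [← mul_pow, ← mul_pow]
    exact pow_le_pow_left₀ (by positivity) h1 2
  rw [nsq_add, nsq_add] at h3
  linarith

end PICKx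

open PICKx in
/-- Schwarz and Pick. -/
theorem t_PICK : S_PICK := by
  intro h hh hre w hw u hu
  have key : ∀ ε : ℝ, 0 < ε → ‖h w - h u‖ ^ 2 * (w.re * u.re) ≤
      ((h w).re + ε) * ((h u).re + ε) * ‖w - u‖ ^ 2 := by
    intro ε hε
    have h1 := strict (fun z => h z + (ε : ℂ)) (hh.add_const _) (fun z hz => by
      have := hre z hz
      rw [Complex.add_re, Complex.ofReal_re]
      linarith) hw hu
    simp only [Complex.add_re, Complex.ofReal_re, add_sub_add_right_eq_sub] at h1
    exact h1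
  have hc : Tendsto (fun ε : ℝ => ((h w).re + ε) * ((h u).re + ε) * ‖w - u‖ ^ 2) (𝓝[>] 0)
      (𝓝 (((h w).re + 0) * ((h u).re + 0) * ‖w - u‖ ^ 2)) := by
    refine Tendsto.mono_left ?_ nhdsWithin_le_nhds
    have : Continuous (fun ε : ℝ => ((h w).re + ε) * ((h u).re + ε) * ‖w - u‖ ^ 2) := by
      fun_prop
    exact this.tendsto 0
  rw [add_zero, add_zero] at hc
  refine ge_of_tendsto hc ?_
  filter_upwards [self_mem_nhdsWithin] with ε hε
  exact key ε hε

end Pool.Agent.T6.H4.SG
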