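import Pool.Agent.KS6_19.DA.L.T6.H4.SG.Stm

/-! # Rigidity of the displacement (module RIG, helper49) -/

open Set Metric Filter Topology

noncomputable section

namespace Pool.Agent.T6.H4.SG

/-- Rigidity of the displacement. -/
theorem t_RIG (hP : S_PICK) : S_RIG := by
  intro F hF hmono w hw j κ hj hκ hjκ hd
  have hw0 : 0 < w.re := hw
  set h : ℂ → ℂ := fun z => F z - z with hh
  have hhd : DifferentiableOn ℂ h HH := hF.sub differentiableOn_id
  have hhre : ∀ z ∈ HH, 0 ≤ (h z).re := by
    intro z hz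
    have := hmono z hz
    simp only [hh, Complex.sub_re]
    linarith
  -- the orbit
  have horb : ∀ i : ℕ, w.re ≤ (F^[i] w).re := by
    intro i
    induction i with
    | zero => exact le_rfl
    | succ i ih =>
      rw [Function.iterate_succ_apply']
      exact ih.trans (hmono _ (lt_of_lt_of_le hw0 ih))
  have hin : ∀ i : ℕ, F^[i] w ∈ HH := fun i => lt_of_lt_of_le hw0 (horb i)
  have hsum : ∀ i : ℕ, F^[i] w - w = ∑ t ∈ Finset.range i, h (F^[t] w) := by
    intro i
    induction i with
    | zero => simp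
    | succ i ih =>
      rw [Finset.sum_range_succ, ← ih, Function.iterate_succ_apply']
      simp only [hh]
      ring
  have hre : ∀ i : ℕ, i < j → (h (F^[i] w)).re ≤ κ * w.re := by
    intro i hi
    have h1 : (F^[j] w - w).re ≤ κ * w.re :=
      ((le_abs_self _).trans (Complex.abs_re_le_norm _)).trans hd
    rw [hsum j, Complex.re_sum] at h1
    refine le_trans ?_ h1
    exact Finset.single_le_sum (f := fun t => (h (F^[t] w)).re)
      (fun t _ => hhre _ (hin t)) (Finset.mem_range.2 hi)
  have hw1 : (h w).re ≤ κ * w.re := hre 0 (by omega)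
  have hκx : 0 ≤ κ * w.re := by positivity
  set H := ‖h w‖ with hH
  have hH0 : 0 ≤ H := norm_nonneg _
  -- comparison along the orbit
  have hcmp : ∀ i : ℕ, i < j → ‖h (F^[i] w) - h w‖ ≤ κ * ‖F^[i] w - w‖ := by
    intro i hi
    have h1 := hP h hhd hhre (F^[i] w) (hin i) w hw
    have h2 : (h (F^[i] w)).re * (h w).re ≤ (κ * w.re) * (κ * w.re) :=
      mul_le_mul (hre i hi) hw1 (hhre w hw) hκx
    have h3 : (‖h (F^[i] w) - h w‖ * w.re) ^ 2 ≤ (κ * ‖F^[i] w - w‖ * w.re) ^ 2 := by
      calc (‖h (F^[i] w) - h w‖ * w.re) ^ 2 = ‖h (F^[i] w) - h w‖ ^ 2 * (w.re * w.re) := by ring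
        _ ≤ ‖h (F^[i] w) - h w‖ ^ 2 * ((F^[i] w).re * w.re) := by
            apply mul_le_mul_of_nonneg_left _ (sq_nonneg _)
            exact mul_le_mul_of_nonneg_right (horb i) hw0.le
        _ ≤ (h (F^[i] w)).re * (h w).re * ‖F^[i] w - w‖ ^ 2 := h1
        _ ≤ (κ * w.re) * (κ * w.re) * ‖F^[i] w - w‖ ^ 2 :=
            mul_le_mul_of_nonneg_right h2 (sq_nonneg _)
        _ = (κ * ‖F^[i] w - w‖ * w.re) ^ 2 := by ring
    have h4 : ‖h (F^[i] w) - h w‖ * w.re ≤ κ * ‖F^[i] w - w‖ * w.re :=
      le_of_sq_le_sq h3 (by positivity)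
    exact le_of_mul_le_mul_right h4 hw0
  have hD : ∀ i : ℕ, i ≤ j → ‖F^[i] w - w‖ ≤ 2 * i * H := by
    intro i
    induction i with
    | zero => intro _; simp
    | succ i ih =>
      intro hi
      have h1 := ih (by omega)
      have h2 := hcmp i (by omega)
      have h3 : F^[i + 1] w - w = (F^[i] w - w) + (h (F^[i] w) - h w) + h w := by
        rw [Function.iterate_succ_apply']
        simp only [hh]
        ring
      have h4 : (i : ℝ) * κ ≤ 1 / 2 := by
        refine le_trans ?_ hjκ
        apply mul_le_mul_of_nonneg_right _ hκ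
        exact_mod_cast (by omega : i ≤ j)
      rw [h3]
      calc ‖(F^[i] w - w) + (h (F^[i] w) - h w) + h w‖
          ≤ ‖F^[i] w - w‖ + ‖h (F^[i] w) - h w‖ + ‖h w‖ := norm_add₃_le
        _ ≤ 2 * i * H + κ * (2 * i * H) + H := by
            have := mul_le_mul_of_nonneg_left h1 hκ
            linarith
        _ ≤ 2 * ((i + 1 : ℕ) : ℝ) * H := by
            push_cast
            nlinarith
  -- the conclusion
  have hfin : (j : ℝ) * H ≤ κ * w.re + ((j : ℝ) - 1) / 2 * H := by
    have h1 : (j : ℂ) * h w = (F^[j] w - w) - ∑ t ∈ Finset.range j, (h (F^[t] w) - h w) := by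
      have e : ∑ t ∈ Finset.range j, (h (F^[t] w) - h w) =
          ∑ t ∈ Finset.range j, h (F^[t] w) - ∑ t ∈ Finset.range j, h w :=
        Finset.sum_sub_distrib _ _
      rw [hsum j, e, Finset.sum_const, Finset.card_range, nsmul_eq_mul]
      ring
    have h2 : (j : ℝ) * H = ‖(j : ℂ) * h w‖ := by
      rw [norm_mul, Complex.norm_natCast]
    rw [h2, h1]
    refine (norm_sub_le _ _).trans ?_
    have h3 : ‖∑ t ∈ Finset.range j, (h (F^[t] w) - h w)‖ ≤ ((j : ℝ) - 1) / 2 * H := by
      refine (norm_sum_le _ _).trans ?_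
      have h4 : ∀ t ∈ Finset.range j, ‖h (F^[t] w) - h w‖ ≤ 2 * κ * H * t := by
        intro t ht
        have ht' := Finset.mem_range.1 ht
        refine (hcmp t ht').trans ?_
        have := mul_le_mul_of_nonneg_left (hD t ht'.le) hκ
        linarith
      refine (Finset.sum_le_sum h4).trans ?_
      rw [← Finset.mul_sum]
      have h5 : (∑ t ∈ Finset.range j, (t : ℝ)) = (j : ℝ) * ((j : ℝ) - 1) / 2 := by
        clear * -
        induction j with
        | zero => simp
        | succ n ih =>
          rw [Finset.sum_range_succ, ih]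
          push_cast
          ring
      rw [h5]
      have hj1 : (0 : ℝ) ≤ (j : ℝ) - 1 := by
        have : (1 : ℝ) ≤ j := by exact_mod_cast hj
        linarith
      have h6 : 0 ≤ ((j : ℝ) - 1) * H := by positivity
      nlinarith
    linarith
  have hj1 : (1 : ℝ) ≤ j := by exact_mod_cast hj
  have h1 : H ≤ κ * w.re := by nlinarith
  change H ≤ 2 * κ * w.re
  linarith

end Pool.Agent.T6.H4.SG
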