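import Pool.Agent.KS6_19.DA.L.T6.H4.SG.RU1

/-! # Module RU2: solvability from the resolvent (MP_ff3f8e_an) -/

open Set Metric Filter Topology Pool.Agent.Helper203.DS

noncomputable section

namespace Pool.Agent.T6.H4.SG

open OPSx RU1x

theorem t_RU2 : S_RU2 := by
  intro T P a N hS _hSys l hl
  rw [spectrum.notMem_iff] at hl
  obtain ⟨u, hu⟩ := hl
  set B : Op := (u⁻¹ : Opˣ).1 with hB
  have hinv : (algebraMap ℂ Op l - T) * B = 1 := by
    rw [← hu, hB]
    exact u.mul_inv
  refine ⟨‖B‖, ?_⟩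
  intro n q M hq hM
  obtain ⟨g, hg⟩ := exists_g hS hq
  have hM0 : 0 ≤ M := by
    have h0 : ‖(((⟨0, by simp⟩ : Pt) : Pt) : ℂ)‖ < 1 := by simp
    exact (norm_nonneg _).trans
      (hM _ ⟨⟨0, by simp⟩, ne_of hS.norm (inn_iter hS _ h0 (N + n)), rfl⟩)
  have hgn : ‖g‖ ≤ M := by
    refine norm_le_of hM0 fun z => ?_
    rw [hg]
    by_cases h : ((P^[N + n] z : Pt) : ℂ) = a
    · rw [gc_a h]
      simpa using hM0
    · rw [gc_ne h]
      exact hM _ ⟨z, h, rfl⟩
  set k : DA := -(B g) with hk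
  have hkn : ‖k‖ ≤ ‖B‖ * M := by
    rw [hk, norm_neg]
    exact (B.le_opNorm g).trans (mul_le_mul_of_nonneg_left hgn (norm_nonneg _))
  have hTk : T k - l • k = g := by
    have e1 : (algebraMap ℂ Op l - T) (B g) = g := by
      have := congrArg (fun A : Op => A g) hinv
      simpa using this
    have e2 : (algebraMap ℂ Op l - T) (B g) = l • (B g) - T (B g) := rfl
    rw [e2] at e1
    rw [hk, map_neg, smul_neg, sub_neg_eq_add, neg_add_eq_sub, e1]
  have hmem : ∀ w ∈ HH, ic a w ∈ closedBall (0 : ℂ) 1 := fun w hw => by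
    rw [mem_closedBall, dist_zero_right]
    exact (ic_norm a w hS.norm hw).le
  refine ⟨fun w => ext k.1 (ic a w), ?_, ?_, ?_⟩
  · have h1 : DifferentiableOn ℂ (ic a) HH := by
      intro w hw
      have hd : DifferentiableAt ℂ (fun w : ℂ => w) w := differentiableAt_id
      have h2 : DifferentiableAt ℂ (fun w : ℂ => a * (w - 1) / (w + 1)) w :=
        ((hd.sub_const 1).const_mul a).div (hd.add_const 1) (HH_ne hw)
      exact h2.differentiableWithinAt
    refine (differentiableOn_da k).comp h1 ?_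
    intro w hw
    rw [mem_ball_zero_iff]
    exact ic_norm a w hS.norm hw
  · intro w hw
    show ‖ext k.1 (ic a w)‖ ≤ _
    rw [ext_of_mem _ (hmem w hw)]
    exact (norm_apply_le k _).trans hkn
  · intro w hw
    set z : Pt := ⟨ic a w, hmem w hw⟩ with hz
    have hzlt : ‖(z : ℂ)‖ < 1 := ic_norm a w hS.norm hw
    have hcz : Cay a (z : ℂ) = w := cay_ic a w hS.norm (HH_ne hw)
    have e1 : FF a P w = Cay a ((P z : Pt) : ℂ) := by
      rw [← FF_cay hS z hzlt, hcz]
    have e2 : ic a (FF a P w) = ((P z : Pt) : ℂ) := by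
      rw [e1, ic_cay a _ hS.norm (ne_of hS.norm (hS.inn z hzlt))]
    have e3 : (FF a P)^[N + n] w = Cay a ((P^[N + n] z : Pt) : ℂ) := by
      rw [← FF_iter hS z hzlt, hcz]
    show ext k.1 (ic a (FF a P w)) - l * ext k.1 (ic a w) = _
    rw [e2, ext_apply, e3, ← gc_ne (q := q) (ne_of hS.norm (inn_iter hS z hzlt (N + n))), ← hg, ← hTk,
      sub_apply, smul_apply, hS.comp.eq, ext_of_mem _ (hmem w hw)]

end Pool.Agent.T6.H4.SG
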