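import Pool.Agent.KS6_19.DA.L.T6.H4.SG.Stm

/-! # Module SEP (MP_ff3f8e_an) -/

open Set Metric Filter Topology

noncomputable section

namespace Pool.Agent.T6.H4.SG

namespace SEPx

variable {F : ℂ → ℂ} {K : ℕ → Set ℂ} {N : ℕ}

theorem isOpen_HH : IsOpen HH := isOpen_lt continuous_const Complex.continuous_re

theorem mapsHH (hS : Sys F K N) {w : ℂ} (hw : w ∈ HH) : F w ∈ HH :=
  lt_of_lt_of_le hw (hS.mono w hw)

theorem iterHH (hS : Sys F K N) (j : ℕ) {w : ℂ} (hw : w ∈ HH) : F^[j] w ∈ HH := by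
  induction j with
  | zero => exact hw
  | succ j ih =>
    rw [Function.iterate_succ_apply']
    exact mapsHH hS ih

theorem anti' (hS : Sys F K N) {m n : ℕ} (h : m ≤ n) : K n ⊆ K m :=
  antitone_nat_of_succ_le (fun n => hS.anti n) h

theorem iter_mem (hS : Sys F K N) (n j : ℕ) {v : ℂ} (hv : v ∈ K n) : F^[j] v ∈ K (n + j) := by
  induction j with
  | zero => exact hv
  | succ j ih =>
    rw [Function.iterate_succ_apply', ← add_assoc, ← hS.img]
    exact mem_image_of_mem F ih

theorem iter_surj (hS : Sys F K N) (n j : ℕ) {w : ℂ} (hw : w ∈ K (n + j)) :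
    ∃ u ∈ K n, F^[j] u = w := by
  induction j generalizing w with
  | zero => exact ⟨w, hw, rfl⟩
  | succ j ih =>
    rw [← add_assoc, ← hS.img] at hw
    obtain ⟨v, hv, rfl⟩ := hw
    obtain ⟨u, hu, rfl⟩ := ih hv
    exact ⟨u, hu, Function.iterate_succ_apply' _ _ _⟩

theorem iter_diff (hS : Sys F K N) (j : ℕ) : DifferentiableOn ℂ (F^[j]) HH := by
  induction j with
  | zero => exact differentiableOn_id
  | succ j ih =>
    rw [Function.iterate_succ']
    exact hS.hol.comp ih (fun w hw => iterHH hS j hw)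

theorem nonempty (hS : Sys F K N) (n : ℕ) : (K n).Nonempty :=
  ⟨F^[N + n] 1, hS.orb n 1 (by show (0:ℝ) < (1:ℂ).re; simp)⟩

/-- the filter of points going to infinity -/
def Inf : Filter ℂ := comap norm atTop

theorem tendsto_iter (hS : Sys F K N) (j : ℕ) : Tendsto (F^[j]) (Inf ⊓ 𝓟 HH) (Inf ⊓ 𝓟 HH) := by
  have h1 : Tendsto F (Inf ⊓ 𝓟 HH) (Inf ⊓ 𝓟 HH) := by
    rw [tendsto_inf]
    constructor
    · unfold Inf
      rw [tendsto_comap_iff, Filter.tendsto_atTop]
      intro R
      obtain ⟨R', hR'⟩ := hS.inf R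
      rw [eventually_inf_principal, eventually_comap]
      filter_upwards [eventually_ge_atTop R'] with r hr v hv hvH
      exact hR' v hvH (by rw [hv]; exact hr)
    · rw [tendsto_principal, eventually_inf_principal]
      filter_upwards with v hv
      exact mapsHH hS hv
  induction j with
  | zero => exact tendsto_id
  | succ j ih =>
    rw [Function.iterate_succ']
    exact h1.comp ih

theorem adm_intro {S : Set ℂ} {q : ℂ → ℂ} {U : Set ℂ} (hU : IsOpen U) (hSU : S ⊆ U)
    (hq : DifferentiableOn ℂ q U) (ht : Tendsto q (Inf ⊓ 𝓟 S) (𝓝 0)) : Adm S q := by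
  refine ⟨⟨U, hU, hSU, hq⟩, fun ε hε => ?_⟩
  have h1 := (Metric.tendsto_nhds.mp ht) ε hε
  unfold Inf at h1
  rw [eventually_inf_principal, eventually_comap, eventually_atTop] at h1
  obtain ⟨R, hR⟩ := h1
  refine ⟨R, fun w hw hwR => ?_⟩
  have h2 := hR ‖w‖ hwR w rfl hw
  rw [dist_zero_right] at h2
  exact h2.le

theorem pos_dist (hS : Sys F K N) {z0 : ℂ} (hz : z0.re < 0) (t : ℕ) :
    0 < infDist z0 (K t) := by
  rw [← (hS.closed t).notMem_iff_infDist_pos (nonempty hS t)]
  intro h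
  have h1 : 0 < z0.re := hS.sub t h
  linarith

/-- the tent -/
def tent (Ns : ℕ) (t : ℝ) : ℝ := 1 - |t - Ns| / (Ns + 1)

theorem tent_lip (Ns : ℕ) (t : ℝ) : |tent Ns (t - 1) - tent Ns t| ≤ 1 / (Ns + 1) := by
  unfold tent
  have hp : (0:ℝ) < Ns + 1 := by positivity
  have e : 1 - |t - 1 - Ns| / (Ns + 1) - (1 - |t - Ns| / (Ns + 1)) =
      (|t - Ns| - |t - 1 - Ns|) / (Ns + 1) := by ring
  rw [e, abs_div, abs_of_pos hp]
  refine div_le_div_of_nonneg_right ?_ hp.le
  refine (abs_abs_sub_abs_le_abs_sub _ _).trans ?_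
  have e2 : t - Ns - (t - 1 - Ns) = 1 := by ring
  rw [e2, abs_one]

theorem tent_neg (Ns : ℕ) : tent Ns (-1) = 0 := by
  unfold tent
  have hp : (0:ℝ) < Ns + 1 := by positivity
  have e : (-1 : ℝ) - Ns = -(Ns + 1) := by ring
  rw [e, abs_neg, abs_of_pos hp, div_self hp.ne', sub_self]

theorem tent_top (Ns : ℕ) : tent Ns (2 * Ns + 1) = 0 := by
  unfold tent
  have hp : (0:ℝ) < Ns + 1 := by positivity
  have e : (2 * Ns + 1 : ℝ) - Ns = Ns + 1 := by ring
  rw [e, abs_of_pos hp, div_self hp.ne', sub_self]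

theorem tent_mid (Ns : ℕ) : tent Ns Ns = 1 := by
  unfold tent
  simp

theorem tent_abs (Ns : ℕ) (j : ℕ) (hj : j ≤ 2 * Ns + 1) : |tent Ns j| ≤ 1 := by
  unfold tent
  have hp : (0:ℝ) < Ns + 1 := by positivity
  have h0 : 0 ≤ |(j:ℝ) - Ns| / (Ns + 1) := by positivity
  have h1 : |(j:ℝ) - Ns| / (Ns + 1) ≤ 1 := by
    rw [div_le_one hp, abs_le]
    have h2 : (j : ℝ) ≤ 2 * Ns + 1 := by exact_mod_cast hj
    have h3 : (0:ℝ) ≤ j := Nat.cast_nonneg j
    constructor <;> linarith
  rw [abs_le]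
  constructor <;> linarith

/-- telescoping of the test function -/
theorem tele (Ns : ℕ) (l : ℂ) (hl : l ≠ 0) (s : ℕ → ℂ) :
    (∑ j ∈ Finset.range (2 * Ns + 2), (tent Ns j : ℂ) * l ^ ((Ns : ℤ) - j) * s (j + 1)) -
      l * (∑ j ∈ Finset.range (2 * Ns + 2), (tent Ns j : ℂ) * l ^ ((Ns : ℤ) - j) * s j) =
    ∑ j ∈ Finset.range (2 * Ns + 2),
      ((tent Ns ((j : ℝ) - 1) - tent Ns j : ℝ) : ℂ) * l ^ ((Ns : ℤ) - j + 1) * s j := by
  have h1 : (∑ j ∈ Finset.range (2 * Ns + 2), (tent Ns j : ℂ) * l ^ ((Ns : ℤ) - j) * s (j + 1)) =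
      ∑ j ∈ Finset.range (2 * Ns + 2),
        (tent Ns ((j : ℝ) - 1) : ℂ) * l ^ ((Ns : ℤ) - j + 1) * s j := by
    rw [Finset.sum_range_succ, Finset.sum_range_succ' (n := 2 * Ns + 1)]
    have e1 : tent Ns ((2 * Ns + 1 : ℕ) : ℝ) = 0 := by
      push_cast
      exact tent_top Ns
    have e2 : tent Ns (((0 : ℕ) : ℝ) - 1) = 0 := by
      rw [Nat.cast_zero, zero_sub]
      exact tent_neg Ns
    rw [e1, e2]
    simp only [Complex.ofReal_zero, zero_mul, add_zero]
    refine Finset.sum_congr rfl fun j _ => ?_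
    have e3 : (((j + 1 : ℕ) : ℝ) - 1) = j := by push_cast; ring
    have e4 : ((Ns : ℤ) - ((j + 1 : ℕ) : ℤ) + 1) = (Ns : ℤ) - j := by push_cast; ring
    rw [e3, e4]
  rw [h1, Finset.mul_sum, ← Finset.sum_sub_distrib]
  refine Finset.sum_congr rfl fun j _ => ?_
  rw [zpow_add₀ hl, zpow_one]
  push_cast
  ring

end SEPx

open SEPx

theorem t_SEP (hR : S_RIG) (hH : S_HAR) : S_SEP := by
  intro F K N hS l C0' hl0 hl1 hU'
  have hlne : l ≠ 0 := norm_pos_iff.mp hl0
  -- constants
  obtain ⟨C0, hC0, hU⟩ : ∃ C0 : ℝ, 1 ≤ C0 ∧ U1 F K l C0 := by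
    refine ⟨max C0' 1, le_max_right _ _, ?_⟩
    intro n q M hq hM w hw
    have hM0 : 0 ≤ M := (norm_nonneg _).trans (hM w hw)
    exact (hU' n q M hq hM w hw).trans (mul_le_mul_of_nonneg_right (le_max_left _ _) hM0)
  obtain ⟨Ns, hNs⟩ := exists_nat_gt (6 * Real.exp 1 * C0)
  have he : Real.exp 1 < 2.7182818286 := Real.exp_one_lt_d9
  have he1 : 2.7182818283 < Real.exp 1 := Real.exp_one_gt_d9
  have hNs1 : (1:ℝ) ≤ Ns := by nlinarith
  have hNs1' : 1 ≤ Ns := by exact_mod_cast hNs1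
  set L : ℝ := -Real.log ‖l‖ with hLdef
  have hL : 0 < L := by
    rw [hLdef, neg_pos]
    exact Real.log_neg hl0 hl1
  have hlL : ‖l‖ = Real.exp (-L) := by
    rw [hLdef, neg_neg, Real.exp_log hl0]
  set D : ℝ := 12 * Ns + 12 with hD
  set M0 : ℝ := 500 * D * (2 * Ns + 2) * (Ns + 1 / L) with hM0
  have hDpos : 0 < D := by positivity
  have hM0pos : 0 < M0 := by positivity
  refine ⟨Ns, M0, hM0pos, ?_⟩
  intro c z0 N1 k w hc hc1 hz0 hN1 hk hgr hw hwd hdisp
  by_contra hcon
  rw [not_lt] at hcon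
  set R : ℝ := infDist z0 (K N1) with hRdef
  have hRpos : 0 < R := pos_dist hS hz0 N1
  set g : ℝ := R * L / k with hg
  have hgpos : 0 < g := by positivity
  set x : ℝ := w.re with hx
  have hxpos : 0 < x := hS.sub N1 hw
  have hRx : x < R := by
    rw [← hwd]
    have h1 := Complex.re_le_norm (w - z0)
    rw [Complex.sub_re] at h1
    linarith
  set τ : ℝ := 2 * (Ns + 1 / L) * g with hτdef
  have hτpos : 0 < τ := by positivity
  have hτ : 250 * D * (2 * Ns + 2) * τ ≤ c * x := by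
    have h1 : M0 * g ≤ c * x := by
      have h2 := mul_le_mul_of_nonneg_left hcon hM0pos.le
      have h3 : M0 * (c / M0 * x) = c * x := by
        field_simp
      rw [h3] at h2
      exact h2
    calc 250 * D * (2 * Ns + 2) * τ = M0 * g := by rw [hτdef, hM0]; ring
      _ ≤ c * x := h1
  have hcx : c * x ≤ x := by nlinarith
  have hDτ : 1000 * (D * τ) ≤ x := by
    have h1 : 1000 * (D * τ) ≤ 250 * D * (2 * Ns + 2) * τ := by
      have : 0 ≤ D * τ := by positivity
      nlinarith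
    linarith
  have hD24 : 24 ≤ D := by rw [hD]; linarith
  have hτx : τ ≤ x / 1000 := by nlinarith
  have hτR : τ < R := by linarith
  obtain ⟨n0, hn0⟩ : ∃ n0, N1 = n0 + Ns := ⟨N1 - Ns, by omega⟩
  -- distance estimates
  have hfar : ∀ j : ℕ, j ≤ 2 * Ns → ∀ v ∈ K (n0 + j),
      R * Real.exp ((((j:ℝ) - Ns) * L - 1) / k) ≤ ‖v - z0‖ := by
    intro j hj v hv
    have h1 := hgr (n0 + j) (by omega) (by omega)
    have h2 : (((n0 + j : ℕ) : ℝ) - N1) = (j:ℝ) - Ns := by
      rw [hn0]; push_cast; ring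
    rw [h2] at h1
    have h3 : 0 < infDist z0 (K (n0 + j)) := pos_dist hS hz0 _
    have h4 : (((j:ℝ) - Ns) * L - 1) / k + Real.log R ≤ Real.log (infDist z0 (K (n0 + j))) := by
      have h5 : (((j:ℝ) - Ns) * L - 1) / k ≤
          Real.log (infDist z0 (K (n0 + j))) - Real.log R := by
        rw [div_le_iff₀ hk, mul_comm _ k]
        exact h1
      linarith
    have h5 := Real.exp_le_exp.mpr h4
    rw [Real.exp_add, Real.exp_log hRpos, Real.exp_log h3] at h5
    calc R * Real.exp ((((j:ℝ) - Ns) * L - 1) / k) =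
        Real.exp ((((j:ℝ) - Ns) * L - 1) / k) * R := mul_comm _ _
      _ ≤ infDist z0 (K (n0 + j)) := h5
      _ ≤ dist z0 v := infDist_le_dist_of_mem hv
      _ = ‖v - z0‖ := by rw [dist_comm, dist_eq_norm]
  have hfar0 : ∀ v ∈ K n0, R - τ / 2 ≤ ‖v - z0‖ := by
    intro v hv
    have h1 := hfar 0 (by omega) v (by simpa using hv)
    refine le_trans ?_ h1
    have h2 := Real.add_one_le_exp (((((0:ℕ):ℝ) - Ns) * L - 1) / k)
    have h3 := mul_le_mul_of_nonneg_left h2 hRpos.le
    refine le_trans (le_of_eq ?_) h3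
    rw [hτdef, hg]
    push_cast
    field_simp
    ring
  -- the pole
  set p : ℂ := w - ((τ / R : ℝ) : ℂ) * (w - z0) with hp
  have hwp : ‖w - p‖ = τ := by
    have e : w - p = ((τ / R : ℝ) : ℂ) * (w - z0) := by rw [hp]; ring
    rw [e, norm_mul, hwd, Complex.norm_real, Real.norm_of_nonneg (by positivity)]
    field_simp
  have hpz : ‖p - z0‖ = R - τ := by
    have e : p - z0 = ((1 - τ / R : ℝ) : ℂ) * (w - z0) := by rw [hp]; push_cast; ring
    have h1 : 0 ≤ 1 - τ / R := by
      rw [sub_nonneg, div_le_one hRpos]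
      exact hτR.le
    rw [e, norm_mul, hwd, Complex.norm_real, Real.norm_of_nonneg h1]
    field_simp
  have hvp : ∀ v ∈ K n0, τ / 2 ≤ ‖v - p‖ := by
    intro v hv
    have h1 := hfar0 v hv
    have h2 : ‖v - z0‖ ≤ ‖v - p‖ + ‖p - z0‖ := by
      have := norm_add_le (v - p) (p - z0)
      rwa [sub_add_sub_cancel] at this
    rw [hpz] at h2
    linarith
  -- the functions
  let q : ℂ → ℂ := fun v => ((R : ℂ) / (v - z0)) ^ (k : ℂ)
  let G : ℂ → ℂ := fun v => (τ : ℂ) / (v - p)
  have hsub0 : ∀ v ∈ HH, 0 < (v - z0).re := by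
    intro v hv
    have hv' : 0 < v.re := hv
    rw [Complex.sub_re]
    linarith
  have hqn : ∀ v ∈ HH, ‖q v‖ = (R / ‖v - z0‖) ^ k := by
    intro v hv
    show ‖((R : ℂ) / (v - z0)) ^ (k : ℂ)‖ = _
    rw [Complex.norm_cpow_real, norm_div, Complex.norm_real, Real.norm_of_nonneg hRpos.le]
  have hqb : ∀ j : ℕ, j ≤ 2 * Ns → ∀ v ∈ K (n0 + j),
      ‖q v‖ ≤ Real.exp (1 - ((j:ℝ) - Ns) * L) := by
    intro j hj v hv
    have hvH : v ∈ HH := hS.sub _ hv
    have hpos : 0 < ‖v - z0‖ := by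
      rw [norm_pos_iff]
      intro h
      have := hsub0 v hvH
      rw [h, Complex.zero_re] at this
      exact lt_irrefl _ this
    rw [hqn v hvH]
    have h1 := hfar j hj v hv
    have h2 : R / ‖v - z0‖ ≤ Real.exp (-((((j:ℝ) - Ns) * L - 1) / k)) := by
      rw [div_le_iff₀ hpos, Real.exp_neg, inv_mul_eq_div, le_div_iff₀ (Real.exp_pos _)]
      exact h1
    refine (Real.rpow_le_rpow (by positivity) h2 hk.le).trans ?_
    rw [← Real.exp_mul]
    apply Real.exp_le_exp.mpr
    apply le_of_eq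
    field_simp
    ring
  have hqw : ‖q w‖ = 1 := by
    rw [hqn w (hS.sub _ hw), hwd, div_self hRpos.ne', Real.one_rpow]
  have hqd : DifferentiableOn ℂ q HH := by
    intro v hv
    apply DifferentiableAt.differentiableWithinAt
    have h1 := hsub0 v hv
    have hne : v - z0 ≠ 0 := by
      intro h
      rw [h, Complex.zero_re] at h1
      exact lt_irrefl _ h1
    have h2 : DifferentiableAt ℂ (fun v : ℂ => (R : ℂ) / (v - z0)) v :=
      (differentiableAt_const _).div (differentiableAt_id.sub_const _) hne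
    refine h2.cpow (differentiableAt_const _) ?_
    rw [Complex.mem_slitPlane_iff]
    left
    rw [Complex.div_re]
    simp only [Complex.ofReal_re, Complex.ofReal_im, zero_mul, zero_div, add_zero]
    have h3 : 0 < Complex.normSq (v - z0) := Complex.normSq_pos.mpr hne
    positivity
  have hGw : ‖G w‖ = 1 := by
    show ‖(τ : ℂ) / (w - p)‖ = 1
    rw [norm_div, hwp, Complex.norm_real, Real.norm_of_nonneg hτpos.le, div_self hτpos.ne']
  have hGn : ∀ v, ‖G v‖ = τ / ‖v - p‖ := by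
    intro v
    show ‖(τ : ℂ) / (v - p)‖ = _
    rw [norm_div, Complex.norm_real, Real.norm_of_nonneg hτpos.le]
  have hG2 : ∀ v ∈ K n0, ‖G v‖ ≤ 2 := by
    intro v hv
    rw [hGn, div_le_iff₀ (lt_of_lt_of_le (by positivity) (hvp v hv))]
    have := hvp v hv
    linarith
  have hGs : ∀ v, D * τ < ‖v - w‖ → ‖G v‖ ≤ 1 / (D - 1) := by
    intro v hv
    have h1 : ‖v - w‖ ≤ ‖v - p‖ + ‖w - p‖ := by
      have := norm_sub_le (v - p) (w - p)
      rwa [sub_sub_sub_cancel_right] at this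
    rw [hwp] at h1
    have h2 : (D - 1) * τ < ‖v - p‖ := by nlinarith
    have h3 : 0 < (D - 1) * τ := by
      apply mul_pos _ hτpos
      linarith
    rw [hGn, div_le_div_iff₀ (h3.trans h2) (by linarith)]
    nlinarith
  -- orbits
  have horb : ∀ v ∈ K n0, ∀ i j : ℕ, i < j → j ≤ 2 * Ns + 1 → ‖F^[i] v - w‖ ≤ D * τ →
      ‖F^[j] v - w‖ ≤ D * τ → False := by
    intro v hv i j hij hj hi1 hj1
    set u := F^[i] v with hu
    have huK : u ∈ K (n0 + i) := iter_mem hS n0 i hv
    have huH : u ∈ HH := hS.sub _ huK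
    have hre : |u.re - x| ≤ D * τ := by
      have := Complex.abs_re_le_norm (u - w)
      rw [Complex.sub_re] at this
      exact this.trans hi1
    rw [abs_le] at hre
    have hju : F^[j - i] u = F^[j] v := by
      rw [hu, ← Function.iterate_add_apply, Nat.sub_add_cancel hij.le]
    set κ : ℝ := 4 * (D * τ) / x with hκ
    have hκ0 : 0 ≤ κ := by positivity
    have hκx : κ * x = 4 * (D * τ) := by rw [hκ]; field_simp
    have hDτ0 : 0 < D * τ := by positivity
    have h1 : ‖F^[j - i] u - u‖ ≤ κ * u.re := by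
      rw [hju]
      have h2 : ‖F^[j] v - u‖ ≤ ‖F^[j] v - w‖ + ‖u - w‖ := by
        have := norm_sub_le (F^[j] v - w) (u - w)
        rwa [sub_sub_sub_cancel_right] at this
      have h3 : κ * (x / 2) ≤ κ * u.re := mul_le_mul_of_nonneg_left (by linarith) hκ0
      have h4 : κ * (x / 2) = 2 * (D * τ) := by
        rw [← mul_div_assoc, hκx]
        ring
      linarith
    have h2 : ((j - i : ℕ) : ℝ) * κ ≤ 1 / 2 := by
      have h3 : ((j - i : ℕ) : ℝ) ≤ 2 * Ns + 1 := by
        have : j - i ≤ 2 * Ns + 1 := by omega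
        exact_mod_cast this
      have h4 : (2 * (Ns:ℝ) + 1) * κ ≤ 1 / 2 := by
        rw [hκ, ← mul_div_assoc, div_le_iff₀ hxpos]
        have h5 : 250 * (2 * (Ns:ℝ) + 2) * (D * τ) ≤ x := by
          have : 250 * (2 * (Ns:ℝ) + 2) * (D * τ) = 250 * D * (2 * Ns + 2) * τ := by ring
          rw [this]
          linarith
        have h6 : 0 ≤ (Ns:ℝ) * (D * τ) := by positivity
        nlinarith
      exact (mul_le_mul_of_nonneg_right h3 hκ0).trans h4
    have h3 := hR F hS.hol hS.mono u huH (j - i) κ (by omega) hκ0 h2 h1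
    have h4 : 2 * κ * u.re ≤ 10 * (D * τ) := by
      have h5 : κ * u.re ≤ κ * (5 / 4 * x) := mul_le_mul_of_nonneg_left (by linarith) hκ0
      have h6 : κ * (5 / 4 * x) = 5 * (D * τ) := by
        calc κ * (5 / 4 * x) = 5 / 4 * (κ * x) := by ring
          _ = 5 * (D * τ) := by rw [hκx]; ring
      linarith
    have h5 := ((hH (fun v => F v - v) (hS.hol.sub differentiableOn_id) (fun v hv => by
      rw [Complex.sub_re, sub_nonneg]
      exact hS.mono v hv)).2.1 w (hS.sub _ hw) u (by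
        have : (3:ℝ) / 4 * w.re = 3 / 4 * x := rfl
        rw [this]
        linarith)).2
    have h6 : c * x ≤ 320 * (D * τ) := by
      have : c * x ≤ ‖F w - w‖ := hdisp
      have h7 : ‖F w - w‖ ≤ 32 * ‖F u - u‖ := h5
      linarith
    have h7 : 1000 * (D * τ) ≤ c * x := by
      have h8 : 1000 * (D * τ) ≤ 250 * D * (2 * Ns + 2) * τ := by nlinarith
      linarith
    linarith
  -- sums
  have hsumG : ∀ v ∈ K n0, ∑ j ∈ Finset.range (2 * Ns + 2), ‖G (F^[j] v)‖ ≤ 3 := by
    classical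
    intro v hv
    have hD1 : 0 < D - 1 := by linarith
    have h1 : ∀ j ∈ Finset.range (2 * Ns + 2), ‖G (F^[j] v)‖ ≤
        1 / (D - 1) + if ‖F^[j] v - w‖ ≤ D * τ then 2 else 0 := by
      intro j _
      split_ifs with h
      · have h2 := hG2 (F^[j] v) (anti' hS (Nat.le_add_right n0 j) (iter_mem hS n0 j hv))
        have h3 : 0 < 1 / (D - 1) := by positivity
        linarith
      · rw [add_zero]
        exact hGs _ (not_le.mp h)
    refine (Finset.sum_le_sum h1).trans ?_
    rw [Finset.sum_add_distrib, Finset.sum_const, Finset.card_range, ← Finset.sum_filter,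
      Finset.sum_const, nsmul_eq_mul, nsmul_eq_mul]
    have h2 : ((Finset.range (2 * Ns + 2)).filter (fun j => ‖F^[j] v - w‖ ≤ D * τ)).card ≤ 1 := by
      rw [Finset.card_le_one]
      intro i hi j hj
      rw [Finset.mem_filter, Finset.mem_range] at hi hj
      by_contra hne
      rcases lt_or_gt_of_ne hne with h | h
      · exact horb v hv i j h (by omega) hi.2 hj.2
      · exact horb v hv j i h (by omega) hj.2 hi.2
    have h3 : ((((Finset.range (2 * Ns + 2)).filter
        (fun j => ‖F^[j] v - w‖ ≤ D * τ)).card : ℕ) : ℝ) ≤ 1 := by exact_mod_cast h2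
    have h4 : ((2 * Ns + 2 : ℕ) : ℝ) * (1 / (D - 1)) ≤ 1 := by
      rw [mul_one_div, div_le_one hD1]
      push_cast
      linarith
    linarith
  have hzn : ∀ z : ℤ, ‖l ^ z‖ = Real.exp (-(z * L)) := by
    intro z
    rw [norm_zpow, hlL, ← Real.rpow_intCast, ← Real.exp_mul]
    congr 1
    ring
  let Q : ℂ → ℂ := fun v => ∑ j ∈ Finset.range (2 * Ns + 2),
    (tent Ns j : ℂ) * l ^ ((Ns : ℤ) - j) * (G (F^[j] v) * q (F^[j] v))
  have hdiff : ∀ v ∈ K n0, ‖Q (F v) - l * Q v‖ ≤ 3 * Real.exp 1 / (Ns + 1) := by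
    intro v hv
    have h1 := tele Ns l hlne (fun j => G (F^[j] v) * q (F^[j] v))
    have h2 : Q (F v) - l * Q v = ∑ j ∈ Finset.range (2 * Ns + 2),
      ((tent Ns ((j : ℝ) - 1) - tent Ns j : ℝ) : ℂ) * l ^ ((Ns : ℤ) - j + 1) *
        (G (F^[j] v) * q (F^[j] v)) := by
      rw [← h1]
      rfl
    rw [h2]
    have hp1 : (0:ℝ) < Ns + 1 := by positivity
    have h3 : ∀ j ∈ Finset.range (2 * Ns + 2),
        ‖((tent Ns ((j : ℝ) - 1) - tent Ns j : ℝ) : ℂ) * l ^ ((Ns : ℤ) - j + 1) *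
        (G (F^[j] v) * q (F^[j] v))‖ ≤ Real.exp 1 / (Ns + 1) * ‖G (F^[j] v)‖ := by
      intro j hj
      rw [Finset.mem_range] at hj
      have h4 : ‖l ^ ((Ns : ℤ) - j + 1)‖ * ‖q (F^[j] v)‖ ≤ Real.exp 1 := by
        rw [hzn]
        rcases Nat.lt_or_ge (2 * Ns) j with h5 | h5
        · have h6 : j = 2 * Ns + 1 := by omega
          have h7 : F^[j] v ∈ K (n0 + 2 * Ns) :=
            anti' hS (by omega) (iter_mem hS n0 j hv)
          have h8 := hqb (2 * Ns) le_rfl _ h7
          have h9 := mul_le_mul_of_nonneg_left h8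
            (Real.exp_pos (-((((Ns : ℤ) - j + 1 : ℤ) : ℝ) * L))).le
          refine h9.trans ?_
          rw [← Real.exp_add]
          apply Real.exp_le_exp.mpr
          rw [h6]
          push_cast
          apply le_of_eq
          ring
        · have h8 := hqb j h5 _ (iter_mem hS n0 j hv)
          have h9 := mul_le_mul_of_nonneg_left h8
            (Real.exp_pos (-((((Ns : ℤ) - j + 1 : ℤ) : ℝ) * L))).le
          refine h9.trans ?_
          rw [← Real.exp_add]
          apply Real.exp_le_exp.mpr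
          push_cast
          nlinarith
      rw [norm_mul, norm_mul, norm_mul, Complex.norm_real, Real.norm_eq_abs]
      calc |tent Ns ((j : ℝ) - 1) - tent Ns j| * ‖l ^ ((Ns : ℤ) - j + 1)‖ *
            (‖G (F^[j] v)‖ * ‖q (F^[j] v)‖)
          = |tent Ns ((j : ℝ) - 1) - tent Ns j| *
              (‖l ^ ((Ns : ℤ) - j + 1)‖ * ‖q (F^[j] v)‖) * ‖G (F^[j] v)‖ := by ring
        _ ≤ (1 / (Ns + 1)) * Real.exp 1 * ‖G (F^[j] v)‖ := by
            refine mul_le_mul_of_nonneg_right ?_ (norm_nonneg _)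
            exact mul_le_mul (tent_lip Ns j) h4 (by positivity) (by positivity)
        _ = Real.exp 1 / (Ns + 1) * ‖G (F^[j] v)‖ := by ring
    refine (norm_sum_le _ _).trans ((Finset.sum_le_sum h3).trans ?_)
    rw [← Finset.mul_sum]
    have h4 := mul_le_mul_of_nonneg_left (hsumG v hv)
      (show 0 ≤ Real.exp 1 / ((Ns:ℝ) + 1) by positivity)
    refine h4.trans (le_of_eq ?_)
    ring
  -- admissibility
  have hadm : Adm (K n0) Q := by
    have hUo : IsOpen (HH ∩ ⋂ j ∈ Finset.range (2 * Ns + 2), {v | v ∈ HH → F^[j] v ≠ p}) := by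
      have e : HH ∩ ⋂ j ∈ Finset.range (2 * Ns + 2), {v | v ∈ HH → F^[j] v ≠ p} =
          HH ∩ ⋂ j ∈ Finset.range (2 * Ns + 2), (HH ∩ F^[j] ⁻¹' {p}ᶜ) := by
        ext v
        simp only [mem_inter_iff, mem_iInter, mem_preimage, mem_compl_iff, mem_singleton_iff]
        constructor
        · rintro ⟨h1, h2⟩
          exact ⟨h1, fun j hj => ⟨h1, h2 j hj h1⟩⟩
        · rintro ⟨h1, h2⟩
          exact ⟨h1, fun j hj _ => (h2 j hj).2⟩
      rw [e]
      refine isOpen_HH.inter (isOpen_biInter_finset fun j _ => ?_)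
      exact (iter_diff hS j).continuousOn.isOpen_inter_preimage isOpen_HH
        isClosed_singleton.isOpen_compl
    refine adm_intro hUo ?_ ?_ ?_
    · intro v hv
      refine ⟨hS.sub _ hv, ?_⟩
      simp only [mem_iInter]
      intro j _ _ hvp'
      have h1 := hvp (F^[j] v) (anti' hS (Nat.le_add_right n0 j) (iter_mem hS n0 j hv))
      rw [hvp', sub_self, norm_zero] at h1
      linarith
    · apply DifferentiableOn.fun_sum
      intro j hj
      apply DifferentiableOn.const_mul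
      have hit : DifferentiableOn ℂ (F^[j])
          (HH ∩ ⋂ j ∈ Finset.range (2 * Ns + 2), {v | v ∈ HH → F^[j] v ≠ p}) :=
        (iter_diff hS j).mono inter_subset_left
      apply DifferentiableOn.mul
      · apply DifferentiableOn.div (differentiableOn_const _) (hit.sub_const _)
        intro v hv h
        simp only [mem_inter_iff, mem_iInter] at hv
        exact hv.2 j hj hv.1 (sub_eq_zero.mp h)
      · exact hqd.comp hit (fun v hv => iterHH hS j hv.1)
    · have h0 : (0:ℂ) = ∑ j ∈ Finset.range (2 * Ns + 2), (0:ℂ) := by simp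
      rw [h0]
      apply tendsto_finsetSum
      intro j hj
      rw [Finset.mem_range] at hj
      have hle : Inf ⊓ 𝓟 (K n0) ≤ Inf ⊓ 𝓟 HH :=
        inf_le_inf le_rfl (principal_mono.mpr (hS.sub n0))
      have h1 : Tendsto (F^[j]) (Inf ⊓ 𝓟 (K n0)) Inf :=
        ((tendsto_iter hS j).mono_left hle).mono_right inf_le_left
      have h2 : Tendsto (fun v => ‖F^[j] v - p‖) (Inf ⊓ 𝓟 (K n0)) atTop := by
        have h3 : Tendsto (fun v => ‖F^[j] v‖) (Inf ⊓ 𝓟 (K n0)) atTop := by
          unfold Inf at h1 ⊢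
          exact tendsto_comap_iff.mp h1
        refine tendsto_atTop_mono (fun v => ?_) (tendsto_atTop_add_const_right _ (-‖p‖) h3)
        have := norm_sub_norm_le (F^[j] v) p
        linarith
      have h3 : Tendsto (fun v => Real.exp 1 * Real.exp (2 * Ns * L + L) * (τ / ‖F^[j] v - p‖))
          (Inf ⊓ 𝓟 (K n0)) (𝓝 0) := by
        have h4 := (tendsto_const_nhds (x := τ)).div_atTop h2
        have h5 := h4.const_mul (Real.exp 1 * Real.exp (2 * Ns * L + L))
        rwa [mul_zero] at h5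
      refine squeeze_zero_norm' ?_ h3
      rw [eventually_inf_principal]
      filter_upwards with v hv
      rw [norm_mul, norm_mul, norm_mul, Complex.norm_real, Real.norm_eq_abs, hzn, hGn]
      have h4 : ‖q (F^[j] v)‖ ≤ Real.exp (1 + Ns * L) := by
        have h5 : F^[j] v ∈ K (n0 + 0) :=
          anti' hS (by omega) (iter_mem hS n0 j hv)
        have h6 := hqb 0 (by omega) _ h5
        refine h6.trans (Real.exp_le_exp.mpr ?_)
        push_cast
        linarith
      have h5 : Real.exp (-((((Ns : ℤ) - j : ℤ) : ℝ) * L)) ≤ Real.exp (Ns * L + L) := by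
        apply Real.exp_le_exp.mpr
        push_cast
        have : (j:ℝ) ≤ 2 * Ns + 1 := by
          have : j ≤ 2 * Ns + 1 := by omega
          exact_mod_cast this
        nlinarith
      have h6 : 0 ≤ τ / ‖F^[j] v - p‖ := by positivity
      calc |tent Ns j| * Real.exp (-((((Ns : ℤ) - j : ℤ) : ℝ) * L)) *
            (τ / ‖F^[j] v - p‖ * ‖q (F^[j] v)‖)
          = |tent Ns j| * (Real.exp (-((((Ns : ℤ) - j : ℤ) : ℝ) * L)) * ‖q (F^[j] v)‖) *
            (τ / ‖F^[j] v - p‖) := by ring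
        _ ≤ 1 * (Real.exp (Ns * L + L) * Real.exp (1 + Ns * L)) * (τ / ‖F^[j] v - p‖) := by
            refine mul_le_mul_of_nonneg_right ?_ h6
            refine mul_le_mul (tent_abs Ns j (by omega)) ?_ (by positivity) zero_le_one
            exact mul_le_mul h5 h4 (by positivity) (by positivity)
        _ = Real.exp 1 * Real.exp (2 * Ns * L + L) * (τ / ‖F^[j] v - p‖) := by
            rw [one_mul, ← Real.exp_add, ← Real.exp_add]
            congr 2
            ring
  have hbound := hU n0 Q _ hadm hdiff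
  -- the contradiction
  obtain ⟨u, hu, huw⟩ := iter_surj hS n0 Ns (w := w) (by rw [← hn0]; exact hw)
  have hQu := hbound u hu
  have hsmall : C0 * (3 * Real.exp 1 / (Ns + 1)) < 1 / 2 := by
    rw [← mul_div_assoc, div_lt_iff₀ (by positivity)]
    linarith
  have hQlow : 1 / 2 < ‖Q u‖ := by
    classical
    have hmem : Ns ∈ Finset.range (2 * Ns + 2) := by rw [Finset.mem_range]; omega
    have h1 : Q u = (tent Ns Ns : ℂ) * l ^ ((Ns : ℤ) - Ns) * (G (F^[Ns] u) * q (F^[Ns] u)) +
        ∑ j ∈ (Finset.range (2 * Ns + 2)).erase Ns,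
          (tent Ns j : ℂ) * l ^ ((Ns : ℤ) - j) * (G (F^[j] u) * q (F^[j] u)) :=
      (Finset.add_sum_erase _ (fun j : ℕ => (tent Ns j : ℂ) * l ^ ((Ns : ℤ) - j) *
        (G (F^[j] u) * q (F^[j] u))) hmem).symm
    have h2 : ‖(tent Ns Ns : ℂ) * l ^ ((Ns : ℤ) - Ns) * (G (F^[Ns] u) * q (F^[Ns] u))‖ = 1 := by
      rw [huw, tent_mid, sub_self, zpow_zero, Complex.ofReal_one, one_mul, one_mul, norm_mul, hGw,
        hqw, mul_one]
    have h3 : ∀ j ∈ (Finset.range (2 * Ns + 2)).erase Ns,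
        ‖(tent Ns j : ℂ) * l ^ ((Ns : ℤ) - j) * (G (F^[j] u) * q (F^[j] u))‖ ≤
          Real.exp 1 / (D - 1) := by
      intro j hj
      rw [Finset.mem_erase, Finset.mem_range] at hj
      rcases Nat.lt_or_ge (2 * Ns) j with h5 | h5
      · have h6 : j = 2 * Ns + 1 := by omega
        have h7 : tent Ns (j : ℝ) = 0 := by
          rw [h6]
          push_cast
          exact tent_top Ns
        rw [h7]
        simp only [Complex.ofReal_zero, zero_mul, norm_zero]
        have : 0 < D - 1 := by linarith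
        positivity
      · have h6 : D * τ < ‖F^[j] u - w‖ := by
          by_contra h7
          rw [not_lt] at h7
          have h8 : ‖F^[Ns] u - w‖ ≤ D * τ := by
            rw [huw, sub_self, norm_zero]
            positivity
          rcases lt_or_gt_of_ne hj.1 with h | h
          · exact horb u hu j Ns h (by omega) h7 h8
          · exact horb u hu Ns j h (by omega) h8 h7
        have h7 := hGs _ h6
        have h8 := hqb j h5 _ (iter_mem hS n0 j hu)
        have h9 : ‖l ^ ((Ns : ℤ) - j)‖ * ‖q (F^[j] u)‖ ≤ Real.exp 1 := by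
          rw [hzn]
          have h10 := mul_le_mul_of_nonneg_left h8
            (Real.exp_pos (-((((Ns : ℤ) - j : ℤ) : ℝ) * L))).le
          refine h10.trans ?_
          rw [← Real.exp_add]
          apply Real.exp_le_exp.mpr
          push_cast
          apply le_of_eq
          ring
        rw [norm_mul, norm_mul, norm_mul, Complex.norm_real, Real.norm_eq_abs]
        calc |tent Ns (j : ℝ)| * ‖l ^ ((Ns : ℤ) - j)‖ * (‖G (F^[j] u)‖ * ‖q (F^[j] u)‖)
            = |tent Ns (j : ℝ)| * (‖l ^ ((Ns : ℤ) - j)‖ * ‖q (F^[j] u)‖) * ‖G (F^[j] u)‖ := by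
              ring
          _ ≤ 1 * Real.exp 1 * (1 / (D - 1)) := by
              refine mul_le_mul ?_ h7 (norm_nonneg _) (by positivity)
              exact mul_le_mul (tent_abs Ns j (by omega)) h9 (by positivity) zero_le_one
          _ = Real.exp 1 / (D - 1) := by ring
    have h4 : ‖∑ j ∈ (Finset.range (2 * Ns + 2)).erase Ns,
          (tent Ns j : ℂ) * l ^ ((Ns : ℤ) - j) * (G (F^[j] u) * q (F^[j] u))‖ ≤
        (2 * Ns + 1) * (Real.exp 1 / (D - 1)) := by
      refine (norm_sum_le _ _).trans ((Finset.sum_le_sum h3).trans ?_)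
      rw [Finset.sum_const, Finset.card_erase_of_mem hmem, Finset.card_range, nsmul_eq_mul]
      apply le_of_eq
      congr 1
      have : 2 * Ns + 2 - 1 = 2 * Ns + 1 := by omega
      rw [this]
      push_cast
      ring
    have h5 : (2 * Ns + 1) * (Real.exp 1 / (D - 1)) < 1 / 2 := by
      have hD1 : 0 < D - 1 := by linarith
      rw [← mul_div_assoc, div_lt_iff₀ hD1, hD]
      nlinarith
    have h6 : ‖(tent Ns Ns : ℂ) * l ^ ((Ns : ℤ) - Ns) * (G (F^[Ns] u) * q (F^[Ns] u))‖ ≤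
        ‖Q u‖ + ‖∑ j ∈ (Finset.range (2 * Ns + 2)).erase Ns,
          (tent Ns j : ℂ) * l ^ ((Ns : ℤ) - j) * (G (F^[j] u) * q (F^[j] u))‖ := by
      rw [h1]
      have := norm_sub_le ((tent Ns Ns : ℂ) * l ^ ((Ns : ℤ) - Ns) *
        (G (F^[Ns] u) * q (F^[Ns] u)) + ∑ j ∈ (Finset.range (2 * Ns + 2)).erase Ns,
          (tent Ns j : ℂ) * l ^ ((Ns : ℤ) - j) * (G (F^[j] u) * q (F^[j] u)))
        (∑ j ∈ (Finset.range (2 * Ns + 2)).erase Ns,
          (tent Ns j : ℂ) * l ^ ((Ns : ℤ) - j) * (G (F^[j] u) * q (F^[j] u)))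
      rwa [add_sub_cancel_right] at this
    rw [h2] at h6
    linarith
  linarith

end Pool.Agent.T6.H4.SG
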