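import Pool.Agent.KS6_19.DA.L.T6.H4.SG.SEP

/-! # Module TH1 (MP_ff3f8e_an) -/

open Set Metric Filter Topology

noncomputable section

namespace Pool.Agent.T6.H4.SG

namespace TH1x

open SEPx

variable {F : ℂ → ℂ} {K : ℕ → Set ℂ} {N : ℕ}

/-- the test function `(ρ / (v - ζ)) ^ κ` -/
def qq (ζ : ℂ) (ρ κ : ℝ) (v : ℂ) : ℂ := ((ρ : ℂ) / (v - ζ)) ^ (κ : ℂ)

theorem re_pos {ζ : ℂ} (hζ : ζ.re < 0) {v : ℂ} (hv : v ∈ HH) : 0 < (v - ζ).re := by
  have hv' : 0 < v.re := hv
  rw [Complex.sub_re]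
  linarith

theorem ne_pos {ζ : ℂ} (hζ : ζ.re < 0) {v : ℂ} (hv : v ∈ HH) : v - ζ ≠ 0 := by
  intro h
  have h1 := re_pos hζ hv
  rw [h, Complex.zero_re] at h1
  exact lt_irrefl _ h1

theorem qq_norm (ζ : ℂ) {ρ : ℝ} (hρ : 0 < ρ) (κ : ℝ) (v : ℂ) :
    ‖qq ζ ρ κ v‖ = (ρ / ‖v - ζ‖) ^ κ := by
  unfold qq
  rw [Complex.norm_cpow_real, norm_div, Complex.norm_real, Real.norm_of_nonneg hρ.le]

theorem qq_diff {ζ : ℂ} (hζ : ζ.re < 0) {ρ : ℝ} (hρ : 0 < ρ) (κ : ℝ) :
    DifferentiableOn ℂ (qq ζ ρ κ) HH := by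
  intro v hv
  apply DifferentiableAt.differentiableWithinAt
  have hne := ne_pos hζ hv
  have h1 := re_pos hζ hv
  have h2 : DifferentiableAt ℂ (fun v : ℂ => (ρ : ℂ) / (v - ζ)) v :=
    (differentiableAt_const _).div (differentiableAt_id.sub_const _) hne
  refine h2.cpow (differentiableAt_const _) ?_
  rw [Complex.mem_slitPlane_iff]
  left
  rw [Complex.div_re]
  simp only [Complex.ofReal_re, Complex.ofReal_im, zero_mul, zero_div, add_zero]
  have h3 : 0 < Complex.normSq (v - ζ) := Complex.normSq_pos.mpr hne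
  positivity

theorem qq_adm (hS : Sys F K N) {ζ : ℂ} (hζ : ζ.re < 0) {ρ κ : ℝ} (hρ : 0 < ρ) (hκ : 0 < κ) :
    Adm (K 0) (qq ζ ρ κ) := by
  refine adm_intro isOpen_HH (hS.sub 0) (qq_diff hζ hρ κ) ?_
  have h3 : Tendsto (fun v : ℂ => ‖v‖) (Inf ⊓ 𝓟 (K 0)) atTop := by
    unfold Inf
    exact tendsto_comap.mono_left inf_le_left
  have h4 : Tendsto (fun v : ℂ => ‖v - ζ‖) (Inf ⊓ 𝓟 (K 0)) atTop := by
    refine tendsto_atTop_mono (fun v => ?_) (tendsto_atTop_add_const_right _ (-‖ζ‖) h3)
    have := norm_sub_norm_le v ζ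
    linarith
  have h5 := ((tendsto_const_nhds (x := ρ)).div_atTop h4).rpow_const (p := κ) (Or.inr hκ.le)
  rw [Real.zero_rpow hκ.ne'] at h5
  refine squeeze_zero_norm (fun v => ?_) h5
  rw [qq_norm ζ hρ κ v]

theorem qq_le (ζ : ℂ) {ρ κ : ℝ} (hρ : 0 < ρ) (hκ : 0 < κ) {v : ℂ} (hv : 0 < ‖v - ζ‖) {s : ℝ}
    (h : ρ ≤ Real.exp s * ‖v - ζ‖) : ‖qq ζ ρ κ v‖ ≤ Real.exp (s * κ) := by
  rw [qq_norm ζ hρ κ v, Real.exp_mul]
  refine Real.rpow_le_rpow (by positivity) ?_ hκ.le
  rw [div_le_iff₀ hv]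
  exact h

end TH1x

open SEPx TH1x

theorem t_TH1 (hQ : S_SEQ) (hO : S_ONE) (hSP : S_SEP) (hH : S_HAR) : S_TH1 := by
  intro F K N hS l r0 C0 hl0 hl1 hr0 hU
  by_contra hsm
  -- failure of smallness
  obtain ⟨c0, hc0, hc01, hbad⟩ : ∃ c0 : ℝ, 0 < c0 ∧ c0 ≤ 1 ∧
      ∀ n, ∃ w ∈ K n, c0 * w.re < ‖F w - w‖ := by
    unfold Small at hsm
    push Not at hsm
    obtain ⟨c, hc, hh⟩ := hsm
    refine ⟨min c 1, lt_min hc one_pos, min_le_right _ _, fun n => ?_⟩
    obtain ⟨w, hw, hw2⟩ := hh n
    refine ⟨w, hw, lt_of_le_of_lt ?_ hw2⟩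
    exact mul_le_mul_of_nonneg_right (min_le_left _ _) (le_of_lt (hS.sub n hw))
  have hU1 : U1 F K l C0 := hU l (mem_ball_self hr0)
  obtain ⟨K1, hK1, hone⟩ := hO F K N hS l r0 C0 hl0 hl1 hr0 hU
  obtain ⟨Ns, M0, hM0, hsep⟩ := hSP F K N hS l C0 hl0 hl1 hU1
  set L : ℝ := -Real.log ‖l‖ with hLdef
  have hL : 0 < L := by
    rw [hLdef, neg_pos]
    exact Real.log_neg hl0 hl1
  have hlL : ‖l‖ = Real.exp (-L) := by
    rw [hLdef, neg_neg, Real.exp_log hl0]
  obtain ⟨M, hM12, hMK⟩ : ∃ M : ℝ, 12 ≤ M ∧ 24 * K1 * L ≤ M :=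
    ⟨max 12 (24 * K1 * L), le_max_left _ _, le_max_right _ _⟩
  have hMpos : 0 < M := by linarith
  set c : ℝ := c0 / (64 * (M + 1)) with hc
  have hcpos : 0 < c := by positivity
  have hc1 : c ≤ 1 := by
    rw [hc, div_le_one (by positivity)]
    linarith
  obtain ⟨B, hB⟩ := exists_nat_gt ((Ns : ℝ) + 1 + 2 * K1 * (3 + 4 * L * M0 / c) + 4 * M0 / c + 1 / L)
  have hBpos0 : (0:ℝ) ≤ 2 * K1 * (3 + 4 * L * M0 / c) := by positivity
  have hBpos1 : (0:ℝ) ≤ 4 * M0 / c := by positivity
  have hBpos2 : (0:ℝ) ≤ 1 / L := by positivity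
  have hNs0 : (0:ℝ) ≤ Ns := Nat.cast_nonneg _
  have hBNs' : (Ns:ℝ) < B := by linarith
  have hBNs : Ns ≤ B := by exact_mod_cast hBNs'.le
  have hB1 : (1:ℝ) ≤ B := by linarith
  have hBK : 2 * K1 * (3 + 4 * L * M0 / c) < B := by linarith
  have hBM : 4 * M0 / c ≤ B := by linarith
  have hBL : 0 < (B:ℝ) * L := by positivity
  obtain ⟨A, hA⟩ := hQ L 1 B hL one_pos
  obtain ⟨w1, hw1, hw1h⟩ := hbad A
  set x1 : ℝ := w1.re with hx1
  have hx1pos : 0 < x1 := hS.sub A hw1
  set z0 : ℂ := ⟨-(M * x1), w1.im⟩ with hz0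
  have hz0re : z0.re = -(M * x1) := rfl
  have hz0im : z0.im = w1.im := rfl
  have hz0neg : z0.re < 0 := by
    rw [hz0re, neg_lt_zero]
    positivity
  have hRpos : ∀ t, 0 < infDist z0 (K t) := fun t => pos_dist hS hz0neg t
  have hRlow : ∀ t, M * x1 ≤ infDist z0 (K t) := by
    intro t
    rw [le_infDist (nonempty hS t)]
    intro v hv
    have hvH : 0 < v.re := hS.sub t hv
    have h1 := Complex.re_le_norm (v - z0)
    rw [Complex.sub_re, hz0re] at h1
    rw [dist_comm, dist_eq_norm]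
    linarith
  have hmono : Monotone (fun t => Real.log (infDist z0 (K t))) := by
    intro s t hst
    exact Real.log_le_log (hRpos s) (infDist_le_infDist_of_subset (anti' hS hst) (nonempty hS t))
  have htend : Tendsto (fun t => Real.log (infDist z0 (K t))) atTop atTop := by
    rw [Filter.tendsto_atTop]
    intro b
    obtain ⟨n, hn⟩ := hS.far (Real.exp b + ‖z0‖)
    filter_upwards [eventually_ge_atTop n] with t ht
    rw [Real.le_log_iff_exp_le (hRpos t), le_infDist (nonempty hS t)]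
    intro v hv
    have h1 := hn v (anti' hS ht hv)
    have h2 := norm_sub_norm_le v z0
    rw [dist_comm, dist_eq_norm]
    linarith
  obtain ⟨N1, hBN1, k, hk, hrN, hgr⟩ := hA _ hmono htend A le_rfl
  set R : ℝ := infDist z0 (K N1) with hR
  have hRp : 0 < R := hRpos N1
  have hRup : R ≤ (M + 3) * x1 := by
    have h1 : infDist z0 (K A) ≤ (M + 1) * x1 := by
      refine (infDist_le_dist_of_mem hw1).trans ?_
      rw [dist_comm, dist_eq_norm]
      have e : w1 - z0 = (((M + 1) * x1 : ℝ) : ℂ) := by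
        apply Complex.ext
        · rw [Complex.sub_re, hz0re, Complex.ofReal_re]
          ring
        · rw [Complex.sub_im, hz0im, Complex.ofReal_im]
          ring
      rw [e, Complex.norm_real, Real.norm_of_nonneg (by positivity)]
    have h2 : Real.log (infDist z0 (K A)) ≤ Real.log ((M + 1) * x1) :=
      Real.log_le_log (hRpos A) h1
    have h3 : Real.log (M * x1) ≤ Real.log (infDist z0 (K 0)) :=
      Real.log_le_log (by positivity) (hRlow 0)
    have h4 : Real.log R ≤ 2 * Real.log ((M + 1) * x1) - Real.log (M * x1) := by linarith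
    have h5 : 2 * Real.log ((M + 1) * x1) - Real.log (M * x1) =
        Real.log (((M + 1) * x1) ^ 2 / (M * x1)) := by
      rw [Real.log_div (by positivity) (by positivity), Real.log_pow]
      push_cast
      ring
    rw [h5] at h4
    have h6 := (Real.log_le_log_iff hRp (by positivity)).mp h4
    refine h6.trans ?_
    rw [div_le_iff₀ (by positivity)]
    have h7 : 0 ≤ x1 ^ 2 := by positivity
    nlinarith
  -- the contact point
  obtain ⟨w, hw, hwd'⟩ := (hS.closed N1).exists_infDist_eq_dist (nonempty hS N1) z0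
  have hwd : ‖w - z0‖ = R := by
    rw [hR, hwd', dist_comm, dist_eq_norm]
  set x : ℝ := w.re with hx
  have hxpos : 0 < x := hS.sub N1 hw
  have hxR : x + M * x1 ≤ R := by
    have h1 := Complex.re_le_norm (w - z0)
    rw [Complex.sub_re, hz0re, hwd] at h1
    linarith
  have hx3 : x ≤ 3 * x1 := by nlinarith
  have him : (w.im - w1.im) ^ 2 ≤ (6 * M + 9) * x1 ^ 2 := by
    have h1 : (x + M * x1) ^ 2 + (w.im - w1.im) ^ 2 = R ^ 2 := by
      rw [← hwd, ← Complex.normSq_eq_norm_sq, Complex.normSq_apply, Complex.sub_re, Complex.sub_im,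
        hz0re, hz0im]
      ring
    have h2 : R ^ 2 ≤ ((M + 3) * x1) ^ 2 := pow_le_pow_left₀ hRp.le hRup 2
    have h3 : (M * x1) ^ 2 ≤ (x + M * x1) ^ 2 :=
      pow_le_pow_left₀ (by positivity) (by linarith) 2
    nlinarith
  have hcw : c * w.re ≤ ‖F w - w‖ := by
    have h1 := (hH (fun v => F v - v) (hS.hol.sub differentiableOn_id) (fun v hv => by
      rw [Complex.sub_re, sub_nonneg]
      exact hS.mono v hv)).1 w1 (hS.sub _ hw1) w (hS.sub _ hw)
    have h2 : ‖w1 + (starRingEnd ℂ) w‖ ^ 2 ≤ (6 * M + 25) * x1 ^ 2 := by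
      rw [← Complex.normSq_eq_norm_sq, Complex.normSq_apply, Complex.add_re, Complex.add_im,
        Complex.conj_re, Complex.conj_im]
      have h3 : (x1 + x) ^ 2 ≤ (4 * x1) ^ 2 := pow_le_pow_left₀ (by positivity) (by linarith) 2
      nlinarith
    have h3 : c0 * x1 * (x1 * x) ≤ 2 * ((6 * M + 25) * x1 ^ 2) * ‖F w - w‖ := by
      calc c0 * x1 * (x1 * x) ≤ ‖F w1 - w1‖ * (x1 * x) :=
            mul_le_mul_of_nonneg_right hw1h.le (by positivity)
        _ ≤ 2 * ‖w1 + (starRingEnd ℂ) w‖ ^ 2 * ‖F w - w‖ := h1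
        _ ≤ 2 * ((6 * M + 25) * x1 ^ 2) * ‖F w - w‖ := by
            refine mul_le_mul_of_nonneg_right ?_ (norm_nonneg _)
            linarith
    have h4 : c0 * x ≤ 2 * (6 * M + 25) * ‖F w - w‖ := by
      have h5 : x1 ^ 2 * (c0 * x) ≤ x1 ^ 2 * (2 * (6 * M + 25) * ‖F w - w‖) := by
        calc x1 ^ 2 * (c0 * x) = c0 * x1 * (x1 * x) := by ring
          _ ≤ 2 * ((6 * M + 25) * x1 ^ 2) * ‖F w - w‖ := h3
          _ = x1 ^ 2 * (2 * (6 * M + 25) * ‖F w - w‖) := by ring
      exact le_of_mul_le_mul_left h5 (by positivity)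
    have h5 : 2 * (6 * M + 25) * ‖F w - w‖ ≤ 64 * (M + 1) * ‖F w - w‖ := by
      refine mul_le_mul_of_nonneg_right ?_ (norm_nonneg _)
      linarith
    show c * x ≤ ‖F w - w‖
    rw [hc, div_mul_eq_mul_div, div_le_iff₀ (by positivity)]
    linarith
  have hg := hsep c z0 N1 k w hcpos hc1 hz0neg (hBNs.trans hBN1) hk
    (fun t h1 h2 => hgr t (by omega) (by omega)) hw hwd hcw
  set g : ℝ := R * L / k with hgdef
  have hgx : c / M0 * x < g := hg
  have hgpos : 0 < g := by positivity
  have hfar : ∀ j : ℕ, j ≤ B → ∀ v ∈ K (N1 + j),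
      R * Real.exp (((j:ℝ) * L - 1) / k) ≤ ‖v - z0‖ := by
    intro j hj v hv
    have h1 := hgr (N1 + j) (by omega) (by omega)
    have h2 : (((N1 + j : ℕ) : ℝ) - N1) = (j:ℝ) := by push_cast; ring
    rw [h2] at h1
    have h3 : 0 < infDist z0 (K (N1 + j)) := hRpos _
    have h4 : ((j:ℝ) * L - 1) / k + Real.log R ≤ Real.log (infDist z0 (K (N1 + j))) := by
      have h5 : ((j:ℝ) * L - 1) / k ≤ Real.log (infDist z0 (K (N1 + j))) - Real.log R := by
        rw [div_le_iff₀ hk, mul_comm _ k]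
        exact h1
      linarith
    have h5 := Real.exp_le_exp.mpr h4
    rw [Real.exp_add, Real.exp_log hRp, Real.exp_log h3] at h5
    calc R * Real.exp (((j:ℝ) * L - 1) / k) = Real.exp (((j:ℝ) * L - 1) / k) * R := mul_comm _ _
      _ ≤ infDist z0 (K (N1 + j)) := h5
      _ ≤ dist z0 v := infDist_le_dist_of_mem hv
      _ = ‖v - z0‖ := by rw [dist_comm, dist_eq_norm]
  have hlj : ∀ j : ℕ, ‖l‖ ^ j = Real.exp (-((j:ℝ) * L)) := by
    intro j
    rw [hlL, ← Real.exp_nat_mul]
    congr 1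
    ring
  -- conclusion from a test function
  set Cb : ℝ := 2 + 12 * B * L / M + 4 * L * M0 / c with hCb
  have hCb1 : 0 ≤ 12 * B * L / M := by positivity
  have hCb2 : 0 ≤ 4 * L * M0 / c := by positivity
  have hfin : ∀ q : ℂ → ℂ, Adm (K 0) q → (∀ v ∈ K 0, ‖q v‖ ≤ Real.exp Cb) → ‖q w‖ = 1 →
      (∀ j : ℕ, j ≤ B → ∀ v ∈ K (N1 + j), ‖q v‖ ≤ Real.exp (1 - (j:ℝ) * L)) → False := by
    intro q hq hq1 hq2 hq3
    have h1 := hone Cb B N1 q w (by positivity) hBN1 hq hq1 hw hq2 (fun j hj v hv => by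
      refine (hq3 j hj v hv).trans ?_
      rw [hlj, ← Real.exp_add]
      apply Real.exp_le_exp.mpr
      rw [hCb]
      linarith)
    have h2 : K1 * (12 * B * L / M) ≤ B / 2 := by
      rw [← mul_div_assoc, div_le_div_iff₀ hMpos two_pos]
      nlinarith
    have h3 : K1 * (1 + Cb) = K1 * (3 + 4 * L * M0 / c) + K1 * (12 * B * L / M) := by
      rw [hCb]; ring
    linarith
  rcases le_or_gt R ((B:ℝ) * g) with hcase | hcase
  · -- case I
    have hkB : k ≤ B * L := by
      have h1 : R * k ≤ R * (B * L) := by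
        have h2 : (B:ℝ) * g * k = R * (B * L) := by
          rw [hgdef]; field_simp
        calc R * k ≤ (B:ℝ) * g * k := mul_le_mul_of_nonneg_right hcase hk.le
          _ = R * (B * L) := h2
      exact le_of_mul_le_mul_left h1 hRp
    refine hfin (qq z0 R k) (qq_adm hS hz0neg hRp hk) ?_ ?_ ?_
    · intro v hv
      have hvH : v ∈ HH := hS.sub 0 hv
      have hv1 : M * x1 ≤ ‖v - z0‖ := by
        have h1 := Complex.re_le_norm (v - z0)
        rw [Complex.sub_re, hz0re] at h1
        have h2 : 0 < v.re := hvH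
        linarith
      have hv0 : 0 < ‖v - z0‖ := lt_of_lt_of_le (by positivity) hv1
      refine (qq_le z0 hRp hk hv0 (s := 3 / M) ?_).trans ?_
      · have h1 := Real.add_one_le_exp (3 / M)
        calc R ≤ (M + 3) * x1 := hRup
          _ = (3 / M + 1) * (M * x1) := by
              field_simp
              ring
          _ ≤ Real.exp (3 / M) * ‖v - z0‖ :=
              mul_le_mul h1 hv1 (by positivity) (Real.exp_pos _).le
      · apply Real.exp_le_exp.mpr
        have h1 : 3 / M * k ≤ 3 / M * (B * L) := mul_le_mul_of_nonneg_left hkB (by positivity)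
        have h2 : 3 / M * (B * L) = (12 * B * L / M) / 4 := by ring
        rw [hCb]
        linarith
    · rw [qq_norm z0 hRp, hwd, div_self hRp.ne', Real.one_rpow]
    · intro j hj v hv
      have h1 := hfar j hj v hv
      have hv0 : 0 < ‖v - z0‖ := lt_of_lt_of_le (by positivity) h1
      refine (qq_le z0 hRp hk hv0 (s := -(((j:ℝ) * L - 1) / k)) ?_).trans ?_
      · rw [Real.exp_neg, inv_mul_eq_div, le_div_iff₀ (Real.exp_pos _)]
        exact h1
      · apply Real.exp_le_exp.mpr
        apply le_of_eq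
        field_simp
        ring
  · -- case II
    set a : ℝ := (B:ℝ) * g with ha
    have hapos : 0 < a := by positivity
    set ζ : ℂ := w - ((a / R : ℝ) : ℂ) * (w - z0) with hζ
    have hwζ : ‖w - ζ‖ = a := by
      have e : w - ζ = ((a / R : ℝ) : ℂ) * (w - z0) := by rw [hζ]; ring
      rw [e, norm_mul, hwd, Complex.norm_real, Real.norm_of_nonneg (by positivity)]
      field_simp
    have hζz : ‖ζ - z0‖ = R - a := by
      have e : ζ - z0 = ((1 - a / R : ℝ) : ℂ) * (w - z0) := by rw [hζ]; push_cast; ring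
      have h1 : 0 ≤ 1 - a / R := by
        rw [sub_nonneg, div_le_one hRp]
        exact hcase.le
      rw [e, norm_mul, hwd, Complex.norm_real, Real.norm_of_nonneg h1]
      field_simp
    set η : ℝ := 1 - (x + M * x1) / R + x / a with hη
    have hζre : ζ.re = -(a * (1 - η)) := by
      have h1 : ζ.re = x - a / R * (x + M * x1) := by
        rw [hζ, Complex.sub_re, Complex.re_ofReal_mul, Complex.sub_re, hz0re]
        ring
      rw [h1, hη]
      field_simp
      ring
    have hxa : x / a ≤ M0 / (c * B) := by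
      have h1 : c * x ≤ M0 * g := by
        have h2 := mul_le_mul_of_nonneg_left hgx.le hM0.le
        have h3 : M0 * (c / M0 * x) = c * x := by field_simp
        linarith
      rw [div_le_div_iff₀ hapos (by positivity), ha]
      have hB0 : (0:ℝ) ≤ B := by linarith
      nlinarith
    have hcos : 1 - (x + M * x1) / R ≤ 3 / M := by
      have h1 : 1 - 3 / M ≤ (x + M * x1) / R := by
        rw [le_div_iff₀ hRp]
        have h2 : (1 - 3 / M) * R ≤ (1 - 3 / M) * ((M + 3) * x1) := by
          refine mul_le_mul_of_nonneg_left hRup ?_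
          rw [sub_nonneg, div_le_one hMpos]
          linarith
        have h3 : (1 - 3 / M) * ((M + 3) * x1) = M * x1 - 9 / M * x1 := by
          field_simp
          ring
        have h4 : 0 ≤ 9 / M * x1 := by positivity
        linarith
      linarith
    have hcos1 : 0 ≤ 1 - (x + M * x1) / R := by
      rw [sub_nonneg, div_le_one hRp]
      exact hxR
    have hη0 : 0 ≤ η := by
      have : 0 ≤ x / a := by positivity
      rw [hη]
      linarith
    have hη1 : η ≤ 1 / 2 := by
      have h1 : 3 / M ≤ 1 / 4 := by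
        rw [div_le_div_iff₀ hMpos (by norm_num)]
        linarith
      have h2 : M0 / (c * B) ≤ 1 / 4 := by
        rw [div_le_div_iff₀ (by positivity) (by norm_num)]
        rw [div_le_iff₀ hcpos] at hBM
        linarith
      rw [hη]
      linarith
    have hη2 : η ≤ 3 / M + M0 / (c * B) := by
      rw [hη]
      linarith
    have hζneg : ζ.re < 0 := by
      rw [hζre, neg_lt_zero]
      exact mul_pos hapos (by linarith)
    refine hfin (qq ζ a (2 * B * L)) (qq_adm hS hζneg hapos (by positivity)) ?_ ?_ ?_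
    · intro v hv
      have hvH : v ∈ HH := hS.sub 0 hv
      have hv1 : a * (1 - η) ≤ ‖v - ζ‖ := by
        have h1 := Complex.re_le_norm (v - ζ)
        rw [Complex.sub_re, hζre] at h1
        have h2 : 0 < v.re := hvH
        linarith
      have hv0 : 0 < ‖v - ζ‖ := lt_of_lt_of_le (mul_pos hapos (by linarith)) hv1
      refine (qq_le ζ hapos (by positivity) hv0 (s := 2 * η) ?_).trans ?_
      · have h1 := Real.add_one_le_exp (2 * η)
        have h2 : 1 ≤ (2 * η + 1) * (1 - η) := by nlinarith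
        calc a = a * 1 := (mul_one a).symm
          _ ≤ a * ((2 * η + 1) * (1 - η)) := mul_le_mul_of_nonneg_left h2 hapos.le
          _ = (2 * η + 1) * (a * (1 - η)) := by ring
          _ ≤ Real.exp (2 * η) * ‖v - ζ‖ :=
              mul_le_mul h1 hv1 (mul_nonneg hapos.le (by linarith)) (Real.exp_pos _).le
      · apply Real.exp_le_exp.mpr
        have h1 : 2 * η * (2 * B * L) ≤ 2 * (3 / M + M0 / (c * B)) * (2 * B * L) := by
          refine mul_le_mul_of_nonneg_right ?_ (by positivity)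
          linarith
        have hBne : (B:ℝ) ≠ 0 := by positivity
        have h2 : 2 * (3 / M + M0 / (c * B)) * (2 * B * L) =
            12 * B * L / M + 4 * L * M0 / c := by
          field_simp
          ring
        rw [hCb]
        linarith
    · rw [qq_norm ζ hapos, hwζ, div_self hapos.ne', Real.one_rpow]
    · intro j hj v hv
      have h1 := hfar j hj v hv
      have h2 : R ≤ ‖v - z0‖ := by
        have h3 : v ∈ K N1 := anti' hS (Nat.le_add_right _ _) hv
        have h4 := infDist_le_dist_of_mem (x := z0) h3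
        rw [dist_comm, dist_eq_norm] at h4
        exact h4
      have h3 : ‖v - z0‖ ≤ ‖v - ζ‖ + ‖ζ - z0‖ := by
        have := norm_add_le (v - ζ) (ζ - z0)
        rwa [sub_add_sub_cancel] at this
      rw [hζz] at h3
      have h4 : a ≤ ‖v - ζ‖ := by linarith
      have hv0 : 0 < ‖v - ζ‖ := lt_of_lt_of_le hapos h4
      rcases le_or_gt ((j:ℝ) * L) 1 with hj1 | hj1
      · refine (qq_le ζ hapos (by positivity) hv0 (s := 0) ?_).trans ?_
        · rw [Real.exp_zero, one_mul]
          exact h4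
        · apply Real.exp_le_exp.mpr
          rw [zero_mul]
          linarith
      · set y : ℝ := ((j:ℝ) * L - 1) / (B * L) with hy
        have hy0 : 0 < y := div_pos (by linarith) hBL
        have hy1 : y ≤ 1 := by
          rw [hy, div_le_one hBL]
          have : (j:ℝ) ≤ B := by exact_mod_cast hj
          nlinarith
        have h5 : a * (1 + y) ≤ ‖v - ζ‖ := by
          have h6 := Real.add_one_le_exp (((j:ℝ) * L - 1) / k)
          have h7 := mul_le_mul_of_nonneg_left h6 hRp.le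
          have h8 : R * (((j:ℝ) * L - 1) / k + 1) = R + a * y := by
            rw [ha, hy, hgdef]
            field_simp
            ring
          rw [h8] at h7
          linarith
        refine (qq_le ζ hapos (by positivity) hv0 (s := -(y / 2)) ?_).trans ?_
        · have h6 := Real.add_one_le_exp (-(y / 2))
          have h7 : 1 ≤ (-(y / 2) + 1) * (1 + y) := by nlinarith
          calc a = a * 1 := (mul_one a).symm
            _ ≤ a * ((-(y / 2) + 1) * (1 + y)) := mul_le_mul_of_nonneg_left h7 hapos.le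
            _ = (-(y / 2) + 1) * (a * (1 + y)) := by ring
            _ ≤ Real.exp (-(y / 2)) * ‖v - ζ‖ :=
                mul_le_mul h6 h5 (by positivity) (Real.exp_pos _).le
        · apply Real.exp_le_exp.mpr
          apply le_of_eq
          rw [hy]
          field_simp
          ring

end Pool.Agent.T6.H4.SG
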