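import Mathlib

/-! # Definitions for the semigroup property (MP_ff3f8e_an) -/

open Set Metric Filter Topology

noncomputable section

namespace Pool.Agent.T6.H4.SG

/-- The open right half plane. -/
def HH : Set ℂ := {w | 0 < w.re}

/-- A holomorphic self map of the right half plane that moves every point to the right or keeps the
real part, with a shrinking sequence of closed images. -/
structure Sys (F : ℂ → ℂ) (K : ℕ → Set ℂ) (N : ℕ) : Prop where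
  hol : DifferentiableOn ℂ F HH
  mono : ∀ w ∈ HH, w.re ≤ (F w).re
  anti : ∀ n, K (n + 1) ⊆ K n
  closed : ∀ n, IsClosed (K n)
  sub : ∀ n, K n ⊆ HH
  img : ∀ n, F '' K n = K (n + 1)
  orb : ∀ n, ∀ w ∈ HH, F^[N + n] w ∈ K n
  far : ∀ R : ℝ, ∃ n, ∀ w ∈ K n, R ≤ ‖w‖
  inf : ∀ R : ℝ, ∃ R' : ℝ, ∀ w ∈ HH, R' ≤ ‖w‖ → R ≤ ‖F w‖

/-- Holomorphic near `K`, and tending to zero at infinity on `K`. -/
structure Adm (K : Set ℂ) (q : ℂ → ℂ) : Prop where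
  hol : ∃ U : Set ℂ, IsOpen U ∧ K ⊆ U ∧ DifferentiableOn ℂ q U
  van : ∀ ε : ℝ, 0 < ε → ∃ R : ℝ, ∀ w ∈ K, R ≤ ‖w‖ → ‖q w‖ ≤ ε

/-- Lower bound for `T - l` on the sets `K n`. -/
def U1 (F : ℂ → ℂ) (K : ℕ → Set ℂ) (l : ℂ) (C0 : ℝ) : Prop :=
  ∀ (n : ℕ) (q : ℂ → ℂ) (M : ℝ), Adm (K n) q → (∀ w ∈ K n, ‖q (F w) - l * q w‖ ≤ M) →
    ∀ w ∈ K n, ‖q w‖ ≤ C0 * M

/-- Solvability for `T - l`. -/
def U2 (F : ℂ → ℂ) (K : ℕ → Set ℂ) (N : ℕ) (l : ℂ) (C0 : ℝ) : Prop :=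
  ∀ (n : ℕ) (q : ℂ → ℂ) (M : ℝ), Adm (K n) q → (∀ w ∈ K n, ‖q w‖ ≤ M) →
    ∃ f : ℂ → ℂ, DifferentiableOn ℂ f HH ∧ (∀ w ∈ HH, ‖f w‖ ≤ C0 * M) ∧
      ∀ w ∈ HH, f (F w) - l * f w = q (F^[N + n] w)

/-- The displacement is small relative to the real part, far out. -/
def Small (F : ℂ → ℂ) (K : ℕ → Set ℂ) : Prop :=
  ∀ c : ℝ, 0 < c → ∃ n, ∀ w ∈ K n, ‖F w - w‖ ≤ c * w.re

/-- Union of the open discs of radius half the real part, centred on `K n`. -/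
def Nb (K : ℕ → Set ℂ) (n : ℕ) : Set ℂ := {v | ∃ w ∈ K n, ‖v - w‖ < w.re / 2}

/-- Closed sets mapped into themselves by `1` and by a full disc of translations. -/
structure ESet (E : Set ℂ) (m : ℕ) : Prop where
  closed : IsClosed E
  ne : E.Nonempty
  nuniv : E ≠ univ
  pos : 1 ≤ m
  one : ∀ z ∈ E, z + 1 ∈ E
  fat : ∀ z ∈ E, ∀ s ∈ closedBall (m : ℂ) 1, z + s ∈ E

/-- Lower bound for translation minus `l` on `E`. -/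
def U1E (E : Set ℂ) (l : ℂ) (C0 : ℝ) : Prop :=
  ∀ (q : ℂ → ℂ) (M : ℝ), Adm E q → (∀ z ∈ E, ‖q (z + 1) - l * q z‖ ≤ M) →
    ∀ z ∈ E, ‖q z‖ ≤ C0 * M

/-- Solvability for translation minus `l` on `E`. -/
def U2E (E : Set ℂ) (l : ℂ) (C0 : ℝ) (N : ℕ) : Prop :=
  ∀ (g : ℂ → ℂ) (M : ℝ), Adm E g → (∀ z ∈ E, ‖g z‖ ≤ M) →
    ∃ f : ℂ → ℂ, (∃ V : Set ℂ, IsOpen V ∧ E ⊆ V ∧ DifferentiableOn ℂ f V) ∧
      (∀ z ∈ E, ‖f z‖ ≤ C0 * M) ∧ ∀ z ∈ E, f (z + 1) - l * f z = g (z + N)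

/-- The left boundary of `E` is a coarse Lipschitz graph. -/
structure Lft (E : Set ℂ) (b : ℝ → ℝ) (A : ℝ) : Prop where
  pos : 1 ≤ A
  low : ∀ z ∈ E, b z.im ≤ z.re
  mem : ∀ z : ℂ, b z.im + A ≤ z.re → z ∈ E
  lip : ∀ y y' : ℝ, |b y - b y'| ≤ A * (1 + |y - y'|)

/-- `Re (ζ z)` at the left boundary point of height `y`. -/
def el (b : ℝ → ℝ) (ζ : ℂ) (y : ℝ) : ℝ := ζ.re * b y - ζ.im * y

/-- The linearizing coordinate and its inverse. -/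
structure Fat (F : ℂ → ℂ) (K : ℕ → Set ℂ) (n m : ℕ) (Φ Ψ : ℂ → ℂ) (V : Set ℂ) : Prop where
  hol : DifferentiableOn ℂ Φ HH
  abel : ∀ w ∈ HH, Φ (F w) = Φ w + 1
  opn : IsOpen V
  sub : Φ '' K n ⊆ V
  holi : DifferentiableOn ℂ Ψ V
  mem : ∀ z ∈ V, Ψ z ∈ HH ∧ Φ (Ψ z) = z
  inv : ∀ w ∈ K n, Ψ (Φ w) = w
  prop : ∀ R : ℝ, ∃ R' : ℝ, ∀ w ∈ K n, R' ≤ ‖w‖ → R ≤ ‖Φ w‖
  eset : ESet (Φ '' K n) m

end Pool.Agent.T6.H4.SG
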