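import Pool.Agent.KS6_19.DA.L.T6.H4.SG.Stm2
import Pool.Agent.KS6_19.DA.L.Helper203.DS.TM

/-! # Final assembly (MP_ff3f8e_an) -/

open Set Metric Filter Topology Pool.Agent.Helper203.DS

noncomputable section

namespace Pool.Agent.T6.H4.SG

theorem shr_ne_zero {T : Op} {a : ℂ} (h : Shr T a) : T ≠ 0 := by
  intro h0
  obtain ⟨ha, _, hc, _⟩ := h
  have h1 : Tendsto (fun n : ℕ => (T ^ (n + 1)) Z) atTop (𝓝 (algebraMap ℂ DA a)) :=
    hc.comp (tendsto_add_atTop_nat 1)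
  have h2 : (fun n : ℕ => (T ^ (n + 1)) Z) = fun _ => (0 : DA) := by
    funext n
    rw [pow_succ, h0, mul_zero]
    rfl
  rw [h2] at h1
  have h3 := tendsto_nhds_unique h1 tendsto_const_nhds
  have h4 : a = 0 := by
    have := congrArg (fun f : DA => f.1 ⟨0, by simp⟩) h3
    simpa using this
  rw [h4, norm_zero] at ha
  exact zero_ne_one ha

theorem spec_norm_le {T : Op} {P : Pt → Pt} (h : IsComp T P) {l : ℂ} (hl : l ∈ spectrum ℂ T) :
    ‖l‖ ≤ 1 := by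
  have h1 : ‖T‖ ≤ 1 := by
    refine ContinuousLinearMap.opNorm_le_bound _ zero_le_one fun f => ?_
    rw [one_mul]
    exact h.norm_le f
  exact spec_sub_aux T h1 hl

theorem one_mem_spec {T : Op} {P : Pt → Pt} (h : IsComp T P) : (1 : ℂ) ∈ spectrum ℂ T := by
  intro hu
  have h1 : IsUnit ((algebraMap ℂ Op) 1 - T) := hu
  obtain ⟨u, hu⟩ := h1
  have ha : (algebraMap ℂ Op) 1 = 1 := map_one _
  rw [ha] at hu
  have h2 : ((1 : Op) - T) (1 : DA) = 0 := by
    rw [_root_.sub_apply, h.one]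
    exact sub_self _
  have h3 : (((u⁻¹ : Opˣ) : Op) * ((1 : Op) - T)) (1 : DA) = 0 := by
    show ((u⁻¹ : Opˣ) : Op) (((1 : Op) - T) (1 : DA)) = 0
    rw [h2, map_zero]
  rw [← hu, Units.inv_mul] at h3
  have h4 : (1 : DA) = 0 := h3
  have h5 := congrArg (fun f : DA => f.1 ⟨0, by simp⟩) h4
  simp at h5

/-- all module statements -/
structure Mods : Prop where
  th1 : S_TH1
  abel : S_ABEL
  fat1 : S_FAT1
  fat2 : S_FAT2
  tra : S_TRA
  lp : S_LP
  char : S_CHAR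
  sit : S_SIT
  sys : S_SYS
  ru1 : S_RU1
  ru2 : S_RU2
  ops : S_OPS

theorem shr_semigroup (M : Mods) (T : Op) (hT : ∀ f g : DA, T (f * g) = T f * T g) (a : ℂ)
    (ha : Shr T a) (l1 : ℂ) (h1 : l1 ∈ spectrum ℂ T) (l2 : ℂ) (h2 : l2 ∈ spectrum ℂ T) :
    l1 * l2 ∈ spectrum ℂ T := by
  have hT1 : T 1 = 1 := by
    rcases T_one_cases T hT with h | h
    · exact absurd h (shr_ne_zero ha)
    · exact h
  obtain ⟨P, hP⟩ := exists_phi T hT hT1
  by_contra hl
  have hl1 : l1 ≠ 0 := by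
    rintro rfl
    rw [zero_mul] at hl
    exact hl h1
  have hl2 : l2 ≠ 0 := by
    rintro rfl
    rw [mul_zero] at hl
    exact hl h2
  obtain ⟨N, hS⟩ := M.sit T P a hP ha
  have hSys := M.sys T P a N hS
  set l : ℂ := l1 * l2 with hldef
  have hlne : l ≠ 0 := mul_ne_zero hl1 hl2
  have hlle : ‖l‖ ≤ 1 := by
    rw [hldef, norm_mul]
    calc ‖l1‖ * ‖l2‖ ≤ 1 * 1 := mul_le_mul (spec_norm_le hP h1) (spec_norm_le hP h2)
          (norm_nonneg _) zero_le_one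
      _ = 1 := one_mul 1
  -- a nearby point of the resolvent set inside the disc
  obtain ⟨r0, C0, hr0, hU1⟩ := M.ru1 T P a N hS hSys l hl
  have hsmall : Small (FF a P) (KS a P N) := by
    -- choose t < 1 close to one
    obtain ⟨t, ht0, ht1, ht2⟩ : ∃ t : ℝ, 0 < t ∧ t < 1 ∧ 1 - t < r0 / 2 := by
      refine ⟨max (1 / 2) (1 - r0 / 4), ?_, ?_, ?_⟩
      · exact lt_max_of_lt_left (by norm_num)
      · exact max_lt (by norm_num) (by linarith)
      · have := le_max_right (1 / 2 : ℝ) (1 - r0 / 4)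
        linarith
    have hln : 0 < ‖l‖ := norm_pos_iff.2 hlne
    refine M.th1 (FF a P) (KS a P N) N hSys ((t : ℂ) * l) (r0 / 2) C0 ?_ ?_ (by linarith) ?_
    · rw [norm_mul, Complex.norm_real, Real.norm_eq_abs, abs_of_pos ht0]
      positivity
    · rw [norm_mul, Complex.norm_real, Real.norm_eq_abs, abs_of_pos ht0]
      nlinarith
    · intro μ hμ
      apply hU1
      rw [mem_ball, dist_eq_norm] at hμ ⊢
      have h3 : ‖(t : ℂ) * l - l‖ < r0 / 2 := by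
        have h4 : (t : ℂ) * l - l = ((t - 1 : ℝ) : ℂ) * l := by push_cast; ring
        rw [h4, norm_mul, Complex.norm_real, Real.norm_eq_abs, abs_of_nonpos (by linarith)]
        nlinarith
      calc ‖μ - l‖ = ‖(μ - (t : ℂ) * l) + ((t : ℂ) * l - l)‖ := by congr 1; ring
        _ ≤ ‖μ - (t : ℂ) * l‖ + ‖(t : ℂ) * l - l‖ := norm_add_le _ _
        _ < r0 := by linarith
  obtain ⟨Φ, hΦd, hΦa, n, hinj⟩ := M.abel _ _ _ hSys hsmall
  obtain ⟨⟨m, hm, hfat⟩, hprop⟩ := M.fat1 _ _ _ hSys hsmall Φ n hΦd hΦa hinj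
  obtain ⟨Ψ, V, hF⟩ := M.fat2 _ _ _ hSys Φ n m hΦd hΦa hinj hm hfat hprop
  obtain ⟨TT, hTn, hTm, hTT, hT0, hTd⟩ := M.ops T P a N hS hSys n m Φ Ψ V hF
  set E : Set ℂ := Φ '' KS a P N n with hE
  set S : Set ℂ := {s | ∀ z ∈ E, z + s ∈ E} with hSdef
  have hS0 : (0 : ℂ) ∈ S := fun z hz => by rw [add_zero]; exact hz
  have hS1 : (1 : ℂ) ∈ S := fun z hz => hF.eset.one z hz
  have hSa : ∀ s ∈ S, ∀ t ∈ S, s + t ∈ S := by
    intro s hs t ht z hz
    rw [← add_assoc]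
    exact ht _ (hs z hz)
  have hSb : closedBall (m : ℂ) 1 ⊆ S := fun s hs z hz => hF.eset.fat z hz s hs
  have : NormOneClass Op := ⟨by
    have : Nontrivial DA := inferInstance
    exact ContinuousLinearMap.norm_id⟩
  have hchar := M.char Op T S TT (N + n) m hS0 hS1 hSa hSb (fun s hs => hTn s hs)
    (fun s hs t ht => hTm s hs t ht) (fun s hs => hTT s hs) hT0 hTd
  obtain ⟨ζ1, hζ1, hp1⟩ := hchar l1 h1 hl1
  obtain ⟨ζ2, hζ2, hp2⟩ := hchar l2 h2 hl2
  have hζ : Complex.exp (-(ζ1 + ζ2)) = l := by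
    rw [neg_add, Complex.exp_add, hζ1, hζ2]
  have hre1 : 0 ≤ ζ1.re := by simpa using hp1 1 hS1
  have hre2 : 0 ≤ ζ2.re := by simpa using hp2 1 hS1
  rcases lt_or_ge 0 (ζ1 + ζ2).re with hpos | hneg
  · obtain ⟨C2, hU2⟩ := M.ru2 T P a N hS hSys l hl
    obtain ⟨hA, _⟩ := M.tra _ _ _ hSys n m Φ Ψ V hF l C0
    obtain ⟨_, hB⟩ := M.tra _ _ _ hSys n m Φ Ψ V hF l C2
    have hA' := hA (hU1 l (mem_ball_self hr0))
    have hB' := hB hU2
    have hA'' : U1E E (Complex.exp (-(ζ1 + ζ2))) (max C0 C2) := by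
      rw [hζ]
      intro q Mq hq hb z hz
      refine (hA' q Mq hq hb z hz).trans ?_
      have hM0 : 0 ≤ Mq := (norm_nonneg _).trans (hb z hz)
      exact mul_le_mul_of_nonneg_right (le_max_left _ _) hM0
    have hB'' : U2E E (Complex.exp (-(ζ1 + ζ2))) (max C0 C2) (N + n) := by
      rw [hζ]
      intro g Mg hg hb
      obtain ⟨f, hf1, hf2, hf3⟩ := hB' g Mg hg hb
      refine ⟨f, hf1, fun z hz => (hf2 z hz).trans ?_, hf3⟩
      have hM0 : 0 ≤ Mg := (norm_nonneg _).trans (hb z hz)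
      exact mul_le_mul_of_nonneg_right (le_max_right _ _) hM0
    obtain ⟨s, hs, hlt⟩ := M.lp E m (ζ1 + ζ2) (max C0 C2) (N + n) hF.eset hpos hA'' hB''
    have h3 := hp1 s hs
    have h4 := hp2 s hs
    rw [add_mul, Complex.add_re] at hlt
    linarith
  · rw [Complex.add_re] at hneg
    have e1 : ζ1.re = 0 := by linarith
    have e2 : ζ2.re = 0 := by linarith
    have him : ∀ ζ : ℂ, ζ.re = 0 → (∀ s ∈ S, 0 ≤ (ζ * s).re) → ζ.im = 0 := by
      intro ζ hz hp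
      have hb1 : (m : ℂ) + Complex.I ∈ closedBall (m : ℂ) 1 := by
        rw [mem_closedBall, dist_eq_norm]; simp
      have hb2 : (m : ℂ) - Complex.I ∈ closedBall (m : ℂ) 1 := by
        rw [mem_closedBall, dist_eq_norm]; simp
      have h5 := hp _ (hSb hb1)
      have h6 := hp _ (hSb hb2)
      rw [Complex.mul_re] at h5 h6
      simp [hz] at h5 h6
      linarith
    have z1 : ζ1 = 0 := Complex.ext e1 (him ζ1 e1 hp1)
    have z2 : ζ2 = 0 := Complex.ext e2 (him ζ2 e2 hp2)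
    rw [z1, z2] at hζ
    simp only [add_zero, neg_zero, Complex.exp_zero] at hζ
    rw [← hζ] at hl
    exact hl (one_mem_spec hP)

theorem full (M : Mods) (T : Op) (hT : ∀ f g : DA, T (f * g) = T f * T g) :
    ∀ l ∈ spectrum ℂ T, ∀ m ∈ spectrum ℂ T, l * m ∈ spectrum ℂ T := by
  by_cases h : TM.Exc T
  · obtain ⟨a, ha, _⟩ := h
    intro l hl m hm
    exact shr_semigroup M T hT a ha l hl m hm
  · exact (TM.main T hT).1 h

end Pool.Agent.T6.H4.SG
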