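import Pool.Agent.KS6_19.DA.L.T6.H4.SG.Stm

/-! # Module LOC (helper71): small displacement (MP_ff3f8e_an) -/

set_option autoImplicit false

open Set Metric Filter Topology

noncomputable section

namespace Pool.Agent.T6.H4.SG

namespace LOCx

variable {F : ℂ → ℂ} {K : ℕ → Set ℂ} {N : ℕ}

theorem mapsHH (hS : Sys F K N) : ∀ w ∈ HH, F w ∈ HH := fun w hw =>
  lt_of_lt_of_le (show (0 : ℝ) < w.re from hw) (hS.mono w hw)

theorem iter_mem (hS : Sys F K N) (m : ℕ) : ∀ w ∈ HH, F^[m] w ∈ HH := by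
  induction m with
  | zero => exact fun w hw => hw
  | succ m ih =>
    intro w hw
    rw [Function.iterate_succ_apply']
    exact mapsHH hS _ (ih w hw)

theorem iter_re (hS : Sys F K N) (m : ℕ) : ∀ w ∈ HH, w.re ≤ (F^[m] w).re := by
  induction m with
  | zero => exact fun w _ => le_rfl
  | succ m ih =>
    intro w hw
    rw [Function.iterate_succ_apply']
    exact (ih w hw).trans (hS.mono _ (iter_mem hS m w hw))

theorem iter_diff (hS : Sys F K N) (m : ℕ) : DifferentiableOn ℂ (F^[m]) HH := by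
  induction m with
  | zero => exact differentiableOn_id
  | succ m ih =>
    rw [Function.iterate_succ']
    exact hS.hol.comp ih (iter_mem hS m)

theorem anti_le (hS : Sys F K N) {a b : ℕ} (h : a ≤ b) : K b ⊆ K a := by
  induction b, h using Nat.le_induction with
  | base => exact le_rfl
  | succ b _ ih => exact (hS.anti b).trans ih

theorem iter_K (hS : Sys F K N) {n : ℕ} (i : ℕ) : ∀ w ∈ K n, F^[i] w ∈ K n := by
  induction i with
  | zero => exact fun w hw => hw
  | succ i ih =>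
    intro w hw
    rw [Function.iterate_succ_apply']
    apply hS.anti n
    rw [← hS.img n]
    exact mem_image_of_mem F (ih w hw)

theorem inj (hP : S_PICK) (hS : Sys F K N) (hsm : Small F K) : ∃ n, InjOn F (K n) := by
  obtain ⟨n, hn⟩ := hsm (1 / 2) (by norm_num)
  refine ⟨n, fun w hw w' hw' he => ?_⟩
  have hd : DifferentiableOn ℂ (fun w => F w - w) HH := hS.hol.sub differentiableOn_id
  have hw0 : (0 : ℝ) < w.re := hS.sub n hw
  have hw0' : (0 : ℝ) < w'.re := hS.sub n hw'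
  have h1 := hP (fun w => F w - w) hd (fun w hw => by
    rw [Complex.sub_re]
    linarith [hS.mono w hw]) w hw0 w' hw0'
  have e : (F w - w) - (F w' - w') = -(w - w') := by rw [he]; ring
  simp only [e, norm_neg] at h1
  have h2 : (F w - w).re ≤ 1 / 2 * w.re := (Complex.re_le_norm _).trans (hn w hw)
  have h3 : (F w' - w').re ≤ 1 / 2 * w'.re := (Complex.re_le_norm _).trans (hn w' hw')
  have h2' : 0 ≤ (F w - w).re := by
    rw [Complex.sub_re]
    linarith [hS.mono w (hS.sub n hw)]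
  have h4 : (F w - w).re * (F w' - w').re ≤ (1 / 2 * w.re) * (1 / 2 * w'.re) := by
    have h3' : 0 ≤ (F w' - w').re := by
      rw [Complex.sub_re]
      linarith [hS.mono w' (hS.sub n hw')]
    exact mul_le_mul h2 h3 h3' (by positivity)
  have h5 : ‖w - w'‖ ^ 2 * (w.re * w'.re) ≤ (1 / 2 * w.re) * (1 / 2 * w'.re) * ‖w - w'‖ ^ 2 :=
    h1.trans (mul_le_mul_of_nonneg_right h4 (sq_nonneg _))
  have h6 : 0 < w.re * w'.re := mul_pos hw0 hw0'
  have h7 : ‖w - w'‖ ^ 2 = 0 := by
    have h8 : 0 ≤ ‖w - w'‖ ^ 2 := sq_nonneg _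
    by_contra hne
    have h9 : 0 < ‖w - w'‖ ^ 2 := lt_of_le_of_ne h8 (Ne.symm hne)
    nlinarith [mul_pos h9 h6]
  exact sub_eq_zero.1 (norm_eq_zero.1 (pow_eq_zero_iff two_ne_zero |>.1 h7))

theorem exists_c (m : ℕ) : ∃ c : ℝ, 0 < c ∧ (1 + c) ^ m - 1 ≤ 1 / 1000 := by
  have hc : Tendsto (fun c : ℝ => (1 + c) ^ m) (𝓝[>] 0) (𝓝 ((1 + 0) ^ m)) :=
    (((continuous_const.add continuous_id).pow m).tendsto 0).mono_left nhdsWithin_le_nhds
  rw [add_zero, one_pow] at hc
  have h1 : ∀ᶠ c in 𝓝[>] (0 : ℝ), (1 + c) ^ m < 1 + 1 / 1000 :=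
    hc.eventually (gt_mem_nhds (by norm_num))
  have h2 : ∀ᶠ c in 𝓝[>] (0 : ℝ), 0 < c := eventually_mem_nhdsWithin
  obtain ⟨c, hc1, hc2⟩ := (h1.and h2).exists
  exact ⟨c, hc2, by linarith⟩

theorem disp (hS : Sys F K N) {n : ℕ} {c : ℝ} (hc : 0 < c)
    (hn : ∀ w ∈ K n, ‖F w - w‖ ≤ c * w.re) (i : ℕ) : ∀ w ∈ K n,
    (F^[i] w).re ≤ (1 + c) ^ i * w.re ∧ ‖F^[i] w - w‖ ≤ ((1 + c) ^ i - 1) * w.re := by
  induction i with
  | zero => intro w _; simp
  | succ i ih =>
    intro w hw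
    obtain ⟨h1, h2⟩ := ih w hw
    have h3 := hn _ (iter_K hS i w hw)
    rw [Function.iterate_succ_apply']
    have h4 : (F (F^[i] w)).re - (F^[i] w).re ≤ ‖F (F^[i] w) - F^[i] w‖ := by
      rw [← Complex.sub_re]
      exact Complex.re_le_norm _
    have h5 : c * (F^[i] w).re ≤ c * ((1 + c) ^ i * w.re) := mul_le_mul_of_nonneg_left h1 hc.le
    constructor
    · have : (1 + c) ^ (i + 1) * w.re = (1 + c) ^ i * w.re + c * ((1 + c) ^ i * w.re) := by ring
      rw [this]
      linarith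
    · have e : F (F^[i] w) - w = (F (F^[i] w) - F^[i] w) + (F^[i] w - w) := by ring
      rw [e]
      have h6 := norm_add_le (F (F^[i] w) - F^[i] w) (F^[i] w - w)
      have : ((1 + c) ^ (i + 1) - 1) * w.re =
          c * ((1 + c) ^ i * w.re) + ((1 + c) ^ i - 1) * w.re := by ring
      rw [this]
      linarith

/-- Banach's fixed point theorem on a closed ball -/
theorem fix {D : ℂ → ℂ} {v : ℂ} {ρ : ℝ} (hρ : 0 ≤ ρ)
    (h1 : ∀ u ∈ closedBall v ρ, ‖D u‖ ≤ ρ)
    (h2 : ∀ u ∈ closedBall v ρ, ∀ u' ∈ closedBall v ρ, ‖D u - D u'‖ ≤ 1 / 2 * ‖u - u'‖) :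
    ∃ u ∈ closedBall v ρ, u + D u = v := by
  set G : ℂ → ℂ := fun u => v - D u with hG
  have hmaps : MapsTo G (closedBall v ρ) (closedBall v ρ) := by
    intro u hu
    rw [mem_closedBall, dist_eq_norm, hG]
    have : v - D u - v = - D u := by ring
    rw [this, norm_neg]
    exact h1 u hu
  have hcon : ContractingWith (1 / 2 : NNReal) (hmaps.restrict G _ _) := by
    refine ⟨?_, ?_⟩
    · rw [← NNReal.coe_lt_coe]
      norm_num
    · refine LipschitzWith.of_dist_le_mul fun a b => ?_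
      rw [Subtype.dist_eq, Subtype.dist_eq, dist_eq_norm, dist_eq_norm]
      show ‖(v - D a) - (v - D b)‖ ≤ _
      have : (v - D a.1) - (v - D b.1) = -(D a.1 - D b.1) := by ring
      rw [this, norm_neg]
      have h3 := h2 a.1 a.2 b.1 b.2
      simpa using h3
  obtain ⟨u, hu, hfix, -⟩ := ContractingWith.exists_fixedPoint' (x := v)
    (isClosed_closedBall (x := v) (ε := ρ)).isComplete hmaps hcon (mem_closedBall_self hρ)
    (edist_ne_top _ _)
  refine ⟨u, hu, ?_⟩
  have h3 : v - D u = u := hfix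
  rw [← h3]
  nth_rewrite 2 [h3]
  ring

end LOCx

open LOCx in
theorem t_LOC (hP : S_PICK) (hH : S_HAR) : S_LOC := by
  intro F K N hS hsm
  refine ⟨inj hP hS hsm, fun n0 => ?_⟩
  obtain ⟨c, hc0, hc⟩ := exists_c (N + n0)
  obtain ⟨n', hn'⟩ := hsm c hc0
  refine ⟨max n' n0, le_max_right _ _, fun w hw v hv => ?_⟩
  have hwn' : w ∈ K n' := anti_le hS (le_max_left _ _) hw
  have hx : (0 : ℝ) < w.re := hS.sub _ hw
  set m := N + n0 with hm
  set D : ℂ → ℂ := fun u => F^[m] u - u with hD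
  have hDw : ‖D w‖ ≤ 1 / 1000 * w.re :=
    ((disp hS hc0 hn' m w hwn').2).trans (mul_le_mul_of_nonneg_right hc hx.le)
  have hDd : DifferentiableOn ℂ D HH := (iter_diff hS m).sub differentiableOn_id
  obtain ⟨-, H2, H3⟩ := hH D hDd (fun u hu => by
    rw [hD]
    simp only [Complex.sub_re]
    linarith [iter_re hS m u hu])
  rw [mem_closedBall, dist_eq_norm] at hv
  have hnear : ∀ u ∈ closedBall v (w.re / 8), ‖u - w‖ ≤ 5 / 8 * w.re := by
    intro u hu
    rw [mem_closedBall, dist_eq_norm] at hu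
    have e : u - w = (u - v) + (v - w) := by ring
    rw [e]
    have := norm_add_le (u - v) (v - w)
    linarith
  obtain ⟨u, hu, hfix⟩ := fix (D := D) (v := v) (ρ := w.re / 8) (by positivity)
    (fun u hu => by
      have h1 := (H2 w hx u (by linarith [hnear u hu])).1
      linarith)
    (fun u hu u' hu' => by
      have h1 := H3 w hx u u' (by linarith [hnear u hu]) (by linarith [hnear u' hu'])
      have h2 : 128 * ‖D w‖ * ‖u - u'‖ ≤ 128 * (1 / 1000 * w.re) * ‖u - u'‖ :=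
        mul_le_mul_of_nonneg_right (by linarith) (norm_nonneg _)
      have h3 : ‖D u - D u'‖ * w.re ≤ (1 / 2 * ‖u - u'‖) * w.re := by
        have := mul_nonneg (norm_nonneg (u - u')) hx.le
        nlinarith
      exact le_of_mul_le_mul_right h3 hx)
  have huw := hnear u hu
  have huH : u ∈ HH := by
    show (0 : ℝ) < u.re
    have h1 : |(u - w).re| ≤ ‖u - w‖ := Complex.abs_re_le_norm _
    rw [Complex.sub_re] at h1
    have h2 := (abs_le.1 h1).1
    linarith
  have h3 : F^[m] u = v := by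
    rw [← hfix, hD]
    ring
  rw [← h3]
  exact hS.orb n0 u huH

end Pool.Agent.T6.H4.SG
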