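import Pool.Agent.KS6_19.DA.L.T6.H4.SG.Stm2

/-! # Module OPS: the operator semigroup (MP_ff3f8e_an) -/

open Set Metric Filter Topology Pool.Agent.Helper203.DS

noncomputable section

namespace Pool.Agent.T6.H4.SG.OPSx

/-- The symbols of the operators, as complex valued functions. -/
def qc (a : ℂ) (P : Pt → Pt) (k : ℕ) (Φ Ψ : ℂ → ℂ) (s : ℂ) (z : Pt) : ℂ := by
  classical
  exact if ((P^[k] z : Pt) : ℂ) = a then a else ic a (Ψ (Φ (Cay a ((P^[k] z : Pt) : ℂ)) + s))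

theorem qc_a {a : ℂ} {P : Pt → Pt} {k : ℕ} {Φ Ψ : ℂ → ℂ} {s : ℂ} {z : Pt}
    (h : ((P^[k] z : Pt) : ℂ) = a) : qc a P k Φ Ψ s z = a := by
  unfold qc
  rw [if_pos h]

theorem qc_ne {a : ℂ} {P : Pt → Pt} {k : ℕ} {Φ Ψ : ℂ → ℂ} {s : ℂ} {z : Pt}
    (h : ((P^[k] z : Pt) : ℂ) ≠ a) :
    qc a P k Φ Ψ s z = ic a (Ψ (Φ (Cay a ((P^[k] z : Pt) : ℂ)) + s)) := by
  unfold qc
  rw [if_neg h]

theorem ne_of {a z : ℂ} (ha : ‖a‖ = 1) (hz : ‖z‖ < 1) : z ≠ a := by
  rintro rfl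
  linarith

theorem inn_iter {T : Op} {P : Pt → Pt} {a : ℂ} {N : ℕ} (hS : Sit T P a N) (z : Pt)
    (hz : ‖(z : ℂ)‖ < 1) (k : ℕ) : ‖((P^[k] z : Pt) : ℂ)‖ < 1 := by
  induction k with
  | zero => simpa using hz
  | succ k ih => rw [Function.iterate_succ_apply']; exact hS.inn _ ih

theorem fix_iter {T : Op} {P : Pt → Pt} {a : ℂ} {N : ℕ} (hS : Sit T P a N) (z : Pt)
    (hz : (z : ℂ) = a) (k : ℕ) : ((P^[k] z : Pt) : ℂ) = a := by
  induction k with
  | zero => simpa using hz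
  | succ k ih => rw [Function.iterate_succ_apply']; exact hS.fix _ ih

theorem lt_of {T : Op} {P : Pt → Pt} {a : ℂ} {N : ℕ} (hS : Sit T P a N) (n : ℕ) (z : Pt)
    (h : ((P^[N + n] z : Pt) : ℂ) ≠ a) : ‖((P^[N + n] z : Pt) : ℂ)‖ < 1 := by
  rw [Function.iterate_add_apply] at h ⊢
  rcases hS.disc (P^[n] z) with h1 | h1
  · exact absurd h1 h
  · exact h1

theorem FF_cay {T : Op} {P : Pt → Pt} {a : ℂ} {N : ℕ} (hS : Sit T P a N) (z : Pt)
    (hz : ‖(z : ℂ)‖ < 1) : FF a P (Cay a (z : ℂ)) = Cay a ((P z : Pt) : ℂ) := by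
  unfold FF
  rw [ic_cay a _ hS.norm (ne_of hS.norm hz), ext_apply]

theorem FF_iter {T : Op} {P : Pt → Pt} {a : ℂ} {N : ℕ} (hS : Sit T P a N) (z : Pt)
    (hz : ‖(z : ℂ)‖ < 1) (k : ℕ) :
    (FF a P)^[k] (Cay a (z : ℂ)) = Cay a ((P^[k] z : Pt) : ℂ) := by
  induction k with
  | zero => rfl
  | succ k ih =>
    rw [Function.iterate_succ_apply', Function.iterate_succ_apply', ih,
      FF_cay hS _ (inn_iter hS z hz k)]

theorem abel_iter {F : ℂ → ℂ} {K : ℕ → Set ℂ} {N : ℕ} (hSys : Sys F K N) {Φ : ℂ → ℂ}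
    (hΦ : ∀ w ∈ HH, Φ (F w) = Φ w + 1) (w : ℂ) (hw : w ∈ HH) (k : ℕ) :
    F^[k] w ∈ HH ∧ Φ (F^[k] w) = Φ w + k := by
  induction k with
  | zero => exact ⟨hw, by simp⟩
  | succ k ih =>
    rw [Function.iterate_succ_apply']
    refine ⟨lt_of_lt_of_le ih.1 (hSys.mono _ ih.1), ?_⟩
    rw [hΦ _ ih.1, ih.2]
    push_cast
    ring

theorem back {F : ℂ → ℂ} {K : ℕ → Set ℂ} {n m : ℕ} {Φ Ψ : ℂ → ℂ} {V : Set ℂ}
    (hF : Fat F K n m Φ Ψ V) {s : ℂ} (hs : ∀ z ∈ Φ '' K n, z + s ∈ Φ '' K n) {w : ℂ}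
    (hw : w ∈ K n) : Ψ (Φ w + s) ∈ K n ∧ Φ (Ψ (Φ w + s)) = Φ w + s := by
  obtain ⟨k, hk, e⟩ := hs (Φ w) ⟨w, hw, rfl⟩
  rw [← e, hF.inv k hk]
  exact ⟨hk, rfl⟩

theorem HH_ne {w : ℂ} (hw : w ∈ HH) : w + 1 ≠ 0 := by
  intro h
  have h1 := congrArg Complex.re h
  have h2 : (0 : ℝ) < w.re := hw
  simp at h1
  linarith

theorem isOpen_HH : IsOpen HH := isOpen_lt continuous_const Complex.continuous_re

section main

variable {T : Op} {P : Pt → Pt} {a : ℂ} {N : ℕ} (hS : Sit T P a N)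
  (hSys : Sys (FF a P) (KS a P N) N) {n m : ℕ} {Φ Ψ : ℂ → ℂ} {V : Set ℂ}
  (hF : Fat (FF a P) (KS a P N) n m Φ Ψ V)

include hS hSys hF

theorem qc_lt {s : ℂ} (hs : ∀ z ∈ Φ '' KS a P N n, z + s ∈ Φ '' KS a P N n) (z : Pt)
    (h : ((P^[N + n] z : Pt) : ℂ) ≠ a) : ‖qc a P (N + n) Φ Ψ s z‖ < 1 := by
  rw [qc_ne h]
  apply ic_norm _ _ hS.norm
  exact hSys.sub n (back hF hs ⟨z, h, rfl⟩).1

theorem qc_le {s : ℂ} (hs : ∀ z ∈ Φ '' KS a P N n, z + s ∈ Φ '' KS a P N n) (z : Pt) :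
    qc a P (N + n) Φ Ψ s z ∈ closedBall (0 : ℂ) 1 := by
  rw [mem_closedBall, dist_zero_right]
  by_cases h : ((P^[N + n] z : Pt) : ℂ) = a
  · rw [qc_a h, hS.norm]
  · exact (qc_lt hS hSys hF hs z h).le

/-- The transported translation goes to infinity at infinity. -/
theorem big {s : ℂ} (hs : ∀ z ∈ Φ '' KS a P N n, z + s ∈ Φ '' KS a P N n) (R : ℝ) :
    ∃ R' : ℝ, ∀ w ∈ KS a P N n, R' ≤ ‖w‖ → R < ‖Ψ (Φ w + s)‖ := by
  have hc : IsCompact (KS a P N n ∩ closedBall 0 R) :=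
    (isCompact_closedBall (0 : ℂ) R).inter_left (hSys.closed n)
  have hcont : ContinuousOn Φ (KS a P N n ∩ closedBall 0 R) :=
    (hF.hol.continuousOn).mono fun w hw => hSys.sub n hw.1
  obtain ⟨B, hB⟩ := hc.exists_bound_of_continuousOn hcont
  obtain ⟨R', hR'⟩ := hF.prop (B + 1 + ‖s‖)
  refine ⟨R', fun w hw hwR => ?_⟩
  by_contra hcon
  push Not at hcon
  obtain ⟨h1, h2⟩ := back hF hs hw
  have h3 := hB _ ⟨h1, by rw [mem_closedBall, dist_zero_right]; exact hcon⟩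
  rw [h2] at h3
  have h4 := hR' w hw hwR
  have h5 : ‖Φ w‖ ≤ ‖Φ w + s‖ + ‖s‖ := by
    have := norm_sub_le (Φ w + s) s
    simpa using this
  linarith

theorem qc_cont {s : ℂ} (hs : ∀ z ∈ Φ '' KS a P N n, z + s ∈ Φ '' KS a P N n) :
    Continuous (qc a P (N + n) Φ Ψ s) := by
  have hpc : Continuous (fun z : Pt => ((P^[N + n] z : Pt) : ℂ)) :=
    continuous_subtype_val.comp (hS.comp.cont.iterate _)
  have ha0 : a ≠ 0 := by
    have := hS.norm
    rintro rfl
    norm_num at this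
  rw [continuous_iff_continuousAt]
  intro z0
  by_cases h0 : ((P^[N + n] z0 : Pt) : ℂ) = a
  · -- the exceptional points
    rw [ContinuousAt, qc_a h0, Metric.tendsto_nhds]
    intro ε hε
    obtain ⟨R', hR'⟩ := big hS hSys hF hs (2 / ε + 1)
    set R1 : ℝ := max R' 1 with hR1
    have hR1pos : 0 < R1 := lt_of_lt_of_le one_pos (le_max_right _ _)
    have hev : ∀ᶠ z : Pt in 𝓝 z0, dist (((P^[N + n] z : Pt) : ℂ)) a < min 1 (1 / R1) := by
      have := hpc.continuousAt (x := z0)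
      rw [ContinuousAt, h0, Metric.tendsto_nhds] at this
      exact this _ (lt_min one_pos (by positivity))
    filter_upwards [hev] with z hz
    by_cases h : ((P^[N + n] z : Pt) : ℂ) = a
    · rw [qc_a h, dist_self]; exact hε
    · rw [qc_ne h]
      have hw : Cay a ((P^[N + n] z : Pt) : ℂ) ∈ KS a P N n := ⟨z, h, rfl⟩
      have hne : a - ((P^[N + n] z : Pt) : ℂ) ≠ 0 := sub_ne_zero.2 (Ne.symm h)
      have hbig : R' ≤ ‖Cay a ((P^[N + n] z : Pt) : ℂ)‖ := by
        unfold Cay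
        rw [norm_div]
        have h1 : dist (((P^[N + n] z : Pt) : ℂ)) a = ‖a - ((P^[N + n] z : Pt) : ℂ)‖ := by
          rw [dist_comm, dist_eq_norm]
        rw [h1] at hz
        have hz1 := lt_of_lt_of_le hz (min_le_left _ _)
        have hz2 := lt_of_lt_of_le hz (min_le_right _ _)
        have h2 : 1 ≤ ‖a + ((P^[N + n] z : Pt) : ℂ)‖ := by
          have h3 : (2 : ℂ) * a = (a + ((P^[N + n] z : Pt) : ℂ)) + (a - ((P^[N + n] z : Pt) : ℂ)) := by
            ring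
          have h4 : ‖(2 : ℂ) * a‖ = 2 := by rw [norm_mul, hS.norm]; norm_num
          have h5 := norm_add_le (a + ((P^[N + n] z : Pt) : ℂ)) (a - ((P^[N + n] z : Pt) : ℂ))
          rw [← h3, h4] at h5
          linarith
        have hpos : 0 < ‖a - ((P^[N + n] z : Pt) : ℂ)‖ := norm_pos_iff.2 hne
        calc R' ≤ R1 := le_max_left _ _
          _ ≤ 1 / ‖a - ((P^[N + n] z : Pt) : ℂ)‖ := by
            rw [le_div_iff₀ hpos]
            rw [lt_div_iff₀ hR1pos] at hz2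
            linarith
          _ ≤ _ := by gcongr
      have hR := hR' _ hw hbig
      set u := Ψ (Φ (Cay a ((P^[N + n] z : Pt) : ℂ)) + s) with hu
      have huK : u ∈ KS a P N n := (back hF hs hw).1
      have huH : u ∈ HH := hSys.sub n huK
      rw [dist_eq_norm, ic_sub a u hS.norm (HH_ne huH)]
      have h6 : 2 / ε < ‖u + 1‖ := by
        have h7 : ‖u‖ ≤ ‖u + 1‖ + 1 := by
          have := norm_sub_le (u + 1) 1
          simpa using this
        linarith
      have h8 : 0 < ‖u + 1‖ := lt_trans (by positivity) h6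
      rw [div_lt_iff₀ hε] at h6
      rw [div_lt_iff₀ h8]
      linarith
  · -- the other points
    have hev : ∀ᶠ z : Pt in 𝓝 z0, ((P^[N + n] z : Pt) : ℂ) ≠ a :=
      hpc.continuousAt.eventually_ne h0
    have hw : Cay a ((P^[N + n] z0 : Pt) : ℂ) ∈ KS a P N n := ⟨z0, h0, rfl⟩
    have hne : a - ((P^[N + n] z0 : Pt) : ℂ) ≠ 0 := sub_ne_zero.2 (Ne.symm h0)
    obtain ⟨h1, h2⟩ := back hF hs hw
    have hV : Φ (Cay a ((P^[N + n] z0 : Pt) : ℂ)) + s ∈ V := by
      apply hF.sub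
      exact hs _ ⟨_, hw, rfl⟩
    have c1 : ContinuousAt (fun z : Pt => Cay a ((P^[N + n] z : Pt) : ℂ)) z0 := by
      unfold Cay
      exact ((continuous_const.add hpc).continuousAt).div ((continuous_const.sub hpc).continuousAt)
        hne
    have c2 : ContinuousAt Φ (Cay a ((P^[N + n] z0 : Pt) : ℂ)) :=
      (hF.hol.differentiableAt (isOpen_HH.mem_nhds (hSys.sub n hw))).continuousAt
    have c3 : ContinuousAt Ψ (Φ (Cay a ((P^[N + n] z0 : Pt) : ℂ)) + s) :=
      (hF.holi.differentiableAt (hF.opn.mem_nhds hV)).continuousAt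
    have c4 : ContinuousAt (fun z : Pt => Φ (Cay a ((P^[N + n] z : Pt) : ℂ)) + s) z0 :=
      (ContinuousAt.comp (f := fun z : Pt => Cay a ((P^[N + n] z : Pt) : ℂ)) (g := Φ) c2 c1).add
        continuousAt_const
    have c5 : ContinuousAt (fun z : Pt => Ψ (Φ (Cay a ((P^[N + n] z : Pt) : ℂ)) + s)) z0 :=
      ContinuousAt.comp (f := fun z : Pt => Φ (Cay a ((P^[N + n] z : Pt) : ℂ)) + s) (g := Ψ) c3 c4
    have c6 : ContinuousAt
        (fun z : Pt => ic a (Ψ (Φ (Cay a ((P^[N + n] z : Pt) : ℂ)) + s))) z0 := by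
      unfold ic
      exact (continuousAt_const.mul (c5.sub continuousAt_const)).div
        (c5.add continuousAt_const) (HH_ne (hSys.sub n h1))
    refine c6.congr ?_
    filter_upwards [hev] with z hz
    rw [qc_ne hz]

/-- Holomorphy of the symbol in the open disc. -/
theorem qc_hol {s : ℂ} (hs : ∀ z ∈ Φ '' KS a P N n, z + s ∈ Φ '' KS a P N n) :
    DifferentiableOn ℂ (ext (qc a P (N + n) Φ Ψ s)) (ball (0 : ℂ) 1) := by
  have hp : DifferentiableOn ℂ (ext ((T ^ (N + n)) Z).1) (ball (0 : ℂ) 1) :=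
    differentiableOn_da _
  have hpe : ∀ z : Pt, ((T ^ (N + n)) Z).1 z = ((P^[N + n] z : Pt) : ℂ) := fun z => by
    rw [hS.comp.pow, Z_apply]
  have hext : ∀ z (hz : z ∈ ball (0 : ℂ) 1), ext ((T ^ (N + n)) Z).1 z =
      ((P^[N + n] ⟨z, ball_subset_closedBall hz⟩ : Pt) : ℂ) := fun z hz => by
    rw [ext_of_mem _ (ball_subset_closedBall hz), hpe]
  have hlt : ∀ z (hz : z ∈ ball (0 : ℂ) 1),
      ((P^[N + n] ⟨z, ball_subset_closedBall hz⟩ : Pt) : ℂ) ≠ a := fun z hz => by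
    apply ne_of hS.norm
    apply inn_iter hS
    simpa using hz
  have key : DifferentiableOn ℂ
      (fun z => ic a (Ψ (Φ (Cay a (ext ((T ^ (N + n)) Z).1 z)) + s))) (ball (0 : ℂ) 1) := by
    intro z hz
    have hz' := hext z hz
    have hne := hlt z hz
    have hw : Cay a (ext ((T ^ (N + n)) Z).1 z) ∈ KS a P N n := by
      rw [hz']
      exact ⟨_, hne, rfl⟩
    obtain ⟨h1, h2⟩ := back hF hs hw
    have hV : Φ (Cay a (ext ((T ^ (N + n)) Z).1 z)) + s ∈ V := by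
      apply hF.sub
      exact hs _ ⟨_, hw, rfl⟩
    have d0 : DifferentiableAt ℂ (ext ((T ^ (N + n)) Z).1) z :=
      hp.differentiableAt (isOpen_ball.mem_nhds hz)
    have d1 : DifferentiableAt ℂ (fun z => Cay a (ext ((T ^ (N + n)) Z).1 z)) z := by
      unfold Cay
      refine (d0.const_add a).div (d0.const_sub a) ?_
      rw [hz']
      exact sub_ne_zero.2 (Ne.symm hne)
    have d2 : DifferentiableAt ℂ Φ (Cay a (ext ((T ^ (N + n)) Z).1 z)) :=
      hF.hol.differentiableAt (isOpen_HH.mem_nhds (hSys.sub n hw))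
    have d3 : DifferentiableAt ℂ Ψ (Φ (Cay a (ext ((T ^ (N + n)) Z).1 z)) + s) :=
      hF.holi.differentiableAt (hF.opn.mem_nhds hV)
    have d4 : DifferentiableAt ℂ (fun z => Φ (Cay a (ext ((T ^ (N + n)) Z).1 z)) + s) z :=
      (DifferentiableAt.comp z d2 d1).add_const s
    have d5 : DifferentiableAt ℂ (fun z => Ψ (Φ (Cay a (ext ((T ^ (N + n)) Z).1 z)) + s)) z :=
      DifferentiableAt.comp z d3 d4
    have d6 : DifferentiableAt ℂ
        (fun z => ic a (Ψ (Φ (Cay a (ext ((T ^ (N + n)) Z).1 z)) + s))) z := by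
      unfold ic
      exact ((d5.sub_const 1).const_mul a).div (d5.add_const 1) (HH_ne (hSys.sub n h1))
    exact d6.differentiableWithinAt
  refine key.congr ?_
  intro z hz
  rw [ext_of_mem _ (ball_subset_closedBall hz), qc_ne (hlt z hz), hext z hz]

/-- The composition operator with the symbol. -/
theorem exists_op {s : ℂ} (hs : ∀ z ∈ Φ '' KS a P N n, z + s ∈ Φ '' KS a P N n) :
    ∃ A : Op, ‖A‖ ≤ 1 ∧
      ∀ (g : DA) (z : Pt), (A g).1 z = ext g.1 (qc a P (N + n) Φ Ψ s z) := by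
  have hle := qc_le hS hSys hF hs
  set Q : Pt → Pt := fun z => ⟨qc a P (N + n) Φ Ψ s z, hle z⟩ with hQ
  have hQc : Continuous Q := (qc_cont hS hSys hF hs).subtype_mk _
  have hmem : ∀ g : DA, (g.1.comp ⟨Q, hQc⟩ : C(Pt, ℂ)) ∈ DA := by
    intro g
    show DifferentiableOn ℂ (ext fun z : Pt => g.1 (Q z)) (ball (0 : ℂ) 1)
    have h1 : DifferentiableOn ℂ (fun z => ext g.1 (ext (qc a P (N + n) Φ Ψ s) z))
        (ball (0 : ℂ) 1) := by
      refine (differentiableOn_da g).comp (qc_hol hS hSys hF hs) ?_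
      intro z hz
      rw [ext_of_mem _ (ball_subset_closedBall hz), mem_ball_zero_iff]
      apply qc_lt hS hSys hF hs
      apply ne_of hS.norm
      apply inn_iter hS
      simpa using hz
    refine h1.congr ?_
    intro z hz
    show _ = ext g.1 (ext (qc a P (N + n) Φ Ψ s) z)
    rw [ext_of_mem _ (ball_subset_closedBall hz), ext_of_mem _ (ball_subset_closedBall hz),
      ext_of_mem _ (hle _)]
  let L : DA →ₗ[ℂ] DA :=
    { toFun := fun g => ⟨g.1.comp ⟨Q, hQc⟩, hmem g⟩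
      map_add' := fun f g => da_ext fun z => rfl
      map_smul' := fun c f => da_ext fun z => rfl }
  have hL : ∀ g : DA, ‖L g‖ ≤ 1 * ‖g‖ := fun g => by
    rw [one_mul]
    exact norm_le_of (norm_nonneg _) fun z => norm_apply_le g (Q z)
  refine ⟨L.mkContinuous 1 hL, LinearMap.mkContinuous_norm_le _ zero_le_one _, ?_⟩
  intro g z
  show g.1 (Q z) = _
  rw [ext_of_mem _ (hle z)]

/-- The product formula. -/
theorem qc_mul {s t : ℂ} (hs : ∀ z ∈ Φ '' KS a P N n, z + s ∈ Φ '' KS a P N n) (z : Pt) :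
    qc a P (N + n) Φ Ψ t ⟨qc a P (N + n) Φ Ψ s z, qc_le hS hSys hF hs z⟩ =
      qc a P (N + n) Φ Ψ (s + t) (P^[N + n] z) := by
  by_cases h : ((P^[N + n] z : Pt) : ℂ) = a
  · rw [qc_a (z := P^[N + n] z) (fix_iter hS _ h _), qc_a]
    apply fix_iter hS
    exact qc_a h
  · have hlt := qc_lt hS hSys hF hs z h
    have hp := lt_of hS n z h
    have hK : Cay a ((P^[N + n] z : Pt) : ℂ) ∈ KS a P N n := ⟨z, h, rfl⟩
    obtain ⟨h1, h2⟩ := back hF hs hK
    set w := Cay a ((P^[N + n] z : Pt) : ℂ) with hw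
    have hQ : qc a P (N + n) Φ Ψ s z = ic a (Ψ (Φ w + s)) := qc_ne h
    rw [qc_ne (ne_of hS.norm (inn_iter hS ⟨_, qc_le hS hSys hF hs z⟩ hlt (N + n))),
      qc_ne (ne_of hS.norm (inn_iter hS (P^[N + n] z) hp (N + n)))]
    rw [← FF_iter hS ⟨_, qc_le hS hSys hF hs z⟩ hlt (N + n), ← FF_iter hS (P^[N + n] z) hp (N + n)]
    rw [← hw]
    have e1 : Cay a (((⟨qc a P (N + n) Φ Ψ s z, qc_le hS hSys hF hs z⟩ : Pt) : ℂ)) =
        Ψ (Φ w + s) := by
      show Cay a (qc a P (N + n) Φ Ψ s z) = _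
      rw [hQ, cay_ic a _ hS.norm (HH_ne (hSys.sub n h1))]
    rw [e1, (abel_iter hSys hF.abel _ (hSys.sub n h1) (N + n)).2,
      (abel_iter hSys hF.abel _ (hSys.sub n hK) (N + n)).2, h2]
    congr 2
    ring

theorem qc_one_right {s : ℂ} (hs : ∀ z ∈ Φ '' KS a P N n, z + s ∈ Φ '' KS a P N n) (z : Pt) :
    ((P ⟨qc a P (N + n) Φ Ψ s z, qc_le hS hSys hF hs z⟩ : Pt) : ℂ) =
      qc a P (N + n) Φ Ψ (s + 1) z := by
  symm
  by_cases h : ((P^[N + n] z : Pt) : ℂ) = a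
  · rw [qc_a h]
    exact (hS.fix _ (qc_a h)).symm
  · have hlt := qc_lt hS hSys hF hs z h
    have hK : Cay a ((P^[N + n] z : Pt) : ℂ) ∈ KS a P N n := ⟨z, h, rfl⟩
    obtain ⟨h1, h2⟩ := back hF hs hK
    set w := Cay a ((P^[N + n] z : Pt) : ℂ) with hw
    have hQ : qc a P (N + n) Φ Ψ s z = ic a (Ψ (Φ w + s)) := qc_ne h
    have e1 : Cay a (((⟨qc a P (N + n) Φ Ψ s z, qc_le hS hSys hF hs z⟩ : Pt) : ℂ)) =
        Ψ (Φ w + s) := by
      show Cay a (qc a P (N + n) Φ Ψ s z) = _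
      rw [hQ, cay_ic a _ hS.norm (HH_ne (hSys.sub n h1))]
    have e2 := FF_cay hS ⟨qc a P (N + n) Φ Ψ s z, qc_le hS hSys hF hs z⟩ hlt
    rw [e1] at e2
    have hFK : FF a P (Ψ (Φ w + s)) ∈ KS a P N n := by
      apply hSys.anti n
      rw [← hSys.img n]
      exact ⟨_, h1, rfl⟩
    have e3 : Ψ (Φ w + (s + 1)) = FF a P (Ψ (Φ w + s)) := by
      have e4 : Φ w + (s + 1) = Φ (FF a P (Ψ (Φ w + s))) := by
        rw [hF.abel _ (hSys.sub n h1), h2]
        ring
      rw [e4, hF.inv _ hFK]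
    rw [qc_ne h, ← hw, e3, e2, ic_cay a _ hS.norm]
    exact ne_of hS.norm (hS.inn _ hlt)

theorem qc_one_left {s : ℂ} (z : Pt) :
    qc a P (N + n) Φ Ψ s (P z) = qc a P (N + n) Φ Ψ (s + 1) z := by
  have e0 : P^[N + n] (P z) = P (P^[N + n] z) := by
    rw [← Function.iterate_succ_apply, Function.iterate_succ_apply']
  by_cases h : ((P^[N + n] z : Pt) : ℂ) = a
  · rw [qc_a h, qc_a]
    rw [e0]
    exact hS.fix _ h
  · have hp := lt_of hS n z h
    have hK : Cay a ((P^[N + n] z : Pt) : ℂ) ∈ KS a P N n := ⟨z, h, rfl⟩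
    rw [qc_ne h, qc_ne]
    · rw [e0, ← FF_cay hS _ hp, hF.abel _ (hSys.sub n hK)]
      congr 2
      ring
    · rw [e0]
      exact ne_of hS.norm (hS.inn _ hp)

theorem qc_zero (z : Pt) :
    qc a P (N + n) Φ Ψ 0 z = ((P^[N + n] z : Pt) : ℂ) := by
  by_cases h : ((P^[N + n] z : Pt) : ℂ) = a
  · rw [qc_a h, h]
  · have hK : Cay a ((P^[N + n] z : Pt) : ℂ) ∈ KS a P N n := ⟨z, h, rfl⟩
    rw [qc_ne h, add_zero, hF.inv _ hK, ic_cay a _ hS.norm h]

/-- Holomorphy in the parameter. -/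
theorem par_hol (g : DA) (z : Pt) :
    DifferentiableOn ℂ (fun s => ext g.1 (qc a P (N + n) Φ Ψ s z)) (ball (m : ℂ) 1) := by
  by_cases h : ((P^[N + n] z : Pt) : ℂ) = a
  · refine (differentiableOn_const (ext g.1 a)).congr ?_
    intro s _
    rw [qc_a h]
  · have hK : Cay a ((P^[N + n] z : Pt) : ℂ) ∈ KS a P N n := ⟨z, h, rfl⟩
    have key : DifferentiableOn ℂ
        (fun s => ext g.1 (ic a (Ψ (Φ (Cay a ((P^[N + n] z : Pt) : ℂ)) + s)))) (ball (m : ℂ) 1) := by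
      intro s hs
      have hs' : ∀ z ∈ Φ '' KS a P N n, z + s ∈ Φ '' KS a P N n := fun z hz =>
        hF.eset.fat z hz s (ball_subset_closedBall hs)
      obtain ⟨h1, h2⟩ := back hF hs' hK
      have hV : Φ (Cay a ((P^[N + n] z : Pt) : ℂ)) + s ∈ V := by
        apply hF.sub
        exact hs' _ ⟨_, hK, rfl⟩
      have d3 : DifferentiableAt ℂ Ψ (Φ (Cay a ((P^[N + n] z : Pt) : ℂ)) + s) :=
        hF.holi.differentiableAt (hF.opn.mem_nhds hV)
      have d4 : DifferentiableAt ℂ (fun s => Φ (Cay a ((P^[N + n] z : Pt) : ℂ)) + s) s :=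
        differentiableAt_id.const_add _
      have d5 : DifferentiableAt ℂ (fun s => Ψ (Φ (Cay a ((P^[N + n] z : Pt) : ℂ)) + s)) s :=
        DifferentiableAt.comp s d3 d4
      have d6 : DifferentiableAt ℂ
          (fun s => ic a (Ψ (Φ (Cay a ((P^[N + n] z : Pt) : ℂ)) + s))) s := by
        unfold ic
        exact ((d5.sub_const 1).const_mul a).div (d5.add_const 1) (HH_ne (hSys.sub n h1))
      have d7 : DifferentiableAt ℂ (ext g.1)
          (ic a (Ψ (Φ (Cay a ((P^[N + n] z : Pt) : ℂ)) + s))) := by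
        apply (differentiableOn_da g).differentiableAt
        apply isOpen_ball.mem_nhds
        rw [mem_ball_zero_iff]
        exact ic_norm _ _ hS.norm (hSys.sub n h1)
      exact (DifferentiableAt.comp s d7 d6).differentiableWithinAt
    refine key.congr ?_
    intro s _
    rw [qc_ne h]

end main

/-- A bound for the variation of difference quotients. -/
theorem scal {φ : ℂ → ℂ} {c : ℂ} {R M : ℝ} (hR : 0 < R)
    (hd : DifferentiableOn ℂ φ (ball c R)) (hb : ∀ s ∈ ball c R, ‖φ s‖ ≤ M) :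
    ∀ u ∈ ball c (R / 4), ∀ v ∈ ball c (R / 4),
      ‖dslope φ c u - dslope φ c v‖ ≤ 8 * M / R ^ 2 * ‖u - v‖ := by
  intro u hu v hv
  have hψ : DifferentiableOn ℂ (dslope φ c) (ball c R) :=
    (Complex.differentiableOn_dslope (ball_mem_nhds c hR)).2 hd
  have hb1 : ∀ s ∈ ball c R, ‖dslope φ c s‖ ≤ 2 * M / R := by
    intro s hs
    refine Complex.norm_dslope_le_div_of_mapsTo_ball hd ?_ hs
    intro x hx
    rw [mem_closedBall, dist_eq_norm]
    have h1 := hb x hx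
    have h2 := hb c (mem_ball_self hR)
    have h3 := norm_sub_le (φ x) (φ c)
    linarith
  have hsub : ball v (R / 2) ⊆ ball c R := by
    intro x hx
    rw [mem_ball] at hx hv ⊢
    have := dist_triangle x v c
    linarith
  have h4 := Complex.dist_le_div_mul_dist_of_mapsTo_ball (R₂ := 4 * M / R) (hψ.mono hsub)
    (z := u) (c := v) (by
      intro x hx
      rw [mem_closedBall, dist_eq_norm]
      have h1 := hb1 x (hsub hx)
      have h2 := hb1 v (hsub (mem_ball_self (by positivity)))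
      have h3 := norm_sub_le (dslope φ c x) (dslope φ c v)
      have h5 : 4 * M / R = 2 * M / R + 2 * M / R := by ring
      linarith) (by
      rw [mem_ball] at hu hv ⊢
      have := dist_triangle_right u v c
      linarith)
  rw [dist_eq_norm, dist_eq_norm] at h4
  refine h4.trans (le_of_eq ?_)
  field_simp
  ring

/-- Lipschitz difference quotients have a limit in a Banach space. -/
theorem diff_of_lip {X : Type*} [NormedAddCommGroup X] [NormedSpace ℂ X] [CompleteSpace X]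
    {f : ℂ → X} {c : ℂ} {R C : ℝ} (hR : 0 < R) (hC : 0 ≤ C)
    (hsl : ∀ u ∈ ball c R, ∀ v ∈ ball c R, u ≠ c → v ≠ c →
      ‖slope f c u - slope f c v‖ ≤ C * ‖u - v‖) : DifferentiableAt ℂ f c := by
  have hcau : Cauchy (map (slope f c) (𝓝[≠] c)) := by
    rw [Metric.cauchy_iff]
    refine ⟨inferInstance, fun ε hε => ?_⟩
    set δ : ℝ := min R (ε / (4 * (C + 1))) with hδ
    have hδpos : 0 < δ := lt_min (by positivity) (by positivity)
    refine ⟨slope f c '' (ball c δ ∩ {c}ᶜ), image_mem_map ?_, ?_⟩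
    · exact inter_mem (mem_nhdsWithin_of_mem_nhds (ball_mem_nhds c hδpos)) self_mem_nhdsWithin
    rintro _ ⟨u, ⟨hu, huc⟩, rfl⟩ _ ⟨v, ⟨hv, hvc⟩, rfl⟩
    have h1 := hsl u (ball_subset_ball (min_le_left _ _) hu) v
      (ball_subset_ball (min_le_left _ _) hv) huc hvc
    rw [dist_eq_norm]
    refine lt_of_le_of_lt h1 ?_
    have h2 : ‖u - v‖ < 2 * δ := by
      rw [← dist_eq_norm]
      rw [mem_ball] at hu hv
      have := dist_triangle_right u v c
      linarith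
    have h3 : δ ≤ ε / (4 * (C + 1)) := min_le_right _ _
    have h4 : C * ‖u - v‖ ≤ (C + 1) * (2 * δ) := by
      apply mul_le_mul (by linarith) h2.le (norm_nonneg _) (by positivity)
    have h5 : (C + 1) * (2 * δ) ≤ (C + 1) * (2 * (ε / (4 * (C + 1)))) := by
      apply mul_le_mul_of_nonneg_left _ (by positivity)
      linarith
    have h6 : (C + 1) * (2 * (ε / (4 * (C + 1)))) = ε / 2 := by
      field_simp
      ring
    linarith
  obtain ⟨D, hD⟩ := CompleteSpace.complete (α := X) hcau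
  have : HasDerivAt f D c := hasDerivAt_iff_tendsto_slope.2 hD
  exact this.differentiableAt

theorem eval_slope (TT : ℂ → Op) (c u : ℂ) (g : DA) (z : Pt) :
    ((slope TT c u) g).1 z = slope (fun s => (TT s g).1 z) c u := rfl

/-- From weak to strong holomorphy, for families of operators on the disc algebra. -/
theorem strong {TT : ℂ → Op} {c : ℂ} {R : ℝ} (hR : 0 < R)
    (hd : ∀ (g : DA) (z : Pt), DifferentiableOn ℂ (fun s => (TT s g).1 z) (ball c R))
    (hb : ∀ s ∈ ball c R, ‖TT s‖ ≤ 1) : DifferentiableAt ℂ TT c := by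
  refine diff_of_lip (X := Op) (R := R / 4) (C := 8 / R ^ 2) (by positivity) (by positivity) ?_
  intro u hu v hv huc hvc
  refine ContinuousLinearMap.opNorm_le_bound _ (by positivity) fun g => ?_
  refine norm_le_of (by positivity) fun z => ?_
  have h0 : ∀ s ∈ ball c R, ‖(TT s g).1 z‖ ≤ ‖g‖ := by
    intro s hs
    have e1 : ‖(TT s g).1 z‖ ≤ ‖TT s g‖ := norm_apply_le (TT s g) z
    have e2 : ‖TT s g‖ ≤ ‖TT s‖ * ‖g‖ := (TT s).le_opNorm g
    have e3 : ‖TT s‖ * ‖g‖ ≤ 1 * ‖g‖ := mul_le_mul_of_nonneg_right (hb s hs) (norm_nonneg g)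
    linarith
  have h1 := scal hR (hd g z) h0 u hu v hv
  rw [dslope_of_ne _ huc, dslope_of_ne _ hvc, ← eval_slope, ← eval_slope] at h1
  refine le_trans (le_of_eq ?_) (h1.trans (le_of_eq ?_))
  · rfl
  · ring

end Pool.Agent.T6.H4.SG.OPSx

namespace Pool.Agent.T6.H4.SG

open OPSx

theorem t_OPS : S_OPS := by
  classical
  intro T P a N hS hSys n m Φ Ψ V hF
  have hex := fun (s : ℂ) (hs : ∀ z ∈ Φ '' KS a P N n, z + s ∈ Φ '' KS a P N n) =>
    exists_op hS hSys hF hs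
  choose! TT0 hTT0 using hex
  refine ⟨TT0, fun s hs => (hTT0 s hs).1, ?_, ?_, ?_, ?_⟩
  · intro s hs t ht
    have hst : ∀ z ∈ Φ '' KS a P N n, z + (s + t) ∈ Φ '' KS a P N n := fun z hz => by
      rw [← add_assoc]
      exact ht _ (hs z hz)
    apply ContinuousLinearMap.ext
    intro g
    apply da_ext
    intro z
    show (TT0 s (TT0 t g)).1 z = ((T ^ (N + n)) (TT0 (s + t) g)).1 z
    rw [(hTT0 s hs).2, ext_of_mem _ (qc_le hS hSys hF hs z), (hTT0 t ht).2, hS.comp.pow,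
      (hTT0 _ hst).2, qc_mul hS hSys hF hs z]
  · intro s hs
    have hs1 : ∀ z ∈ Φ '' KS a P N n, z + (s + 1) ∈ Φ '' KS a P N n := fun z hz => by
      rw [← add_assoc]
      exact hF.eset.one _ (hs z hz)
    refine ⟨?_, ?_⟩
    · apply ContinuousLinearMap.ext
      intro g
      apply da_ext
      intro z
      show (TT0 s (T g)).1 z = (TT0 (s + 1) g).1 z
      rw [(hTT0 s hs).2, ext_of_mem _ (qc_le hS hSys hF hs z), hS.comp.eq, (hTT0 _ hs1).2,
        ← qc_one_right hS hSys hF hs z, ext_apply]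
    · apply ContinuousLinearMap.ext
      intro g
      apply da_ext
      intro z
      show (T (TT0 s g)).1 z = (TT0 (s + 1) g).1 z
      rw [hS.comp.eq, (hTT0 s hs).2, (hTT0 _ hs1).2, qc_one_left hS hSys hF z]
  · have h0 : ∀ z ∈ Φ '' KS a P N n, z + 0 ∈ Φ '' KS a P N n := fun z hz => by
      rw [add_zero]
      exact hz
    apply ContinuousLinearMap.ext
    intro g
    apply da_ext
    intro z
    rw [(hTT0 0 h0).2, hS.comp.pow, qc_zero hS hSys hF z, ext_apply]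
  · intro c hc
    obtain ⟨R, hR, hRs⟩ := Metric.isOpen_ball.mem_nhds hc |> Metric.mem_nhds_iff.1
    have hfat : ∀ s ∈ ball c R, ∀ z ∈ Φ '' KS a P N n, z + s ∈ Φ '' KS a P N n :=
      fun s hs z hz => hF.eset.fat z hz s (ball_subset_closedBall (hRs hs))
    refine (strong hR (fun g z => ?_) (fun s hs => (hTT0 s (hfat s hs)).1)).differentiableWithinAt
    refine ((par_hol hS hSys hF g z).mono hRs).congr ?_
    intro s hs
    exact (hTT0 s (hfat s hs)).2 g z

end Pool.Agent.T6.H4.SG
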